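import Mathlib

/-!
# Definitions used in the statement for MP_e2473a_lc

Subsets of `ℕ` (oracles) are functions `ℕ → Bool`.
-/

namespace JumpDeg

open Encodable Denumerable
open Nat.Partrec (Code)

/-- The initial segment of length `t` of the oracle `X`. -/
def pre (X : ℕ → Bool) (t : ℕ) : List Bool := (List.range t).map X

/-- The Turing jump of `X`: the set of all `e` such that the `e`-th partial recursive function
converges on (the code of) some initial segment of `X`.  (See `JumpDeg.jump_complete` in
`Pool.Agent.JumpDeg.RecIn`: this set is many-one complete among the domains of the functions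
recursive in `X`, and is itself such a domain.) -/
noncomputable def jump (X : ℕ → Bool) : ℕ → Bool := fun e =>
  open Classical in
  decide (∃ t : ℕ, (Code.eval (ofNat Code e) (encode (pre X t))).Dom)

/-- The iterated jump of `X` along the well-founded relation `r`:
`iterJump r X m = X ⊕ ⨁_{k ≺ m} (iterJump r X k)'`.
If `m` has rank `α` in the computable well-ordering `r` this is the `α`-th jump `X^(α)`
(up to Turing equivalence). The even bits are those of `X`, and the bit `2⟨k, e⟩ + 1` is the
`e`-th bit of the jump of `iterJump r X k` if `r k m`, and `false` otherwise. -/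
noncomputable def iterJump (r : ℕ → ℕ → Prop) [IsWellFounded ℕ r] (X : ℕ → Bool) :
    ℕ → ℕ → Bool :=
  IsWellFounded.fix r fun m ih n =>
    open Classical in
    if n % 2 = 0 then X (n / 2)
    else if h : r (n / 2).unpair.1 m then jump (ih _ h) (n / 2).unpair.2
    else false

/-- The characteristic function of `A`, as a partial function on `ℕ`. -/
def chi (A : ℕ → Bool) : ℕ →. ℕ := fun n => Part.some (if A n = true then 1 else 0)

/-- The Turing degree (in Mathlib's sense) of the set `A`. -/
def degree (A : ℕ → Bool) : TuringDegree := toAntisymmetrization TuringReducible (chi A)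

/-- The atomic diagram of the structure `(ℕ, op)`, i.e. the graph of the operation `op`. -/
def diagram (op : ℕ → ℕ → ℕ) : ℕ → Bool := fun n =>
  decide (op n.unpair.1.unpair.1 n.unpair.1.unpair.2 = n.unpair.2)

/-- The structure `(ℕ, op)` is isomorphic to `(G, +)`. -/
def IsCopy (G : Type*) [AddCommGroup G] (op : ℕ → ℕ → ℕ) : Prop :=
  ∃ e : ℕ ≃ G, ∀ a b, e (op a b) = e a + e b

/-- `G` is isomorphic to a direct sum of countably many subgroups of `(ℚ, +)`. -/
def CompletelyDecomposable (G : Type*) [AddCommGroup G] : Prop :=
  ∃ H : ℕ → AddSubgroup ℚ, Nonempty (G ≃+ DirectSum ℕ fun i => H i)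

/-- `α` is a computable ordinal: it is the order type of the set of predecessors of some `m` in a
computable well-ordering of `ℕ`. -/
def IsComputableOrdinal (α : Ordinal.{0}) : Prop :=
  ∃ (r : ℕ → ℕ → Prop) (_ : IsWellOrder ℕ r),
    ComputablePred (fun p : ℕ × ℕ => r p.1 p.2) ∧ ∃ m : ℕ, Ordinal.typein r m = α

/-- The set of all degrees `d^(α)`, where `d` ranges over the degree spectrum of `G`: the jumps of
the atomic diagrams of the copies of `G` with universe `ℕ` are iterated along a computable
well-ordering `r` of `ℕ` in which `m` has exactly `α` predecessors.  All choices of `r` and `m`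
are allowed; by `JumpDeg.degree_iterJump_congr` (Spector's theorem, proved in
`Pool.Agent.JumpDeg.Spector`) the degree of `iterJump r X m` does not depend on the choice. -/
def jumpSpectrum (α : Ordinal.{0}) (G : Type*) [AddCommGroup G] : Set TuringDegree :=
  {d | ∃ (op : ℕ → ℕ → ℕ) (r : ℕ → ℕ → Prop) (_ : IsWellOrder ℕ r) (m : ℕ),
    IsCopy G op ∧ ComputablePred (fun p : ℕ × ℕ => r p.1 p.2) ∧ Ordinal.typein r m = α ∧
      d = degree (iterJump r (diagram op) m)}

/-- `c` is the `α`-th jump degree of `G`. -/
def IsJumpDegree (α : Ordinal.{0}) (G : Type*) [AddCommGroup G] (c : TuringDegree) : Prop :=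
  IsLeast (jumpSpectrum α G) c

/-- `G` has a proper `α`-th jump degree. -/
def HasProperJumpDegree (α : Ordinal.{0}) (G : Type*) [AddCommGroup G] : Prop :=
  (∃ c, IsJumpDegree α G c) ∧ ∀ β < α, ¬ ∃ c, IsJumpDegree β G c

end JumpDeg
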