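import Mathlib
import Pool.Agent.JumpDeg.Defs

/-!
A small calculus of predicates that are semi-decidable relative to an oracle
`X : ℕ → Bool`, phrased through finite initial segments of the oracle.
-/

namespace JumpDeg

open Encodable Denumerable
open Nat.Partrec (Code)

@[simp] lemma length_pre (X : ℕ → Bool) (t : ℕ) : (pre X t).length = t := by simp [pre]

lemma getElem?_pre (X : ℕ → Bool) (t i : ℕ) :
    (pre X t)[i]? = if i < t then some (X i) else none := by
  unfold pre
  by_cases h : i < t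
  · simp [h]
  · simp [h]

lemma getElem?_pre_of_lt (X : ℕ → Bool) {t i : ℕ} (h : i < t) :
    (pre X t)[i]? = some (X i) := by rw [getElem?_pre, if_pos h]

lemma getElem_pre (X : ℕ → Bool) {t i : ℕ} (h : i < (pre X t).length) :
    (pre X t)[i] = X i := by simp [pre]

lemma prefix_iff_getElem? {α : Type*} {l m : List α} :
    l <+: m ↔ ∀ (i : ℕ) (a : α), l[i]? = some a → m[i]? = some a := by
  constructor
  · intro h i a hi
    obtain ⟨t, rfl⟩ := h
    have hlt : i < l.length := by
      by_contra hc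
      rw [List.getElem?_eq_none (by omega)] at hi
      cases hi
    rw [List.getElem?_append_left hlt, hi]
  · intro h
    rw [List.prefix_iff_eq_take]
    apply List.ext_getElem?
    intro i
    by_cases hlt : i < l.length
    · have h1 : l[i]? = some l[i] := by simp [hlt]
      rw [h1, List.getElem?_take_of_lt hlt, h i _ h1]
    · rw [List.getElem?_eq_none (by omega), List.getElem?_take_eq_none (by omega)]

lemma prefix_pre_iff {σ : List Bool} {X : ℕ → Bool} {t : ℕ} :
    σ <+: pre X t ↔ σ.length ≤ t ∧ ∀ i (h : i < σ.length), σ[i] = X i := by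
  constructor
  · intro h
    have hl := h.length_le
    simp only [length_pre] at hl
    refine ⟨hl, fun i hi => ?_⟩
    have := prefix_iff_getElem?.1 h i σ[i] (by simp [hi])
    rw [getElem?_pre_of_lt X (by omega)] at this
    exact (Option.some.inj this).symm
  · rintro ⟨hl, h⟩
    rw [prefix_iff_getElem?]
    intro i a hi
    have hlt : i < σ.length := by
      by_contra hc
      rw [List.getElem?_eq_none (by omega)] at hi
      cases hi
    rw [getElem?_pre_of_lt X (by omega), ← h i hlt]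
    simpa [hlt] using hi

lemma pre_prefix_iff {τ : List Bool} {X : ℕ → Bool} {t : ℕ} :
    pre X t <+: τ ↔ ∀ i < t, τ[i]? = some (X i) := by
  rw [prefix_iff_getElem?]
  constructor
  · intro h i hi
    exact h i _ (getElem?_pre_of_lt X hi)
  · intro h i a hi
    rw [getElem?_pre] at hi
    split_ifs at hi with hlt
    rw [h i hlt, hi]

lemma pre_prefix_pre (X : ℕ → Bool) {s t : ℕ} (h : s ≤ t) : pre X s <+: pre X t := by
  rw [pre_prefix_iff]
  intro i hi
  exact getElem?_pre_of_lt X (by omega)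

lemma take_pre (X : ℕ → Bool) (s t : ℕ) : (pre X t).take s = pre X (min s t) := by
  simp [pre, List.take_range, ← List.map_take]

lemma eq_pre_of_prefix {σ : List Bool} {X : ℕ → Bool} {t : ℕ} (h : σ <+: pre X t) :
    σ = pre X σ.length := by
  have hl := h.length_le
  rw [length_pre] at hl
  rw [List.prefix_iff_eq_take] at h
  rw [take_pre, min_eq_left hl] at h
  exact h

lemma eq_pre_iff {σ : List Bool} {X : ℕ → Bool} :
    σ = pre X σ.length ↔ ∀ i (h : i < σ.length), σ[i] = X i := by
  constructor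
  · intro h
    have : σ <+: pre X σ.length := by rw [← h]
    exact (prefix_pre_iff.1 this).2
  · intro h
    exact eq_pre_of_prefix (prefix_pre_iff.2 ⟨le_rfl, h⟩)

lemma pre_congr {X Y : ℕ → Bool} {t : ℕ} (h : ∀ i < t, X i = Y i) : pre X t = pre Y t := by
  unfold pre
  apply List.map_congr_left
  intro i hi
  exact h i (List.mem_range.1 hi)

/-! ### helpers on primitive recursion -/

section Prim
variable {α β γ : Type*} [Primcodable α] [Primcodable β] [Primcodable γ]

lemma prim_exists_lt {p : α × ℕ → Prop} (hp : PrimrecPred p) {f : α → ℕ} (hf : Primrec f) :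
    PrimrecPred fun a => ∃ i < f a, p (a, i) := by
  have hR : PrimrecRel (fun (i : ℕ) (a : α) => p (a, i)) :=
    hp.comp (Primrec.pair Primrec.snd Primrec.fst)
  exact (hR.exists_mem_list.comp (Primrec.list_range.comp hf) Primrec.id).of_eq (by simp)

lemma prim_forall_lt {p : α × ℕ → Prop} (hp : PrimrecPred p) {f : α → ℕ} (hf : Primrec f) :
    PrimrecPred fun a => ∀ i < f a, p (a, i) := by
  have hR : PrimrecRel (fun (i : ℕ) (a : α) => p (a, i)) :=
    hp.comp (Primrec.pair Primrec.snd Primrec.fst)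
  exact (hR.forall_mem_list.comp (Primrec.list_range.comp hf) Primrec.id).of_eq (by simp)

lemma prim_decode {p : α × β → Prop} (hp : PrimrecPred p) :
    PrimrecPred fun q : α × ℕ => ∃ b : β, decode q.2 = some b ∧ p (q.1, b) := by
  obtain ⟨_, hp⟩ := hp
  have h1 : Primrec fun q : α × ℕ => (decode (α := β) q.2).map fun b => decide (p (q.1, b)) := by
    apply Primrec.option_map (Primrec.decode.comp Primrec.snd)
    exact (hp.comp (Primrec.pair (Primrec.fst.comp Primrec.fst) Primrec.snd)).to₂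
  have h2 : PrimrecPred fun q : α × ℕ =>
      ((decode (α := β) q.2).map fun b => decide (p (q.1, b))) = some true :=
    Primrec.eq.comp h1 (Primrec.const _)
  refine h2.of_eq ?_
  rintro ⟨a, n⟩
  simp

end Prim

/-- `Sig D S`: uniformly for oracles `X ∈ D`, the predicate `S X` is semi-decidable
relative to `X`. -/
def Sig {α : Type*} [Primcodable α] (D : Set (ℕ → Bool)) (S : (ℕ → Bool) → α → Prop) : Prop :=
  ∃ R : α × List Bool → Prop, PrimrecPred R ∧
    (∀ a σ τ, σ <+: τ → R (a, σ) → R (a, τ)) ∧ ∀ X ∈ D, ∀ a, S X a ↔ ∃ t, R (a, pre X t)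

namespace Sig

variable {α β γ : Type*} [Primcodable α] [Primcodable β] [Primcodable γ]
variable {D : Set (ℕ → Bool)}

lemma congr {S T : (ℕ → Bool) → α → Prop} (h : Sig D S) (e : ∀ X ∈ D, ∀ a, T X a ↔ S X a) :
    Sig D T := by
  obtain ⟨R, h1, h2, h3⟩ := h
  exact ⟨R, h1, h2, fun X hX a => (e X hX a).trans (h3 X hX a)⟩

lemma mono {D' : Set (ℕ → Bool)} {S : (ℕ → Bool) → α → Prop} (h : Sig D S) (hD : D' ⊆ D) :
    Sig D' S := by
  obtain ⟨R, h1, h2, h3⟩ := h
  exact ⟨R, h1, h2, fun X hX a => h3 X (hD hX) a⟩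

lemma of_prim {p : α → Prop} (hp : PrimrecPred p) : Sig D (fun _ a => p a) := by
  refine ⟨fun q => p q.1, hp.comp Primrec.fst, fun a σ τ _ h => h, fun X _ a => ?_⟩
  simp

lemma and {S T : (ℕ → Bool) → α → Prop} (hS : Sig D S) (hT : Sig D T) :
    Sig D (fun X a => S X a ∧ T X a) := by
  obtain ⟨R, h1, h2, h3⟩ := hS
  obtain ⟨R', h1', h2', h3'⟩ := hT
  refine ⟨fun q => R q ∧ R' q, h1.and h1', fun a σ τ h hh => ⟨h2 a σ τ h hh.1, h2' a σ τ h hh.2⟩,
    fun X hX a => ?_⟩
  show (S X a ∧ T X a) ↔ ∃ t, R (a, pre X t) ∧ R' (a, pre X t)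
  rw [h3 X hX, h3' X hX]
  constructor
  · rintro ⟨⟨t, ht⟩, ⟨t', ht'⟩⟩
    exact ⟨max t t', h2 a _ _ (pre_prefix_pre X (le_max_left _ _)) ht,
      h2' a _ _ (pre_prefix_pre X (le_max_right _ _)) ht'⟩
  · rintro ⟨t, ht, ht'⟩
    exact ⟨⟨t, ht⟩, ⟨t, ht'⟩⟩

lemma or {S T : (ℕ → Bool) → α → Prop} (hS : Sig D S) (hT : Sig D T) :
    Sig D (fun X a => S X a ∨ T X a) := by
  obtain ⟨R, h1, h2, h3⟩ := hS
  obtain ⟨R', h1', h2', h3'⟩ := hT
  refine ⟨fun q => R q ∨ R' q, h1.or h1', fun a σ τ h hh => hh.imp (h2 a σ τ h) (h2' a σ τ h),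
    fun X hX a => ?_⟩
  show (S X a ∨ T X a) ↔ ∃ t, R (a, pre X t) ∨ R' (a, pre X t)
  rw [h3 X hX, h3' X hX]
  constructor
  · rintro (⟨t, ht⟩ | ⟨t', ht'⟩)
    · exact ⟨t, Or.inl ht⟩
    · exact ⟨t', Or.inr ht'⟩
  · rintro ⟨t, ht | ht'⟩
    · exact Or.inl ⟨t, ht⟩
    · exact Or.inr ⟨t, ht'⟩

lemma comp {S : (ℕ → Bool) → β → Prop} (hS : Sig D S) {f : α → β} (hf : Primrec f) :
    Sig D (fun X a => S X (f a)) := by
  obtain ⟨R, h1, h2, h3⟩ := hS
  refine ⟨fun q => R (f q.1, q.2),
    h1.comp (Primrec.pair (hf.comp Primrec.fst) Primrec.snd),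
    fun a σ τ h hh => h2 _ σ τ h hh, fun X hX a => h3 X hX (f a)⟩

lemma ex {S : (ℕ → Bool) → α × β → Prop} (hS : Sig D S) :
    Sig D (fun X a => ∃ b, S X (a, b)) := by
  obtain ⟨R, h1, h2, h3⟩ := hS
  have hp : PrimrecPred fun q : (α × List Bool) × β => R ((q.1.1, q.2), q.1.2) :=
    h1.comp (Primrec.pair (Primrec.pair (Primrec.fst.comp Primrec.fst) Primrec.snd)
      (Primrec.snd.comp Primrec.fst))
  refine ⟨fun q => ∃ i < q.2.length, ∃ b : β, decode i = some b ∧ R ((q.1, b), q.2),
    prim_exists_lt (prim_decode hp) (Primrec.list_length.comp Primrec.snd), ?_, ?_⟩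
  · rintro a σ τ h ⟨i, hi, b, hb, hR⟩
    exact ⟨i, lt_of_lt_of_le hi h.length_le, b, hb, h2 _ _ _ h hR⟩
  · intro X hX a
    constructor
    · rintro ⟨b, hb⟩
      obtain ⟨t, ht⟩ := (h3 X hX (a, b)).1 hb
      refine ⟨max t (encode b + 1), encode b, ?_, b, encodek b,
        h2 _ _ _ (pre_prefix_pre X (le_max_left _ _)) ht⟩
      simp only [length_pre]
      exact lt_of_lt_of_le (Nat.lt_succ_self _) (le_max_right _ _)
    · rintro ⟨t, i, _, b, _, hR⟩
      exact ⟨b, (h3 X hX (a, b)).2 ⟨t, hR⟩⟩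

lemma ball {S : (ℕ → Bool) → α × ℕ → Prop} (hS : Sig D S) {f : α → ℕ} (hf : Primrec f) :
    Sig D (fun X a => ∀ i < f a, S X (a, i)) := by
  obtain ⟨R, h1, h2, h3⟩ := hS
  have hp : PrimrecPred fun q : (α × List Bool) × ℕ => R ((q.1.1, q.2), q.1.2) :=
    h1.comp (Primrec.pair (Primrec.pair (Primrec.fst.comp Primrec.fst) Primrec.snd)
      (Primrec.snd.comp Primrec.fst))
  refine ⟨fun q => ∀ i < f q.1, R ((q.1, i), q.2), prim_forall_lt hp (hf.comp Primrec.fst),
    ?_, ?_⟩
  · intro a σ τ h hh i hi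
    exact h2 _ _ _ h (hh i hi)
  · intro X hX a
    constructor
    · intro h
      have h' : ∀ i < f a, ∃ t, R ((a, i), pre X t) := fun i hi => (h3 X hX _).1 (h i hi)
      have key : ∀ n ≤ f a, ∃ t, ∀ i < n, R ((a, i), pre X t) := by
        intro n
        induction n with
        | zero => exact fun _ => ⟨0, fun i hi => by omega⟩
        | succ n ih =>
          intro hn
          obtain ⟨t, ht⟩ := ih (by omega)
          obtain ⟨t', ht'⟩ := h' n (by omega)
          refine ⟨max t t', fun i hi => ?_⟩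
          rcases Nat.lt_succ_iff_lt_or_eq.1 hi with hi | rfl
          · exact h2 _ _ _ (pre_prefix_pre X (le_max_left _ _)) (ht i hi)
          · exact h2 _ _ _ (pre_prefix_pre X (le_max_right _ _)) ht'
      exact key (f a) le_rfl
    · rintro ⟨t, ht⟩ i hi
      exact (h3 X hX _).2 ⟨t, ht i hi⟩

/-- truth-table style decidable predicates -/
lemma bounded {P : α × List Bool → Prop} (hP : PrimrecPred P) {u : α → ℕ} (hu : Primrec u) :
    Sig D (fun X a => P (a, pre X (u a))) := by
  refine ⟨fun q => u q.1 ≤ q.2.length ∧ P (q.1, q.2.take (u q.1)), ?_, ?_, ?_⟩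
  · refine PrimrecPred.and ?_ ?_
    · exact Primrec.nat_le.comp (hu.comp Primrec.fst) (Primrec.list_length.comp Primrec.snd)
    · exact hP.comp (Primrec.pair Primrec.fst
        (Primrec.list_take.comp (hu.comp Primrec.fst) Primrec.snd))
  · rintro a σ τ h ⟨h1, h2⟩
    refine ⟨h1.trans h.length_le, ?_⟩
    obtain ⟨ρ, rfl⟩ := h
    simp only at h1 h2 ⊢
    rwa [List.take_append_of_le_length h1]
  · intro X _ a
    constructor
    · intro h
      refine ⟨u a, by simp, ?_⟩
      simpa [take_pre] using h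
    · rintro ⟨t, h1, h2⟩
      simp only [length_pre, take_pre] at h1 h2
      rwa [min_eq_left h1] at h2

lemma oracle {f : α → ℕ} {g : α → Bool} (hf : Primrec f) (hg : Primrec g) :
    Sig D (fun X a => X (f a) = g a) := by
  have hP : PrimrecPred fun q : α × List Bool => q.2[f q.1]? = some (g q.1) :=
    Primrec.eq.comp (Primrec.list_getElem?.comp Primrec.snd (hf.comp Primrec.fst))
      (Primrec.option_some.comp (hg.comp Primrec.fst))
  refine (bounded hP (Primrec.succ.comp hf)).congr ?_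
  intro X _ a
  simp only
  rw [getElem?_pre_of_lt X (Nat.lt_succ_self _)]
  simp

lemma of_re {p : α → Prop} (hp : REPred p) : Sig D (fun _ a => p a) := by
  unfold REPred Partrec at hp
  obtain ⟨c, hc⟩ := Code.exists_code.1 hp
  have hc' : ∀ a, p a ↔ (c.eval (encode a)).Dom := by
    intro a
    have := congrFun hc (encode a)
    rw [this]
    simp [Part.assert]
  refine ⟨fun q => (Code.evaln q.2.length c (encode q.1)).isSome = true, ?_, ?_, ?_⟩
  · refine Primrec.eq.comp (Primrec.option_isSome.comp ?_) (Primrec.const _)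
    exact Code.primrec_evaln.comp (Primrec.pair (Primrec.pair
      (Primrec.list_length.comp Primrec.snd) (Primrec.const c))
      (Primrec.encode.comp Primrec.fst))
  · intro a σ τ h hh
    simp only at hh ⊢
    obtain ⟨x, hx⟩ := Option.isSome_iff_exists.1 hh
    rw [Option.isSome_iff_exists]
    exact ⟨x, Code.evaln_mono h.length_le hx⟩
  · intro X _ a
    show p a ↔ _
    rw [hc']
    constructor
    · intro h
      obtain ⟨k, hk⟩ := Code.evaln_complete.1 (Part.get_mem h)
      refine ⟨k, ?_⟩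
      simp only [length_pre]
      rw [Option.isSome_iff_exists]
      exact ⟨_, hk⟩
    · rintro ⟨t, ht⟩
      simp only [length_pre] at ht
      obtain ⟨x, hx⟩ := Option.isSome_iff_exists.1 ht
      exact (Part.dom_iff_mem.2 ⟨x, Code.evaln_sound hx⟩)

/-- substitution of a functional for the oracle -/
lemma subst {E : Set (ℕ → Bool)} {S : (ℕ → Bool) → α → Prop} (hS : Sig E S)
    {G : (ℕ → Bool) → (ℕ → Bool)} (hG : Sig D (fun X (p : ℕ × Bool) => G X p.1 = p.2))
    (hD : ∀ X ∈ D, G X ∈ E) : Sig D (fun X a => S (G X) a) := by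
  obtain ⟨R, h1, h2, h3⟩ := hS
  have hT : Sig D (fun X (q : α × List Bool) => R q ∧
      ∀ i < q.2.length, G X i = q.2.getD i false) := by
    refine (of_prim h1).and ?_
    have : Sig D (fun X (q : (α × List Bool) × ℕ) => G X q.2 = q.1.2.getD q.2 false) :=
      hG.comp (f := fun q : (α × List Bool) × ℕ => (q.2, q.1.2.getD q.2 false))
        (Primrec.pair Primrec.snd ((Primrec.list_getD false).comp
          (Primrec.snd.comp Primrec.fst) Primrec.snd))
    exact this.ball (f := fun q : α × List Bool => q.2.length)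
      (Primrec.list_length.comp Primrec.snd)
  refine hT.ex.congr ?_
  intro X hX a
  rw [h3 (G X) (hD X hX) a]
  constructor
  · rintro ⟨t, ht⟩
    refine ⟨pre (G X) t, ht, ?_⟩
    intro i hi
    simp only [length_pre] at hi
    simp [List.getD, getElem?_pre_of_lt _ hi]
  · rintro ⟨σ, hR, h⟩
    refine ⟨σ.length, ?_⟩
    have : σ = pre (G X) σ.length := by
      rw [eq_pre_iff]
      intro i hi
      rw [h i hi]
      simp [hi]
    rw [← this]
    exact hR

end Sig

end JumpDeg
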