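import Mathlib
import Pool.Agent.JumpDeg.Sig

/-!
The jump operator (through initial segments of the oracle), its completeness, the
s-m-n theorem and the recursion theorem for `Sig`, and iterated jumps along a well-order.
-/

namespace JumpDeg

open Encodable Denumerable
open Nat.Partrec (Code)

lemma jump_eq_true {X : ℕ → Bool} {e : ℕ} :
    jump X e = true ↔ ∃ t : ℕ, (Code.eval (ofNat Code e) (encode (pre X t))).Dom := by
  unfold jump
  simp

section
variable {α β γ : Type*} [Primcodable α] [Primcodable β] [Primcodable γ]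
variable {D : Set (ℕ → Bool)}

/-- The relation: the `e`-th c.e. set of strings contains `ρ`. -/
lemma sig_dom : Sig D (fun _ (q : ℕ × List Bool) =>
    (Code.eval (ofNat Code q.1) (encode q.2)).Dom) := by
  apply Sig.of_re
  have h : Partrec (fun q : ℕ × List Bool => Code.eval (ofNat Code q.1) (encode q.2)) :=
    Code.eval_part.comp ((Primrec.ofNat Code).to_comp.comp Computable.fst)
      (Computable.encode.comp Computable.snd)
  exact h.dom_re

lemma jump_sig : Sig D (fun X (e : ℕ) => jump X e = true) := by
  have h := (sig_dom (D := D)).comp (β := ℕ × List Bool) (α := ℕ × List Bool) Primrec.id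
  have h2 : Sig D (fun X (q : ℕ × List Bool) =>
      (Code.eval (ofNat Code q.1) (encode q.2)).Dom ∧
        ∀ i < q.2.length, X i = q.2.getD i false) := by
    refine (sig_dom (D := D)).and ?_
    have : Sig D (fun X (q : (ℕ × List Bool) × ℕ) => X q.2 = q.1.2.getD q.2 false) :=
      Sig.oracle Primrec.snd ((Primrec.list_getD false).comp
        (Primrec.snd.comp Primrec.fst) Primrec.snd)
    exact this.ball (f := fun q : ℕ × List Bool => q.2.length)
      (Primrec.list_length.comp Primrec.snd)
  refine h2.ex.congr ?_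
  intro X hX e
  rw [jump_eq_true]
  constructor
  · rintro ⟨t, ht⟩
    refine ⟨pre X t, ht, ?_⟩
    intro i hi
    simp only [length_pre] at hi
    simp [List.getD, getElem?_pre_of_lt _ hi]
  · rintro ⟨σ, hR, h⟩
    refine ⟨σ.length, ?_⟩
    have : σ = pre X σ.length := by
      rw [eq_pre_iff]
      intro i hi
      rw [h i hi]
      simp [hi]
    rw [← this]
    exact hR

/-- index obtained by the s-m-n theorem -/
def qq (c : Code) (a : α) : ℕ := encode (Code.curry c (encode a))

lemma primrec_qq : Primrec₂ (qq : Code → α → ℕ) := by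
  unfold qq
  exact (Primrec.encode.comp (Code.primrec₂_curry.comp Primrec.fst
    (Primrec.encode.comp Primrec.snd))).to₂

lemma ofNat_qq (c : Code) (a : α) : ofNat Code (qq c a) = Code.curry c (encode a) := by
  unfold qq; simp

lemma jump_qq {X : ℕ → Bool} {c : Code} {a : α} :
    jump X (qq c a) = true ↔
      ∃ t : ℕ, (Code.eval c (Nat.pair (encode a) (encode (pre X t)))).Dom := by
  rw [jump_eq_true]
  simp [ofNat_qq, Code.eval_curry]

/-- The s-m-n theorem for `Sig`. -/
lemma sig_smn {S : (ℕ → Bool) → α → Prop} (hS : Sig D S) :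
    ∃ c : Code, ∀ X ∈ D, ∀ a, S X a ↔ jump X (qq c a) = true := by
  obtain ⟨R, h1, h2, h3⟩ := hS
  have hre : REPred fun q : α × List Bool => R q := h1.computablePred.to_re
  unfold REPred Partrec at hre
  obtain ⟨c, hc⟩ := Code.exists_code.1 hre
  refine ⟨c, fun X hX a => ?_⟩
  rw [h3 X hX, jump_qq]
  apply exists_congr
  intro t
  have h4 : Nat.pair (encode a) (encode (pre X t)) = encode (a, pre X t) := rfl
  rw [h4, hc]
  simp [Part.assert]

/-- The recursion theorem for `Sig`. -/
lemma sig_fix {S : (ℕ → Bool) → Code × α → Prop} (hS : Sig D S) :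
    ∃ c : Code, ∀ X ∈ D, ∀ a, S X (c, a) ↔ jump X (qq c a) = true := by
  obtain ⟨R, h1, h2, h3⟩ := hS
  have hre : REPred fun q : (Code × α) × List Bool => R q := h1.computablePred.to_re
  unfold REPred Partrec at hre
  obtain ⟨d, hd⟩ := Code.exists_code.1 hre
  -- f c (pair (encode a) (encode σ)) = eval d (pair (pair (encode c) (encode a)) (encode σ))
  obtain ⟨c, hc⟩ := Code.fixed_point₂ (f := fun c n =>
    Code.eval d (Nat.pair (Nat.pair (encode c) n.unpair.1) n.unpair.2)) (by
      apply Code.eval_part.comp (Computable.const d)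
      refine Primrec.to_comp ?_
      exact Primrec₂.natPair.comp (Primrec₂.natPair.comp (Primrec.encode.comp Primrec.fst)
        (Primrec.fst.comp (Primrec.unpair.comp Primrec.snd)))
        (Primrec.snd.comp (Primrec.unpair.comp Primrec.snd)))
  refine ⟨c, fun X hX a => ?_⟩
  rw [h3 X hX, jump_qq]
  apply exists_congr
  intro t
  rw [hc]
  have h4 : Nat.pair (Nat.pair (encode c) (encode a)) (encode (pre X t))
      = encode ((c, a), pre X t) := rfl
  simp only [Nat.unpair_pair]
  rw [h4, hd]
  simp [Part.assert]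

/-- index-uniformity: the relation `jump X (qq c a)` is `Sig` jointly in `(c,a)`. -/
lemma sig_qq : Sig D (fun X (q : Code × α) => jump X (qq q.1 q.2) = true) :=
  jump_sig.comp (f := fun q : Code × α => qq q.1 q.2) primrec_qq

end

section
variable (r : ℕ → ℕ → Prop) [IsWellFounded ℕ r] (X : ℕ → Bool)

lemma iterJump_eq (m n : ℕ) : iterJump r X m n =
    open Classical in
    if n % 2 = 0 then X (n / 2)
    else if r (n / 2).unpair.1 m then jump (iterJump r X (n / 2).unpair.1) (n / 2).unpair.2
    else false := by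
  rw [iterJump, IsWellFounded.fix_eq]
  split_ifs <;> rfl

/-- even position -/
def ev (j : ℕ) : ℕ := 2 * j
/-- odd position -/
def od (k e : ℕ) : ℕ := 2 * Nat.pair k e + 1

lemma primrec_ev : Primrec ev := Primrec.nat_mul.comp (Primrec.const 2) Primrec.id

lemma primrec_od : Primrec₂ od :=
  (Primrec.nat_add.comp (Primrec.nat_mul.comp (Primrec.const 2) (Primrec₂.natPair.comp
    Primrec.fst Primrec.snd)) (Primrec.const 1)).to₂

@[simp] lemma iterJump_ev (m j : ℕ) : iterJump r X m (ev j) = X j := by
  rw [iterJump_eq]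
  have h1 : ev j % 2 = 0 := by unfold ev; omega
  have h2 : ev j / 2 = j := by unfold ev; omega
  simp [h1, h2]

lemma iterJump_od (m k e : ℕ) (h : r k m) :
    iterJump r X m (od k e) = jump (iterJump r X k) e := by
  rw [iterJump_eq]
  have h1 : ¬ od k e % 2 = 0 := by unfold od; omega
  have h2 : od k e / 2 = Nat.pair k e := by unfold od; omega
  rw [if_neg h1, h2, Nat.unpair_pair]
  simp [h]

lemma iterJump_od_not (m k e : ℕ) (h : ¬ r k m) :
    iterJump r X m (od k e) = false := by
  rw [iterJump_eq]
  have h1 : ¬ od k e % 2 = 0 := by unfold od; omega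
  have h2 : od k e / 2 = Nat.pair k e := by unfold od; omega
  rw [if_neg h1, h2, Nat.unpair_pair]
  simp [h]

lemma ev_or_od (n : ℕ) : (∃ j, n = ev j) ∨ (∃ k e, n = od k e) := by
  rcases Nat.even_or_odd' n with ⟨c, h | h⟩
  · exact Or.inl ⟨c, h⟩
  · refine Or.inr ⟨c.unpair.1, c.unpair.2, ?_⟩
    unfold od
    rw [Nat.pair_unpair]
    exact h

end

end JumpDeg
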