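import Mathlib
import Pool.Agent.JumpDeg.Jump

/-!
The forcing relation for iterated jumps, obtained from the recursion theorem, and the
truth lemma for sufficiently generic oracles.
-/

namespace JumpDeg

open Encodable Denumerable
open Nat.Partrec (Code)

lemma prim_prefix : PrimrecRel (fun (σ τ : List Bool) => σ <+: τ) := by
  have h : PrimrecPred fun q : List Bool × List Bool => q.2.take q.1.length = q.1 :=
    Primrec.eq.comp (Primrec.list_take.comp (Primrec.list_length.comp Primrec.fst) Primrec.snd)
      Primrec.fst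
  refine PrimrecPred.of_eq h ?_
  rintro ⟨σ, τ⟩
  show List.take σ.length τ = σ ↔ σ <+: τ
  rw [List.prefix_iff_eq_take]
  exact eq_comm

/-- `V` is the base relation: `V Y ((j, b), σ)` says that `σ` forces the `j`-th bit of the base
oracle to be `b`. -/
def Frc (V : (ℕ → Bool) → (ℕ × Bool) × List Bool → Prop) (c : Code) (Y : ℕ → Bool)
    (n : ℕ) (b : Bool) (σ : List Bool) : Prop :=
  if n % 2 = 0 then V Y ((n / 2, b), σ)
  else Y (od (n / 2).unpair.1 (qq c (b, (n / 2).unpair.2, σ))) = b

/-- The functional of which the forcing relation is a fixed point. -/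
def FF (V : (ℕ → Bool) → (ℕ × Bool) × List Bool → Prop) (Y : ℕ → Bool)
    (q : Code × (Bool × ℕ × List Bool)) : Prop :=
  ∃ σ' : List Bool, (q.2.2.2 <+: σ' ∧ (q.2.1 = true → σ' = q.2.2.2)) ∧
    ∃ ρ : List Bool, (Code.eval (ofNat Code q.2.2.1) (encode ρ)).Dom ∧
      ∀ j < ρ.length, Frc V q.1 Y j (ρ.getD j false) σ'

section
variable {D : Set (ℕ → Bool)} {V : (ℕ → Bool) → (ℕ × Bool) × List Bool → Prop}

lemma sig_Frc (hV : Sig D V) :
    Sig D (fun Y (q : Code × ℕ × Bool × List Bool) => Frc V q.1 Y q.2.1 q.2.2.1 q.2.2.2) := by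
  have pn : Primrec (fun q : Code × ℕ × Bool × List Bool => q.2.1) :=
    Primrec.fst.comp Primrec.snd
  have pb : Primrec (fun q : Code × ℕ × Bool × List Bool => q.2.2.1) :=
    Primrec.fst.comp (Primrec.snd.comp Primrec.snd)
  have ps : Primrec (fun q : Code × ℕ × Bool × List Bool => q.2.2.2) :=
    Primrec.snd.comp (Primrec.snd.comp Primrec.snd)
  have ph : Primrec (fun q : Code × ℕ × Bool × List Bool => q.2.1 / 2) :=
    Primrec.nat_div.comp pn (Primrec.const 2)
  have pm : PrimrecPred (fun q : Code × ℕ × Bool × List Bool => q.2.1 % 2 = 0) :=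
    Primrec.eq.comp (Primrec.nat_mod.comp pn (Primrec.const 2)) (Primrec.const 0)
  have h1 : Sig D (fun Y (q : Code × ℕ × Bool × List Bool) =>
      V Y ((q.2.1 / 2, q.2.2.1), q.2.2.2)) :=
    hV.comp (f := fun q : Code × ℕ × Bool × List Bool => ((q.2.1 / 2, q.2.2.1), q.2.2.2))
      (Primrec.pair (Primrec.pair ph pb) ps)
  have h2 : Sig D (fun Y (q : Code × ℕ × Bool × List Bool) =>
      Y (od (q.2.1 / 2).unpair.1 (qq q.1 (q.2.2.1, (q.2.1 / 2).unpair.2, q.2.2.2)))
        = q.2.2.1) := by
    refine Sig.oracle ?_ pb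
    refine primrec_od.comp (Primrec.fst.comp (Primrec.unpair.comp ph)) ?_
    refine primrec_qq.comp Primrec.fst ?_
    exact Primrec.pair pb (Primrec.pair (Primrec.snd.comp (Primrec.unpair.comp ph)) ps)
  refine (((Sig.of_prim pm).and h1).or ((Sig.of_prim pm.not).and h2)).congr ?_
  intro Y _ q
  unfold Frc
  by_cases h : q.2.1 % 2 = 0
  · simp [h]
  · simp [h]

lemma sig_FF (hV : Sig D V) : Sig D (FF V) := by
  -- q = (c, b, e, σ)
  have hA : PrimrecPred (fun q : (Code × (Bool × ℕ × List Bool)) × List Bool =>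
      q.1.2.2.2 <+: q.2 ∧ (q.1.2.1 = true → q.2 = q.1.2.2.2)) := by
    have ps : Primrec (fun q : (Code × (Bool × ℕ × List Bool)) × List Bool => q.1.2.2.2) :=
      Primrec.snd.comp (Primrec.snd.comp (Primrec.snd.comp Primrec.fst))
    have pb : Primrec (fun q : (Code × (Bool × ℕ × List Bool)) × List Bool => q.1.2.1) :=
      Primrec.fst.comp (Primrec.snd.comp Primrec.fst)
    have h1 : PrimrecPred (fun q : (Code × (Bool × ℕ × List Bool)) × List Bool =>
        q.1.2.2.2 <+: q.2) := prim_prefix.comp ps Primrec.snd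
    have h2 : PrimrecPred (fun q : (Code × (Bool × ℕ × List Bool)) × List Bool =>
        ¬ (q.1.2.1 = true) ∨ q.2 = q.1.2.2.2) :=
      (Primrec.eq.comp pb (Primrec.const true)).not.or (Primrec.eq.comp Primrec.snd ps)
    refine (h1.and h2).of_eq ?_
    intro q
    rw [imp_iff_not_or]
  have hB : Sig D (fun Y (q : ((Code × (Bool × ℕ × List Bool)) × List Bool) × List Bool) =>
      (Code.eval (ofNat Code q.1.1.2.2.1) (encode q.2)).Dom) :=
    (sig_dom (D := D)).comp
      (f := fun q : ((Code × (Bool × ℕ × List Bool)) × List Bool) × List Bool =>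
        (q.1.1.2.2.1, q.2))
      (Primrec.pair (Primrec.fst.comp (Primrec.snd.comp (Primrec.snd.comp
        (Primrec.fst.comp Primrec.fst)))) Primrec.snd)
  have hC : Sig D (fun Y (q : (((Code × (Bool × ℕ × List Bool)) × List Bool) × List Bool) × ℕ) =>
      Frc V q.1.1.1.1 Y q.2 (q.1.2.getD q.2 false) q.1.1.2) :=
    (sig_Frc hV).comp
      (f := fun q : (((Code × (Bool × ℕ × List Bool)) × List Bool) × List Bool) × ℕ =>
        (q.1.1.1.1, q.2, q.1.2.getD q.2 false, q.1.1.2))
      (Primrec.pair (Primrec.fst.comp (Primrec.fst.comp (Primrec.fst.comp Primrec.fst)))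
        (Primrec.pair Primrec.snd (Primrec.pair
          ((Primrec.list_getD false).comp (Primrec.snd.comp Primrec.fst) Primrec.snd)
          (Primrec.snd.comp (Primrec.fst.comp Primrec.fst)))))
  have hD := hC.ball
    (f := fun q : ((Code × (Bool × ℕ × List Bool)) × List Bool) × List Bool => q.2.length)
    (Primrec.list_length.comp Primrec.snd)
  have hE := (hB.and hD).ex
  exact ((Sig.of_prim hA).and hE).ex

/-- existence of the self-referential index -/
lemma exists_forcing_index (hV : Sig D V) :
    ∃ c : Code, ∀ Y ∈ D, ∀ (b : Bool) (e : ℕ) (σ : List Bool),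
      jump Y (qq c (b, e, σ)) = true ↔
        ∃ σ' : List Bool, (σ <+: σ' ∧ (b = true → σ' = σ)) ∧
          ∃ ρ : List Bool, (Code.eval (ofNat Code e) (encode ρ)).Dom ∧
            ∀ j < ρ.length, Frc V c Y j (ρ.getD j false) σ' := by
  obtain ⟨c, hc⟩ := sig_fix (sig_FF hV)
  refine ⟨c, fun Y hY b e σ => ?_⟩
  rw [← hc Y hY]
  rfl

end

/-- `X` meets or avoids every set of strings semi-decidable in `Y`. -/
def Generic (Y X : ℕ → Bool) : Prop :=
  ∀ S : (ℕ → Bool) → List Bool → Prop, Sig {Y} S →
    (∃ t, S Y (pre X t)) ∨ (∃ t, ∀ ρ, pre X t <+: ρ → ¬ S Y ρ)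

section Truth

variable (r : ℕ → ℕ → Prop) [IsWellFounded ℕ r] (Z : ℕ → Bool)
variable {D : Set (ℕ → Bool)} {V : (ℕ → Bool) → (ℕ × Bool) × List Bool → Prop}

/-- monotonicity of forcing -/
lemma frc_mono (hD : ∀ k, iterJump r Z k ∈ D)
    (hVm : ∀ Y ∈ D, ∀ q σ τ, σ <+: τ → V Y (q, σ) → V Y (q, τ))
    {c : Code} (hc : ∀ Y ∈ D, ∀ (b : Bool) (e : ℕ) (σ : List Bool),
      jump Y (qq c (b, e, σ)) = true ↔
        ∃ σ' : List Bool, (σ <+: σ' ∧ (b = true → σ' = σ)) ∧
          ∃ ρ : List Bool, (Code.eval (ofNat Code e) (encode ρ)).Dom ∧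
            ∀ j < ρ.length, Frc V c Y j (ρ.getD j false) σ') (k : ℕ) :
    ∀ n b σ τ, σ <+: τ → Frc V c (iterJump r Z k) n b σ → Frc V c (iterJump r Z k) n b τ := by
  induction k using IsWellFounded.induction r with
  | ind k ih =>
  intro n b σ τ hστ h
  rcases ev_or_od n with ⟨j, rfl⟩ | ⟨k', e, rfl⟩
  · have h1 : ev j % 2 = 0 := by unfold ev; omega
    unfold Frc at h ⊢
    rw [if_pos h1] at h ⊢
    exact hVm _ (hD k) _ _ _ hστ h
  · have h1 : ¬ od k' e % 2 = 0 := by unfold od; omega
    have h2 : od k' e / 2 = Nat.pair k' e := by unfold od; omega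
    unfold Frc at h ⊢
    rw [if_neg h1, h2, Nat.unpair_pair] at h ⊢
    simp only at h ⊢
    by_cases hk : r k' k
    · rw [iterJump_od r Z k k' _ hk] at h ⊢
      cases b with
      | true =>
        rw [hc _ (hD k')] at h ⊢
        obtain ⟨σ', ⟨_, h4⟩, ρ, hρ, h5⟩ := h
        have h4' := h4 rfl
        subst h4'
        exact ⟨τ, ⟨List.prefix_refl _, fun _ => rfl⟩, ρ, hρ,
          fun j hj => ih k' hk _ _ _ _ hστ (h5 j hj)⟩
      | false =>
        by_contra hcon
        rw [Bool.not_eq_false, hc _ (hD k')] at hcon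
        obtain ⟨σ', ⟨h3, _⟩, ρ, hρ, h5⟩ := hcon
        have : jump (iterJump r Z k') (qq c (false, e, σ)) = true := by
          rw [hc _ (hD k')]
          exact ⟨σ', ⟨hστ.trans h3, fun hf => by cases hf⟩, ρ, hρ, h5⟩
        rw [h] at this
        cases this
    · rw [iterJump_od_not r Z k k' _ hk] at h ⊢
      exact h

/-- truth = forcing, for oracles generic at all lower levels -/
lemma frc_truth (hD : ∀ k, iterJump r Z k ∈ D)
    (hVm : ∀ Y ∈ D, ∀ q σ τ, σ <+: τ → V Y (q, σ) → V Y (q, τ))
    {c : Code} (hc : ∀ Y ∈ D, ∀ (b : Bool) (e : ℕ) (σ : List Bool),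
      jump Y (qq c (b, e, σ)) = true ↔
        ∃ σ' : List Bool, (σ <+: σ' ∧ (b = true → σ' = σ)) ∧
          ∃ ρ : List Bool, (Code.eval (ofNat Code e) (encode ρ)).Dom ∧
            ∀ j < ρ.length, Frc V c Y j (ρ.getD j false) σ')
    (X B : ℕ → Bool)
    (hB : ∀ k j b, B j = b ↔ ∃ t, V (iterJump r Z k) ((j, b), pre X t)) (k : ℕ)
    (hgen : ∀ k', Relation.TransGen r k' k → ∀ e : ℕ,
      (∃ t, jump (iterJump r Z k') (qq c (true, e, pre X t)) = true) ∨
      (∃ t, ∀ ρ, pre X t <+: ρ → ¬ jump (iterJump r Z k') (qq c (true, e, ρ)) = true)) :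
    ∀ n b, iterJump r B k n = b ↔ ∃ t, Frc V c (iterJump r Z k) n b (pre X t) := by
  induction k using IsWellFounded.induction r with
  | ind k ih =>
  intro n b
  rcases ev_or_od n with ⟨j, rfl⟩ | ⟨k', e, rfl⟩
  · have h1 : ev j % 2 = 0 := by unfold ev; omega
    have h2 : ev j / 2 = j := by unfold ev; omega
    unfold Frc
    simp only [if_pos h1, h2, iterJump_ev]
    exact hB k j b
  · have h1 : ¬ od k' e % 2 = 0 := by unfold od; omega
    have h2 : od k' e / 2 = Nat.pair k' e := by unfold od; omega
    unfold Frc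
    simp only [if_neg h1, h2, Nat.unpair_pair]
    by_cases hk : r k' k
    · simp only [iterJump_od r _ k k' _ hk]
      have ih' := ih k' hk (fun k'' h'' => hgen k'' (h''.trans (.single hk)))
      -- the true case
      have htrue : jump (iterJump r B k') e = true ↔
          ∃ t, jump (iterJump r Z k') (qq c (true, e, pre X t)) = true := by
        rw [jump_eq_true]
        constructor
        · rintro ⟨s, hs⟩
          have key : ∀ m ≤ s, ∃ t, ∀ j < m, Frc V c (iterJump r Z k') j
              ((pre (iterJump r B k') s).getD j false) (pre X t) := by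
            intro m
            induction m with
            | zero => exact fun _ => ⟨0, fun j hj => by omega⟩
            | succ m ihm =>
              intro hm
              obtain ⟨t, ht⟩ := ihm (by omega)
              obtain ⟨t', ht'⟩ := (ih' m ((pre (iterJump r B k') s).getD m false)).1 (by
                simp [List.getD, getElem?_pre_of_lt _ (show m < s by omega)])
              refine ⟨max t t', fun j hj => ?_⟩
              rcases Nat.lt_succ_iff_lt_or_eq.1 hj with hj | rfl
              · exact frc_mono r Z hD hVm hc k' _ _ _ _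
                  (pre_prefix_pre X (le_max_left _ _)) (ht j hj)
              · exact frc_mono r Z hD hVm hc k' _ _ _ _
                  (pre_prefix_pre X (le_max_right _ _)) ht'
          obtain ⟨t, ht⟩ := key s le_rfl
          refine ⟨t, ?_⟩
          rw [hc _ (hD k')]
          refine ⟨pre X t, ⟨List.prefix_refl _, fun _ => rfl⟩, pre (iterJump r B k') s, hs, ?_⟩
          intro j hj
          rw [length_pre] at hj
          exact ht j hj
        · rintro ⟨t, ht⟩
          rw [hc _ (hD k')] at ht
          obtain ⟨σ', ⟨_, h4⟩, ρ, hρ, h5⟩ := ht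
          have h4' := h4 rfl
          subst h4'
          refine ⟨ρ.length, ?_⟩
          have : ρ = pre (iterJump r B k') ρ.length := by
            rw [eq_pre_iff]
            intro i hi
            have := (ih' i (ρ.getD i false)).2 ⟨t, h5 i hi⟩
            rw [this]
            simp [hi]
          rw [← this]
          exact hρ
      cases b with
      | true => exact htrue
      | false =>
        constructor
        · intro hf
          rcases hgen k' (.single hk) e with h | ⟨t, ht⟩
          · rw [← htrue, hf] at h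
            cases h
          · refine ⟨t, ?_⟩
            by_contra hcon
            rw [Bool.not_eq_false, hc _ (hD k')] at hcon
            obtain ⟨σ', ⟨h3, _⟩, ρ, hρ, h5⟩ := hcon
            apply ht σ' h3
            rw [hc _ (hD k')]
            exact ⟨σ', ⟨List.prefix_refl _, fun _ => rfl⟩, ρ, hρ, h5⟩
        · rintro ⟨t, ht⟩
          by_contra hcon
          rw [Bool.not_eq_false, htrue] at hcon
          obtain ⟨t', ht'⟩ := hcon
          rw [hc _ (hD k')] at ht'
          obtain ⟨σ', ⟨_, h4⟩, ρ, hρ, h5⟩ := ht'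
          have h4' := h4 rfl
          subst h4'
          have : jump (iterJump r Z k') (qq c (false, e, pre X t)) = true := by
            rw [hc _ (hD k')]
            refine ⟨pre X (max t t'), ⟨pre_prefix_pre X (le_max_left _ _),
              fun hf => by cases hf⟩, ρ, hρ, fun j hj => ?_⟩
            exact frc_mono r Z hD hVm hc k' _ _ _ _
                  (pre_prefix_pre X (le_max_right _ _)) (h5 j hj)
          rw [ht] at this
          cases this
    · simp only [iterJump_od_not r _ k k' _ hk]
      constructor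
      · rintro rfl
        exact ⟨0, rfl⟩
      · rintro ⟨t, ht⟩
        exact ht

end Truth

end JumpDeg
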