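import Mathlib
import Pool.Agent.JumpDeg.Forcing

/-!
Relative computability of oracles in terms of `Sig`, joins, and the localisation lemma.
-/

namespace JumpDeg

open Encodable Denumerable
open Nat.Partrec (Code)

/-- `A` is computable relative to `B`. -/
def Red (A B : ℕ → Bool) : Prop := Sig {B} (fun _ (p : ℕ × Bool) => A p.1 = p.2)

/-- The join of two oracles. -/
def join (X Y : ℕ → Bool) : ℕ → Bool := fun n => if n % 2 = 0 then X (n / 2) else Y (n / 2)

lemma join_even (X Y : ℕ → Bool) (n : ℕ) : join X Y (2 * n) = X n := by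
  unfold join
  rw [if_pos (by omega)]
  congr 1
  omega

lemma join_odd (X Y : ℕ → Bool) (n : ℕ) : join X Y (2 * n + 1) = Y n := by
  unfold join
  rw [if_neg (by omega)]
  congr 1
  omega

section
variable {α β : Type*} [Primcodable α] [Primcodable β]

lemma Red.sig {A B : ℕ → Bool} (h : Red A B) {S : (ℕ → Bool) → α → Prop} (hS : Sig {A} S) :
    Sig {B} (fun _ a => S A a) :=
  hS.subst (D := {B}) (G := fun _ => A) h (fun _ _ => rfl)

lemma Red.refl (A : ℕ → Bool) : Red A A := by
  have h : Sig {A} (fun X (p : ℕ × Bool) => X p.1 = p.2) := Sig.oracle Primrec.fst Primrec.snd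
  exact h.congr (by rintro X rfl a; rfl)

lemma Red.trans {A B C : ℕ → Bool} (h : Red A B) (h' : Red B C) : Red A C :=
  h'.sig h

lemma sig_single {A : ℕ → Bool} {S : (ℕ → Bool) → α → Prop} (h : Sig {A} S) :
    Sig {A} (fun _ a => S A a) := h.congr (by rintro X rfl a; rfl)

lemma sig_single' {A : ℕ → Bool} {S : (ℕ → Bool) → α → Prop} (h : Sig {A} (fun _ a => S A a)) :
    Sig {A} S := h.congr (by rintro X rfl a; rfl)

lemma Red.of_comp {A B : ℕ → Bool} {f : ℕ → ℕ} (hf : Primrec f) (h : ∀ n, A n = B (f n)) :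
    Red A B := by
  have : Sig {B} (fun X (p : ℕ × Bool) => X (f p.1) = p.2) :=
    Sig.oracle (hf.comp Primrec.fst) Primrec.snd
  exact this.congr (by rintro X rfl a; rw [h])

lemma red_join_left (X Y : ℕ → Bool) : Red X (join X Y) :=
  Red.of_comp (f := fun n => 2 * n) (Primrec.nat_mul.comp (Primrec.const 2) Primrec.id)
    (fun n => (join_even X Y n).symm)

lemma red_join_right (X Y : ℕ → Bool) : Red Y (join X Y) :=
  Red.of_comp (f := fun n => 2 * n + 1) (Primrec.succ.comp
    (Primrec.nat_mul.comp (Primrec.const 2) Primrec.id)) (fun n => (join_odd X Y n).symm)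

lemma Red.join {X Y C : ℕ → Bool} (hX : Red X C) (hY : Red Y C) : Red (join X Y) C := by
  unfold Red at *
  have pm : PrimrecPred (fun p : ℕ × Bool => p.1 % 2 = 0) :=
    Primrec.eq.comp (Primrec.nat_mod.comp Primrec.fst (Primrec.const 2)) (Primrec.const 0)
  have ph : Primrec (fun p : ℕ × Bool => (p.1 / 2, p.2)) :=
    Primrec.pair (Primrec.nat_div.comp Primrec.fst (Primrec.const 2)) Primrec.snd
  refine (((Sig.of_prim pm).and (hX.comp ph)).or ((Sig.of_prim pm.not).and (hY.comp ph))).congr ?_
  rintro W _ ⟨n, b⟩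
  unfold JumpDeg.join
  by_cases h : n % 2 = 0
  · simp [h]
  · simp [h]

/-- existential quantification over initial segments of a computable-in-`B` set -/
lemma sig_pre {A B : ℕ → Bool} (h : Red A B) {T : (ℕ → Bool) → α × List Bool → Prop}
    (hT : Sig {B} T) : Sig {B} (fun Y a => ∃ t, T Y (a, pre A t)) := by
  have h1 : Sig {B} (fun _ (q : (α × List Bool) × ℕ) => A q.2 = q.1.2.getD q.2 false) :=
    Sig.comp (S := fun _ (p : ℕ × Bool) => A p.1 = p.2) h
      (f := fun q : (α × List Bool) × ℕ => (q.2, q.1.2.getD q.2 false))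
      (Primrec.pair Primrec.snd ((Primrec.list_getD false).comp
        (Primrec.snd.comp Primrec.fst) Primrec.snd))
  have h2 := h1.ball (f := fun q : α × List Bool => q.2.length)
    (Primrec.list_length.comp Primrec.snd)
  refine (hT.and h2).ex.congr ?_
  intro X hX a
  constructor
  · rintro ⟨t, ht⟩
    refine ⟨pre A t, ht, ?_⟩
    intro i hi
    simp only [length_pre] at hi
    simp [List.getD, getElem?_pre_of_lt _ hi]
  · rintro ⟨σ, hR, h⟩
    refine ⟨σ.length, ?_⟩
    have : σ = pre A σ.length := by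
      rw [eq_pre_iff]
      intro i hi
      rw [h i hi]
      simp [hi]
    rw [← this]
    exact hR

/-- Localisation: a `Sig` property of `X ⊕ Y` depends on a finite part of `X` through a relation
that is `Sig` in `Y`. -/
lemma sig_loc {S : (ℕ → Bool) → α → Prop} (hS : Sig Set.univ S) :
    ∃ L : (ℕ → Bool) → α × List Bool → Prop, Sig Set.univ L ∧
      (∀ Y a σ τ, σ <+: τ → L Y (a, σ) → L Y (a, τ)) ∧
      ∀ X Y a, S (join X Y) a ↔ ∃ t, L Y (a, pre X t) := by
  obtain ⟨R, h1, h2, h3⟩ := hS
  refine ⟨fun Y q => ∃ ρ : List Bool, R (q.1, ρ) ∧ ∀ i < ρ.length,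
    (i % 2 = 0 ∧ q.2[i / 2]? = ρ[i]?) ∨ (¬ i % 2 = 0 ∧ Y (i / 2) = ρ.getD i false), ?_, ?_, ?_⟩
  · have hA : PrimrecPred (fun q : (α × List Bool) × List Bool => R (q.1.1, q.2)) :=
      h1.comp (Primrec.pair (Primrec.fst.comp Primrec.fst) Primrec.snd)
    have hp : PrimrecPred (fun q : ((α × List Bool) × List Bool) × ℕ => q.2 % 2 = 0) :=
      Primrec.eq.comp (Primrec.nat_mod.comp Primrec.snd (Primrec.const 2)) (Primrec.const 0)
    have hh : Primrec (fun q : ((α × List Bool) × List Bool) × ℕ => q.2 / 2) :=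
      Primrec.nat_div.comp Primrec.snd (Primrec.const 2)
    have hB : PrimrecPred (fun q : ((α × List Bool) × List Bool) × ℕ =>
        q.1.1.2[q.2 / 2]? = q.1.2[q.2]?) :=
      Primrec.eq.comp (Primrec.list_getElem?.comp
          (Primrec.snd.comp (Primrec.fst.comp Primrec.fst)) hh)
        (Primrec.list_getElem?.comp (Primrec.snd.comp Primrec.fst) Primrec.snd)
    have hC : Sig Set.univ (fun Y (q : ((α × List Bool) × List Bool) × ℕ) =>
        Y (q.2 / 2) = q.1.2.getD q.2 false) :=
      Sig.oracle hh ((Primrec.list_getD false).comp (Primrec.snd.comp Primrec.fst) Primrec.snd)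
    have hE := ((Sig.of_prim (D := Set.univ) (hp.and hB)).or ((Sig.of_prim hp.not).and hC)).ball
      (f := fun q : (α × List Bool) × List Bool => q.2.length)
      (Primrec.list_length.comp Primrec.snd)
    exact ((Sig.of_prim hA).and hE).ex
  · rintro Y a σ τ h ⟨ρ, hρ, hh⟩
    refine ⟨ρ, hρ, fun i hi => ?_⟩
    rcases hh i hi with ⟨h4, h5⟩ | h5
    · refine Or.inl ⟨h4, ?_⟩
      simp only at h5 ⊢
      have h6 : ρ[i]? = some ρ[i] := by simp [hi]
      rw [h6] at h5 ⊢
      exact prefix_iff_getElem?.1 h _ _ h5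
    · exact Or.inr h5
  · intro X Y a
    rw [h3 _ (Set.mem_univ _)]
    constructor
    · rintro ⟨t, ht⟩
      refine ⟨t, pre (join X Y) t, ht, fun i hi => ?_⟩
      rw [length_pre] at hi
      rw [getElem?_pre_of_lt _ hi, List.getD, getElem?_pre_of_lt _ hi]
      by_cases h : i % 2 = 0
      · refine Or.inl ⟨h, ?_⟩
        simp only
        rw [getElem?_pre_of_lt _ (show i / 2 < t by omega)]
        simp [JumpDeg.join, h]
      · refine Or.inr ⟨h, ?_⟩
        simp [JumpDeg.join, h]
    · rintro ⟨t, ρ, hρ, hh⟩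
      refine ⟨ρ.length, ?_⟩
      have : ρ = pre (JumpDeg.join X Y) ρ.length := by
        rw [eq_pre_iff]
        intro i hi
        rcases hh i hi with ⟨h4, h5⟩ | ⟨h4, h5⟩
        · simp only at h5
          rw [getElem?_pre] at h5
          split_ifs at h5 with hlt
          · simp [JumpDeg.join, h4]
            simpa [hi] using h5.symm
          · simp [hi] at h5
        · simp only [JumpDeg.join, if_neg h4, h5]
          simp [hi]
      rw [← this]
      exact hρ

end

section
variable (r : ℕ → ℕ → Prop) [IsWellFounded ℕ r]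

/-- The base oracle is computable from every iterated jump. -/
lemma red_base (X : ℕ → Bool) (m : ℕ) : Red X (iterJump r X m) :=
  Red.of_comp primrec_ev (fun n => (iterJump_ev r X m n).symm)

/-- a lower iterated jump (and its jump) is computable from a higher one -/
lemma red_jump_lower (X : ℕ → Bool) {k m : ℕ} (h : r k m) :
    Red (jump (iterJump r X k)) (iterJump r X m) :=
  Red.of_comp (f := fun e => od k e) (primrec_od.comp (Primrec.const k) Primrec.id)
    (fun n => (iterJump_od r X m k n h).symm)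

/-- every oracle is computable from its jump -/
lemma red_jump (X : ℕ → Bool) : Red X (jump X) := by
  have h : Sig {X} (fun X (p : ℕ × Bool) => X p.1 = p.2) := Sig.oracle Primrec.fst Primrec.snd
  obtain ⟨c, hc⟩ := sig_smn h
  have h2 : Sig {jump X} (fun W (p : ℕ × Bool) => W (qq c p) = true) :=
    Sig.oracle (primrec_qq.comp (Primrec.const c) Primrec.id) (Primrec.const true)
  refine h2.congr ?_
  rintro W rfl p
  exact hc X rfl p

lemma red_lower (X : ℕ → Bool) {k m : ℕ} (h : r k m) :
    Red (iterJump r X k) (iterJump r X m) :=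
  (red_jump _).trans (red_jump_lower r X h)

end

end JumpDeg
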