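import Mathlib
import Pool.Agent.JumpDeg.Red

/-!
Iterated jumps are monotone for relative computability, and iterated jumps of functionals of
generic oracles are computable from the generic and the iterated jump of the ground.
-/

namespace JumpDeg

open Encodable Denumerable
open Nat.Partrec (Code)

section
variable (r : ℕ → ℕ → Prop) [IsWellFounded ℕ r]

/-- monotonicity of iterated jumps -/
theorem red_iterJump {B C : ℕ → Bool} (h : Red B C) (m : ℕ) :
    Red (iterJump r B m) (iterJump r C m) := by
  set D : Set (ℕ → Bool) := {Y | ∃ k, Y = iterJump r C k} with hD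
  -- the base relation
  have hV : Sig D (fun _ (p : ℕ × Bool) => B p.1 = p.2) := by
    obtain ⟨R, h1, h2, h3⟩ := h
    have h' : Sig {C} (fun X (p : ℕ × Bool) => ∃ t, R (p, pre X t)) :=
      ⟨R, h1, h2, fun X _ a => Iff.rfl⟩
    have h4 : Sig D (fun X (p : ℕ × Bool) => ∃ t, R (p, pre (fun n => X (ev n)) t)) := by
      refine h'.subst (D := D) (G := fun X n => X (ev n)) ?_ ?_
      · exact Sig.oracle (primrec_ev.comp Primrec.fst) Primrec.snd
      · rintro X ⟨k, rfl⟩
        funext n
        exact iterJump_ev r C k n
    refine h4.congr ?_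
    rintro X ⟨k, rfl⟩ a
    have h5 : (fun n => iterJump r C k (ev n)) = C := by
      funext n
      exact iterJump_ev r C k n
    rw [h5]
    exact h3 C rfl a
  -- one bit of the target, read off from the source
  let Q : (ℕ → Bool) → Code × ℕ × Bool → Prop := fun Y q =>
    (q.2.1 % 2 = 0 ∧ B (q.2.1 / 2) = q.2.2) ∨
      (¬ q.2.1 % 2 = 0 ∧ Y (od (q.2.1 / 2).unpair.1 (qq q.1 (q.2.1 / 2).unpair.2)) = q.2.2)
  have pn : Primrec (fun q : Code × ℕ × Bool => q.2.1) := Primrec.fst.comp Primrec.snd
  have pb : Primrec (fun q : Code × ℕ × Bool => q.2.2) := Primrec.snd.comp Primrec.snd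
  have ph : Primrec (fun q : Code × ℕ × Bool => q.2.1 / 2) :=
    Primrec.nat_div.comp pn (Primrec.const 2)
  have pm : PrimrecPred (fun q : Code × ℕ × Bool => q.2.1 % 2 = 0) :=
    Primrec.eq.comp (Primrec.nat_mod.comp pn (Primrec.const 2)) (Primrec.const 0)
  have hQ : Sig D Q := by
    refine Sig.or ((Sig.of_prim pm).and ?_) ((Sig.of_prim pm.not).and ?_)
    · exact hV.comp (f := fun q : Code × ℕ × Bool => (q.2.1 / 2, q.2.2)) (Primrec.pair ph pb)
    · refine Sig.oracle ?_ pb
      refine primrec_od.comp (Primrec.fst.comp (Primrec.unpair.comp ph)) ?_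
      exact primrec_qq.comp Primrec.fst (Primrec.snd.comp (Primrec.unpair.comp ph))
  -- the functional
  have hF : Sig D (fun Y (q : Code × ℕ) => ∃ ρ : List Bool,
      (Code.eval (ofNat Code q.2) (encode ρ)).Dom ∧
        ∀ j < ρ.length, Q Y (q.1, j, ρ.getD j false)) := by
    have hB : Sig D (fun _ (q : (Code × ℕ) × List Bool) =>
        (Code.eval (ofNat Code q.1.2) (encode q.2)).Dom) :=
      (sig_dom (D := D)).comp (f := fun q : (Code × ℕ) × List Bool => (q.1.2, q.2))
        (Primrec.pair (Primrec.snd.comp Primrec.fst) Primrec.snd)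
    have hC : Sig D (fun Y (q : ((Code × ℕ) × List Bool) × ℕ) =>
        Q Y (q.1.1.1, q.2, q.1.2.getD q.2 false)) :=
      hQ.comp (f := fun q : ((Code × ℕ) × List Bool) × ℕ =>
          (q.1.1.1, q.2, q.1.2.getD q.2 false))
        (Primrec.pair (Primrec.fst.comp (Primrec.fst.comp Primrec.fst))
          (Primrec.pair Primrec.snd ((Primrec.list_getD false).comp
            (Primrec.snd.comp Primrec.fst) Primrec.snd)))
    exact (hB.and (hC.ball (f := fun q : (Code × ℕ) × List Bool => q.2.length)
      (Primrec.list_length.comp Primrec.snd))).ex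
  obtain ⟨c, hc⟩ := sig_fix hF
  -- correctness
  have key : ∀ k, ∀ n b, iterJump r B k n = b ↔ Q (iterJump r C k) (c, n, b) := by
    intro k
    induction k using IsWellFounded.induction r with
    | ind k ih =>
    intro n b
    rcases ev_or_od n with ⟨j, rfl⟩ | ⟨k', e, rfl⟩
    · have h1 : ev j % 2 = 0 := by unfold ev; omega
      have h2 : ev j / 2 = j := by unfold ev; omega
      simp only [Q, h1, h2, iterJump_ev]
      simp
    · have h1 : ¬ od k' e % 2 = 0 := by unfold od; omega
      have h2 : od k' e / 2 = Nat.pair k' e := by unfold od; omega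
      simp only [Q, h2, Nat.unpair_pair]
      simp only [h1, false_and, not_false_eq_true, true_and, false_or]
      by_cases hk : r k' k
      · rw [iterJump_od r _ k k' _ hk, iterJump_od r _ k k' _ hk]
        have h3 : jump (iterJump r B k') e = jump (iterJump r C k') (qq c e) := by
          rw [Bool.eq_iff_iff, jump_eq_true, ← hc _ ⟨k', rfl⟩]
          constructor
          · rintro ⟨t, ht⟩
            refine ⟨pre (iterJump r B k') t, ht, fun j hj => ?_⟩
            rw [length_pre] at hj
            rw [List.getD, getElem?_pre_of_lt _ hj]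
            exact (ih k' hk j _).1 rfl
          · rintro ⟨ρ, hρ, hh⟩
            refine ⟨ρ.length, ?_⟩
            have : ρ = pre (iterJump r B k') ρ.length := by
              rw [eq_pre_iff]
              intro i hi
              rw [(ih k' hk i _).2 (hh i hi)]
              simp [hi]
            rw [← this]
            exact hρ
        rw [h3]
      · rw [iterJump_od_not r _ k k' _ hk, iterJump_od_not r _ k k' _ hk]
  have hfin : Sig {iterJump r C m} (fun Y (p : ℕ × Bool) => Q Y (c, p.1, p.2)) :=
    (hQ.comp (f := fun p : ℕ × Bool => (c, p.1, p.2)) (Primrec.pair (Primrec.const c)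
      (Primrec.pair Primrec.fst Primrec.snd))).mono (by rintro Y rfl; exact ⟨m, rfl⟩)
  refine hfin.congr ?_
  rintro Y rfl ⟨n, b⟩
  exact key m n b

/-- The iterated jump of (a functional of) a generic is computable from the generic and the
iterated jump of the ground oracle. -/
theorem red_iterJump_generic (Z : ℕ → Bool)
    {V : (ℕ → Bool) → (ℕ × Bool) × List Bool → Prop} (hV : Sig Set.univ V)
    (hVm : ∀ Y q σ τ, σ <+: τ → V Y (q, σ) → V Y (q, τ))
    (X B : ℕ → Bool)
    (hB : ∀ Y j b, B j = b ↔ ∃ t, V Y ((j, b), pre X t)) (k : ℕ)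
    (hgen : ∀ k', Relation.TransGen r k' k → Generic (iterJump r Z k') X) :
    Red (iterJump r B k) (join X (iterJump r Z k)) := by
  obtain ⟨c, hc⟩ := exists_forcing_index hV
  have htruth := frc_truth r Z (D := Set.univ) (V := V) (fun _ => Set.mem_univ _)
    (fun Y _ => hVm Y) hc X B (fun k j b => hB _ j b) k (by
      intro k' hk' e
      have h1 : Sig {iterJump r Z k'} (fun Y (σ : List Bool) =>
          jump Y (qq c (true, e, σ)) = true) :=
        jump_sig.comp (f := fun σ : List Bool => qq c (true, e, σ))
          (primrec_qq.comp (Primrec.const c) (Primrec.pair (Primrec.const true)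
            (Primrec.pair (Primrec.const e) Primrec.id)))
      exact hgen k' hk' _ h1)
  have h2 : Sig {join X (iterJump r Z k)} (fun _ (q : (ℕ × Bool) × List Bool) =>
      Frc V c (iterJump r Z k) q.1.1 q.1.2 q.2) := by
    have h3 : Sig {iterJump r Z k} (fun Y (q : (ℕ × Bool) × List Bool) =>
        Frc V c Y q.1.1 q.1.2 q.2) :=
      ((sig_Frc hV).comp (f := fun q : (ℕ × Bool) × List Bool => (c, q.1.1, q.1.2, q.2))
        (Primrec.pair (Primrec.const c) (Primrec.pair (Primrec.fst.comp Primrec.fst)
          (Primrec.pair (Primrec.snd.comp Primrec.fst) Primrec.snd)))).mono (Set.subset_univ _)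
    exact (red_join_right X (iterJump r Z k)).sig h3
  refine (sig_pre (red_join_left X (iterJump r Z k)) h2).congr ?_
  rintro W _ ⟨n, b⟩
  exact htruth n b

end

end JumpDeg
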