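import Mathlib
import Pool.Agent.JumpDeg.Mono

/-!
Choice and iteration relative to an oracle; construction of a generic oracle computable in an
iterated jump.
-/

namespace JumpDeg

open Encodable Denumerable
open Nat.Partrec (Code)

section
variable {α β : Type*} [Primcodable α] [Primcodable β]

/-- uniformisation -/
lemma sig_choice {W : ℕ → Bool} {T : (ℕ → Bool) → α × β → Prop} (hT : Sig {W} T)
    (htot : ∀ a, ∃ b, T W (a, b)) :
    ∃ f : α → β, (∀ a, T W (a, f a)) ∧ Sig {W} (fun _ (p : α × β) => f p.1 = p.2) := by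
  obtain ⟨R, h1, h2, h3⟩ := hT
  have h3' := h3 W rfl
  classical
  let P : α → ℕ → Prop := fun a n => ∃ q : β × ℕ, decode n = some q ∧ R ((a, q.1), pre W q.2)
  have hP : ∀ a, ∃ n, P a n := by
    intro a
    obtain ⟨b, hb⟩ := htot a
    obtain ⟨t, ht⟩ := (h3' _).1 hb
    exact ⟨encode (b, t), (b, t), encodek _, ht⟩
  have hN : ∀ a, ∃ q : β × ℕ, decode (Nat.find (hP a)) = some q ∧ R ((a, q.1), pre W q.2) :=
    fun a => Nat.find_spec (hP a)
  choose g hg1 hg2 using hN
  refine ⟨fun a => (g a).1, fun a => (h3' _).2 ⟨_, hg2 a⟩, ?_⟩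
  -- decidability of `P`
  have hPP : PrimrecPred (fun q : (α × ℕ) × List Bool => ∃ b : β × ℕ, decode q.1.2 = some b ∧
      R ((q.1.1, b.1), q.2.take b.2)) := by
    have h5 : PrimrecPred (fun q : (α × List Bool) × (β × ℕ) =>
        R ((q.1.1, q.2.1), q.1.2.take q.2.2)) :=
      h1.comp (Primrec.pair (Primrec.pair (Primrec.fst.comp Primrec.fst)
        (Primrec.fst.comp Primrec.snd)) (Primrec.list_take.comp (Primrec.snd.comp Primrec.snd)
          (Primrec.snd.comp Primrec.fst)))
    exact (prim_decode h5).comp (f := fun q : (α × ℕ) × List Bool => ((q.1.1, q.2), q.1.2))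
      (Primrec.pair (Primrec.pair (Primrec.fst.comp Primrec.fst) Primrec.snd)
        (Primrec.snd.comp Primrec.fst))
  have huse : ∀ (a : α) (n : ℕ), (∃ b : β × ℕ, decode n = some b ∧
      R ((a, b.1), (pre W n).take b.2)) ↔ P a n := by
    intro a n
    apply exists_congr
    intro b
    apply and_congr_right
    intro hb
    have hle : b.2 ≤ n := by
      have hmem : b ∈ (decode n : Option (β × ℕ)) := hb
      rw [decode_prod_val] at hmem
      simp only [Option.mem_def] at hmem
      rcases h6 : (decode n.unpair.1 : Option β) with _ | b1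
      · rw [h6] at hmem; simp at hmem
      · rw [h6] at hmem
        simp at hmem
        rw [← hmem]
        exact Nat.unpair_right_le n
    rw [take_pre, min_eq_left hle]
  have hneg : Sig {W} (fun _ (q : α × ℕ) => ¬ P q.1 q.2) := by
    have := Sig.bounded (D := {W}) (P := fun q : (α × ℕ) × List Bool =>
      ¬ ∃ b : β × ℕ, decode q.1.2 = some b ∧ R ((q.1.1, b.1), q.2.take b.2)) hPP.not
      (u := fun q : α × ℕ => q.2) Primrec.snd
    refine this.congr ?_
    rintro X rfl ⟨a, n⟩
    exact not_congr (huse a n).symm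
  have hneg' : Sig {W} (fun _ (q : (α × β) × ℕ) => ∀ i < q.2, ¬ P q.1.1 i) := by
    have h6 : Sig {W} (fun _ (q : ((α × β) × ℕ) × ℕ) => ¬ P q.1.1.1 q.2) :=
      hneg.comp (f := fun q : ((α × β) × ℕ) × ℕ => (q.1.1.1, q.2))
        (Primrec.pair (Primrec.fst.comp (Primrec.fst.comp Primrec.fst)) Primrec.snd)
    exact h6.ball (f := fun q : (α × β) × ℕ => q.2) Primrec.snd
  have hpos : Sig {W} (fun X (q : (α × β) × ℕ) => ∃ t : ℕ,
      decode q.2 = some (q.1.2, t) ∧ R ((q.1.1, q.1.2), pre X t)) := by
    have h7 : Sig {W} (fun X (q : ((α × β) × ℕ) × ℕ) => R ((q.1.1.1, q.1.1.2), pre X q.2)) :=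
      Sig.bounded (P := fun q : (((α × β) × ℕ) × ℕ) × List Bool =>
        R ((q.1.1.1.1, q.1.1.1.2), q.2))
        (h1.comp (Primrec.pair (Primrec.fst.comp (Primrec.fst.comp Primrec.fst)) Primrec.snd))
        (u := fun q : ((α × β) × ℕ) × ℕ => q.2) Primrec.snd
    have h8 : PrimrecPred (fun q : ((α × β) × ℕ) × ℕ =>
        (decode q.1.2 : Option (β × ℕ)) = some (q.1.1.2, q.2)) :=
      Primrec.eq.comp (Primrec.decode.comp (Primrec.snd.comp Primrec.fst))
        (Primrec.option_some.comp (Primrec.pair (Primrec.snd.comp (Primrec.fst.comp Primrec.fst))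
          Primrec.snd))
    exact ((Sig.of_prim h8).and h7).ex
  refine (hpos.and hneg').ex.congr ?_
  rintro X hX ⟨a, b⟩
  have hX' : X = W := hX
  subst hX'
  simp only
  constructor
  · rintro rfl
    exact ⟨Nat.find (hP a), ⟨(g a).2, hg1 a, hg2 a⟩, fun i hi => Nat.find_min (hP a) hi⟩
  · rintro ⟨n, ⟨t, h4, h5⟩, h6⟩
    have hn : n = Nat.find (hP a) := by
      rw [eq_comm, Nat.find_eq_iff]
      exact ⟨⟨(b, t), h4, h5⟩, h6⟩
    have := hg1 a
    rw [← hn, h4] at this
    rw [← Option.some.inj this]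

/-- iteration -/
lemma sig_iter {W : ℕ → Bool} {f : ℕ × β → β}
    (hf : Sig {W} (fun _ (p : (ℕ × β) × β) => f p.1 = p.2)) (b₀ : β) :
    Sig {W} (fun _ (p : ℕ × β) => (Nat.rec b₀ (fun s x => f (s, x)) p.1 : β) = p.2) := by
  have h1 : PrimrecPred (fun q : (ℕ × β) × List β =>
      q.2[0]? = some b₀ ∧ q.2[q.1.1]? = some q.1.2) :=
    PrimrecPred.and
      (Primrec.eq.comp (Primrec.list_getElem?.comp Primrec.snd (Primrec.const 0))
        (Primrec.const (some b₀)))
      (Primrec.eq.comp (Primrec.list_getElem?.comp Primrec.snd (Primrec.fst.comp Primrec.fst))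
        (Primrec.option_some.comp (Primrec.snd.comp Primrec.fst)))
  have h2 : Sig {W} (fun _ (q : (((ℕ × β) × List β) × ℕ) × (β × β)) =>
      (q.1.1.2[q.1.2]? = some q.2.1 ∧ q.1.1.2[q.1.2 + 1]? = some q.2.2) ∧
        f (q.1.2, q.2.1) = q.2.2) := by
    refine (Sig.of_prim (PrimrecPred.and ?_ ?_)).and ?_
    · exact Primrec.eq.comp (Primrec.list_getElem?.comp
        (Primrec.snd.comp (Primrec.fst.comp Primrec.fst)) (Primrec.snd.comp Primrec.fst))
        (Primrec.option_some.comp (Primrec.fst.comp Primrec.snd))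
    · exact Primrec.eq.comp (Primrec.list_getElem?.comp
        (Primrec.snd.comp (Primrec.fst.comp Primrec.fst))
        (Primrec.succ.comp (Primrec.snd.comp Primrec.fst)))
        (Primrec.option_some.comp (Primrec.snd.comp Primrec.snd))
    · exact hf.comp (f := fun q : (((ℕ × β) × List β) × ℕ) × (β × β) =>
        ((q.1.2, q.2.1), q.2.2))
        (Primrec.pair (Primrec.pair (Primrec.snd.comp Primrec.fst)
          (Primrec.fst.comp Primrec.snd)) (Primrec.snd.comp Primrec.snd))
  have h3 := h2.ex.ball (f := fun q : (ℕ × β) × List β => q.1.1) (Primrec.fst.comp Primrec.fst)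
  refine ((Sig.of_prim h1).and h3).ex.congr ?_
  rintro X _ ⟨n, b⟩
  simp only
  constructor
  · intro h
    refine ⟨(List.range (n + 1)).map (fun s => (Nat.rec b₀ (fun s x => f (s, x)) s : β)),
      ⟨?_, ?_⟩, ?_⟩
    · simp
    · simpa using h
    · intro i hi
      refine ⟨((Nat.rec b₀ (fun s x => f (s, x)) i : β),
        (Nat.rec b₀ (fun s x => f (s, x)) (i + 1) : β)), ⟨?_, ?_⟩, rfl⟩
      · simp only
        rw [List.getElem?_map, List.getElem?_range (by omega)]
        rfl
      · simp only
        rw [List.getElem?_map, List.getElem?_range (by omega)]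
        rfl
  · rintro ⟨L, ⟨h4, h5⟩, h6⟩
    have key : ∀ i ≤ n, L[i]? = some (Nat.rec b₀ (fun s x => f (s, x)) i : β) := by
      intro i
      induction i with
      | zero => exact fun _ => h4
      | succ i ih =>
        intro hi
        obtain ⟨⟨y, z⟩, ⟨h7, h8⟩, h9⟩ := h6 i (by omega)
        simp only at h7 h8 h9
        rw [ih (by omega)] at h7
        rw [h8, ← h9, ← Option.some.inj h7]
    have := key n le_rfl
    rw [h5] at this
    exact (Option.some.inj this).symm

end

section
variable (r : ℕ → ℕ → Prop) [IsWellFounded ℕ r] (Z : ℕ → Bool)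

/-- A generic oracle computable in the iterated jump. -/
theorem exists_generic (m : ℕ) :
    ∃ X : ℕ → Bool, Red X (iterJump r Z m) ∧ ∀ k, r k m → Generic (iterJump r Z k) X := by
  set W := iterJump r Z m with hW
  -- index for: some extension of `σ` belongs to the `c`-th set
  have hE : Sig Set.univ (fun Y (q : Code × List Bool) => ∃ τ : List Bool,
      q.2 <+: τ ∧ jump Y (qq q.1 τ) = true) := by
    have h1 : PrimrecPred (fun q : (Code × List Bool) × List Bool => q.1.2 <+: q.2) :=
      prim_prefix.comp (Primrec.snd.comp Primrec.fst) Primrec.snd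
    have h2 : Sig Set.univ (fun Y (q : (Code × List Bool) × List Bool) =>
        jump Y (qq q.1.1 q.2) = true) :=
      jump_sig.comp (f := fun q : (Code × List Bool) × List Bool => qq q.1.1 q.2)
        (primrec_qq.comp (Primrec.fst.comp Primrec.fst) Primrec.snd)
    exact ((Sig.of_prim h1).and h2).ex
  obtain ⟨d, hd⟩ := sig_smn hE
  have hd' := fun Y => hd Y (Set.mem_univ _)
  -- the step relation
  let T : (ℕ → Bool) → (ℕ × List Bool) × List Bool → Prop := fun Y q =>
    (Y (od q.1.1.unpair.1 (qq d (ofNat Code q.1.1.unpair.2, q.1.2))) = false ∧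
      q.2 = q.1.2 ++ [false]) ∨
    ∃ τ : List Bool, (q.1.2 <+: τ ∧ q.2 = τ ++ [false]) ∧
      Y (od q.1.1.unpair.1 (qq (ofNat Code q.1.1.unpair.2) τ)) = true
  have hT : Sig {W} T := by
    have pk : Primrec (fun q : (ℕ × List Bool) × List Bool => q.1.1.unpair.1) :=
      Primrec.fst.comp (Primrec.unpair.comp (Primrec.fst.comp Primrec.fst))
    have pc : Primrec (fun q : (ℕ × List Bool) × List Bool => ofNat Code q.1.1.unpair.2) :=
      (Primrec.ofNat Code).comp (Primrec.snd.comp (Primrec.unpair.comp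
        (Primrec.fst.comp Primrec.fst)))
    have ps : Primrec (fun q : (ℕ × List Bool) × List Bool => q.1.2) :=
      Primrec.snd.comp Primrec.fst
    refine Sig.or ?_ ?_
    · refine Sig.and ?_ (Sig.of_prim ?_)
      · refine Sig.oracle ?_ (Primrec.const false)
        exact primrec_od.comp pk (primrec_qq.comp (Primrec.const d) (Primrec.pair pc ps))
      · exact Primrec.eq.comp Primrec.snd (Primrec.list_append.comp ps (Primrec.const [false]))
    · have h3 : PrimrecPred (fun q : ((ℕ × List Bool) × List Bool) × List Bool =>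
          q.1.1.2 <+: q.2 ∧ q.1.2 = q.2 ++ [false]) :=
        (prim_prefix.comp (ps.comp Primrec.fst) Primrec.snd).and
          (Primrec.eq.comp (Primrec.snd.comp Primrec.fst)
            (Primrec.list_append.comp Primrec.snd (Primrec.const [false])))
      have h4 : Sig {W} (fun Y (q : ((ℕ × List Bool) × List Bool) × List Bool) =>
          Y (od q.1.1.1.unpair.1 (qq (ofNat Code q.1.1.1.unpair.2) q.2)) = true) :=
        Sig.oracle (primrec_od.comp (pk.comp Primrec.fst)
          (primrec_qq.comp (pc.comp Primrec.fst) Primrec.snd)) (Primrec.const true)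
      exact ((Sig.of_prim h3).and h4).ex
  have htot : ∀ a, ∃ b, T W (a, b) := by
    rintro ⟨s, σ⟩
    by_cases h : W (od s.unpair.1 (qq d (ofNat Code s.unpair.2, σ))) = false
    · exact ⟨σ ++ [false], Or.inl ⟨h, rfl⟩⟩
    · rw [Bool.not_eq_false] at h
      have hr : r s.unpair.1 m := by
        by_contra hc
        rw [hW, iterJump_od_not r Z m _ _ hc] at h
        cases h
      rw [hW, iterJump_od r Z m _ _ hr, ← hd'] at h
      obtain ⟨τ, h5, h6⟩ := h
      refine ⟨τ ++ [false], Or.inr ⟨τ, ⟨h5, rfl⟩, ?_⟩⟩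
      simp only
      rw [hW, iterJump_od r Z m _ _ hr]
      exact h6
  obtain ⟨f, hf1, hf2⟩ := sig_choice hT htot
  -- the sequence
  let g : ℕ → List Bool := fun n => (Nat.rec [] (fun s x => f (s, x)) n : List Bool)
  have hg : Sig {W} (fun _ (p : ℕ × List Bool) => g p.1 = p.2) := sig_iter hf2 []
  have gsucc : ∀ n, g (n + 1) = f (n, g n) := fun n => rfl
  have hstep : ∀ n, ∃ τ, g n <+: τ ∧ g (n + 1) = τ ++ [false] := by
    intro n
    rw [gsucc]
    rcases hf1 (n, g n) with ⟨_, h⟩ | ⟨τ, ⟨h1, h2⟩, _⟩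
    · exact ⟨g n, List.prefix_refl _, h⟩
    · exact ⟨τ, h1, h2⟩
  have hpre1 : ∀ n, g n <+: g (n + 1) := by
    intro n
    obtain ⟨τ, h1, h2⟩ := hstep n
    rw [h2]
    exact h1.trans (List.prefix_append _ _)
  have hpre : ∀ n k, g n <+: g (n + k) := by
    intro n k
    induction k with
    | zero => exact List.prefix_refl _
    | succ k ih => exact ih.trans (hpre1 (n + k))
  have hlen : ∀ n, n ≤ (g n).length := by
    intro n
    induction n with
    | zero => exact Nat.zero_le _
    | succ n ih =>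
      obtain ⟨τ, h1, h2⟩ := hstep n
      rw [h2, List.length_append]
      have := h1.length_le
      simp
      omega
  let X : ℕ → Bool := fun n => (g (n + 1)).getD n false
  have hX : ∀ n, g n = pre X (g n).length := by
    intro n
    rw [eq_pre_iff]
    intro i hi
    have h1 : i < (g (i + 1)).length := hlen (i + 1)
    have h2 : (g (i + 1)).getD i false = (g (i + 1))[i] := by simp [h1]
    show _ = (g (i + 1)).getD i false
    rw [h2]
    rcases le_total n (i + 1) with h | h
    · obtain ⟨k, hk⟩ := Nat.exists_eq_add_of_le h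
      have h3 := hpre n k
      have h4 : (g n)[i]? = some (g n)[i] := by simp [hi]
      have h5 := prefix_iff_getElem?.1 h3 i _ h4
      rw [← hk] at h5
      have h6 : (g (i + 1))[i]? = some (g (i + 1))[i] := by simp [h1]
      rw [h6] at h5
      exact (Option.some.inj h5).symm
    · obtain ⟨k, hk⟩ := Nat.exists_eq_add_of_le h
      have h3 := hpre (i + 1) k
      have h4 : (g (i + 1))[i]? = some (g (i + 1))[i] := by simp [h1]
      have h5 := prefix_iff_getElem?.1 h3 i _ h4
      rw [← hk] at h5
      have h6 : (g n)[i]? = some (g n)[i] := by simp [hi]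
      rw [h6] at h5
      exact (Option.some.inj h5)
  refine ⟨X, ?_, ?_⟩
  · -- computability
    have h1 : Sig {W} (fun _ (q : (ℕ × Bool) × List Bool) => g (q.1.1 + 1) = q.2) :=
      hg.comp (f := fun q : (ℕ × Bool) × List Bool => (q.1.1 + 1, q.2))
        (Primrec.pair (Primrec.succ.comp (Primrec.fst.comp Primrec.fst)) Primrec.snd)
    have h2 : PrimrecPred (fun q : (ℕ × Bool) × List Bool => q.2.getD q.1.1 false = q.1.2) :=
      Primrec.eq.comp ((Primrec.list_getD false).comp Primrec.snd (Primrec.fst.comp Primrec.fst))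
        (Primrec.snd.comp Primrec.fst)
    refine (h1.and (Sig.of_prim h2)).ex.congr ?_
    rintro Y _ ⟨n, b⟩
    simp only
    constructor
    · intro h
      exact ⟨g (n + 1), rfl, h⟩
    · rintro ⟨σ, h3, h4⟩
      rw [← h3] at h4
      exact h4
  · intro k hk S hS
    obtain ⟨c, hc⟩ := sig_smn hS
    have hc' := hc _ rfl
    set s := Nat.pair k (encode c) with hs
    have hs1 : s.unpair.1 = k := by rw [hs, Nat.unpair_pair]
    have hs2 : ofNat Code s.unpair.2 = c := by rw [hs, Nat.unpair_pair]; simp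
    have h1 := hf1 (s, g s)
    rcases h1 with ⟨h2, h3⟩ | ⟨τ, ⟨h2, h3⟩, h4⟩
    · right
      simp only [hs1, hs2] at h2
      rw [hW, iterJump_od r Z m _ _ hk] at h2
      refine ⟨(g s).length, ?_⟩
      rw [← hX s]
      intro ρ hρ hcon
      have h5 : jump (iterJump r Z k) (qq d (c, g s)) = true := by
        rw [← hd']
        exact ⟨ρ, hρ, (hc' _).1 hcon⟩
      rw [h5] at h2
      cases h2
    · left
      simp only [hs1, hs2] at h4
      rw [hW, iterJump_od r Z m _ _ hk] at h4
      refine ⟨τ.length, ?_⟩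
      have h5 : τ <+: pre X (g (s + 1)).length := by
        have h3' : f (s, g s) = τ ++ [false] := h3
        rw [← hX (s + 1), gsucc, h3']
        exact List.prefix_append _ _
      rw [← eq_pre_of_prefix h5]
      exact (hc' _).2 h4

end

end JumpDeg
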