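import Mathlib
import Pool.Agent.JumpDeg.Gen

/-!
Column permutations of generic oracles and the category argument.
-/

namespace JumpDeg

open Encodable Denumerable
open Nat.Partrec (Code)

lemma pair_le_left (a b : ℕ) : a ≤ Nat.pair a b := Nat.left_le_pair a b
lemma pair_le_right (a b : ℕ) : b ≤ Nat.pair a b := Nat.right_le_pair a b

/-- Genericity is preserved by primitive recursive permutations of the positions. -/
lemma Generic.perm {Y X : ℕ → Bool} (h : Generic Y X) (φ : Equiv.Perm ℕ) (hφ : Primrec φ) :
    Generic Y (fun n => X (φ n)) := by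
  intro S hS
  have h1 : Sig {Y} (fun Y (q : List Bool × List Bool) => S Y q.2 ∧
      ∀ i < q.2.length, q.1[φ i]? = q.2[i]?) := by
    refine (hS.comp (f := fun q : List Bool × List Bool => q.2) Primrec.snd).and
      (Sig.of_prim ?_)
    have h2 : PrimrecPred (fun q : (List Bool × List Bool) × ℕ => q.1.1[φ q.2]? = q.1.2[q.2]?) :=
      Primrec.eq.comp (Primrec.list_getElem?.comp (Primrec.fst.comp Primrec.fst)
        (hφ.comp Primrec.snd)) (Primrec.list_getElem?.comp (Primrec.snd.comp Primrec.fst)
          Primrec.snd)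
    exact prim_forall_lt h2 (f := fun q : List Bool × List Bool => q.2.length)
      (Primrec.list_length.comp Primrec.snd)
  rcases h _ h1.ex with ⟨t, σ, h3, h4⟩ | ⟨t₀, ht₀⟩
  · left
    refine ⟨σ.length, ?_⟩
    have : σ = pre (fun n => X (φ n)) σ.length := by
      rw [eq_pre_iff]
      intro i hi
      have h5 := h4 i hi
      simp only at h5
      rw [getElem?_pre] at h5
      split_ifs at h5 with hlt
      · simpa [hi] using h5.symm
      · simp [hi] at h5
    rw [← this]
    exact h3
  · right
    -- bound for the inverse image of `[0,t₀)`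
    obtain ⟨L, hL⟩ : ∃ L, ∀ x < t₀, φ.symm x < L := by
      refine ⟨(Finset.range t₀).sup (fun x => φ.symm x) + 1, fun x hx => ?_⟩
      exact Nat.lt_succ_of_le (Finset.le_sup (f := fun x => φ.symm x) (Finset.mem_range.2 hx))
    refine ⟨L, fun σ hσ hcon => ?_⟩
    obtain ⟨N, hN1, hN2⟩ : ∃ N, t₀ ≤ N ∧ ∀ i < σ.length, φ i < N := by
      refine ⟨max t₀ ((Finset.range σ.length).sup (fun x => φ x) + 1), le_max_left _ _,
        fun i hi => ?_⟩
      exact lt_of_lt_of_le (Nat.lt_succ_of_le (Finset.le_sup (f := fun x => φ x)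
        (Finset.mem_range.2 hi))) (le_max_right _ _)
    have hσ' := pre_prefix_iff.1 hσ
    have hLσ : L ≤ σ.length := by
      have := hσ.length_le
      simpa using this
    let F : ℕ → Bool := fun x => if φ.symm x < σ.length then σ.getD (φ.symm x) false else X x
    apply ht₀ (pre F N)
    · rw [pre_prefix_iff]
      intro x hx
      rw [getElem?_pre_of_lt _ (by omega)]
      have h5 := hL x hx
      have h6 := hσ' _ h5
      have h7 : F x = σ.getD (φ.symm x) false := if_pos (by omega)
      rw [h7, List.getD, h6]
      simp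
    · refine ⟨σ, hcon, fun i hi => ?_⟩
      simp only at hi ⊢
      rw [getElem?_pre_of_lt _ (hN2 i hi)]
      have h7 : F (φ i) = σ.getD (φ.symm (φ i)) false := if_pos (by simpa using hi)
      rw [h7]
      simp [hi]

/-- Every finite pattern occurs in some late column. -/
lemma Generic.pattern {Y X : ℕ → Bool} (h : Generic Y X) (w : List Bool) (i₀ : ℕ) :
    ∃ i ≥ i₀, ∀ n, (hn : n < w.length) → X (Nat.pair i n) = w[n] := by
  have hp : PrimrecPred (fun q : List Bool × ℕ =>
      i₀ ≤ q.2 ∧ ∀ n < w.length, q.1[Nat.pair q.2 n]? = w[n]?) := by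
    refine (Primrec.nat_le.comp (Primrec.const i₀) Primrec.snd).and ?_
    have h2 : PrimrecPred (fun q : (List Bool × ℕ) × ℕ =>
        q.1.1[Nat.pair q.1.2 q.2]? = w[q.2]?) :=
      Primrec.eq.comp (Primrec.list_getElem?.comp (Primrec.fst.comp Primrec.fst)
        (Primrec₂.natPair.comp (Primrec.snd.comp Primrec.fst) Primrec.snd))
        (Primrec.list_getElem?.comp (Primrec.const w) Primrec.snd)
    exact prim_forall_lt h2 (f := fun _ : List Bool × ℕ => w.length) (Primrec.const _)
  rcases h _ (Sig.of_prim hp).ex with ⟨t, i, h3, h4⟩ | ⟨t₀, ht₀⟩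
  · refine ⟨i, h3, fun n hn => ?_⟩
    have h5 := h4 n hn
    simp only at h5
    rw [getElem?_pre] at h5
    split_ifs at h5 with hlt
    · simpa [hn] using h5
    · simp [hn] at h5
  · exfalso
    set i := max i₀ t₀ with hi
    let F : ℕ → Bool := fun x => if x < t₀ then X x else w.getD x.unpair.2 false
    obtain ⟨N, hN1, hN2⟩ : ∃ N, t₀ ≤ N ∧ ∀ n < w.length, Nat.pair i n < N := by
      refine ⟨max t₀ ((Finset.range w.length).sup (fun x => Nat.pair i x) + 1),
        le_max_left _ _, fun n hn => ?_⟩
      exact lt_of_lt_of_le (Nat.lt_succ_of_le (Finset.le_sup (f := fun x => Nat.pair i x)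
        (Finset.mem_range.2 hn))) (le_max_right _ _)
    apply ht₀ (pre F N)
    · rw [pre_prefix_iff]
      intro x hx
      rw [getElem?_pre_of_lt _ (by omega)]
      have : F x = X x := if_pos hx
      rw [this]
    · refine ⟨i, le_max_left _ _, fun n hn => ?_⟩
      simp only
      rw [getElem?_pre_of_lt _ (hN2 n hn)]
      have h5 : ¬ Nat.pair i n < t₀ := by
        have := pair_le_left i n
        omega
      have : F (Nat.pair i n) = w.getD n false := by
        show (if Nat.pair i n < t₀ then _ else _) = _
        rw [if_neg h5, Nat.unpair_pair]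
      rw [this]
      simp [hn]

/-- permuting the columns -/
def colPerm (π : ℕ → ℕ) (X : ℕ → Bool) : ℕ → Bool :=
  fun n => X (Nat.pair (π n.unpair.1) n.unpair.2)

lemma colPerm_pair (π : ℕ → ℕ) (X : ℕ → Bool) (i n : ℕ) :
    colPerm π X (Nat.pair i n) = X (Nat.pair (π i) n) := by
  unfold colPerm
  rw [Nat.unpair_pair]

/-- the permutation of positions induced by a permutation of columns -/
def posPerm (π : Equiv.Perm ℕ) : Equiv.Perm ℕ where
  toFun n := Nat.pair (π n.unpair.1) n.unpair.2
  invFun n := Nat.pair (π.symm n.unpair.1) n.unpair.2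
  left_inv n := by simp
  right_inv n := by simp

lemma Generic.swap {Y X : ℕ → Bool} (π : Equiv.Perm ℕ) (h : Generic Y (colPerm π X)) (a b : ℕ) :
    Generic Y (colPerm ((Equiv.swap a b).trans π) X) := by
  have h1 : Primrec (posPerm (Equiv.swap a b)) := by
    have h2 : Primrec (fun n : ℕ => if n = a then b else if n = b then a else n) :=
      Primrec.ite (Primrec.eq.comp Primrec.id (Primrec.const a)) (Primrec.const b)
        (Primrec.ite (Primrec.eq.comp Primrec.id (Primrec.const b)) (Primrec.const a) Primrec.id)
    have h3 : Primrec (fun n : ℕ => Nat.pair (if n.unpair.1 = a then b else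
        if n.unpair.1 = b then a else n.unpair.1) n.unpair.2) :=
      Primrec₂.natPair.comp (h2.comp (Primrec.fst.comp Primrec.unpair))
        (Primrec.snd.comp Primrec.unpair)
    refine h3.of_eq ?_
    intro n
    show _ = Nat.pair (Equiv.swap a b n.unpair.1) n.unpair.2
    rw [Equiv.swap_apply_def]
  have h4 := h.perm _ h1
  have h5 : (fun n => colPerm π X (posPerm (Equiv.swap a b) n))
      = colPerm ((Equiv.swap a b).trans π) X := by
    funext n
    show colPerm π X (Nat.pair (Equiv.swap a b n.unpair.1) n.unpair.2) = _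
    rw [colPerm_pair]
    rfl
  rw [h5] at h4
  exact h4

/-- Every finite injective sequence extends to a permutation that preserves genericity. -/
lemma exists_perm_extending (X : ℕ → Bool) (p : List ℕ) (hp : p.Nodup) :
    ∃ π : Equiv.Perm ℕ, (∀ i a, p[i]? = some a → π i = a) ∧
      ∀ Y, Generic Y X → Generic Y (colPerm π X) := by
  induction p using List.reverseRecOn with
  | nil =>
    refine ⟨Equiv.refl ℕ, by simp, fun Y h => ?_⟩
    have : colPerm (Equiv.refl ℕ) X = X := by
      funext n
      unfold colPerm
      simp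
    rw [this]
    exact h
  | append_singleton p a ih =>
    have hp' : p.Nodup := (List.nodup_append.1 hp).1
    have ha : a ∉ p := by
      intro hmem
      have := (List.nodup_append.1 hp).2.2 a hmem a (by simp)
      exact this rfl
    obtain ⟨π, h1, h2⟩ := ih hp'
    refine ⟨(Equiv.swap p.length (π.symm a)).trans π, ?_, fun Y h => (h2 Y h).swap π _ _⟩
    intro i b hib
    rcases lt_trichotomy i p.length with hi | rfl | hi
    · rw [List.getElem?_append_left hi] at hib
      have h3 := h1 i b hib
      have h4 : i ≠ π.symm a := by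
        rintro rfl
        rw [Equiv.apply_symm_apply] at h3
        subst h3
        exact ha (List.mem_of_getElem? hib)
      show π (Equiv.swap p.length (π.symm a) i) = b
      rw [Equiv.swap_apply_of_ne_of_ne (by omega) h4, h3]
    · show π (Equiv.swap p.length (π.symm a) p.length) = b
      rw [Equiv.swap_apply_left, Equiv.apply_symm_apply]
      simpa using hib
    · rw [List.getElem?_eq_none (by simp; omega)] at hib
      cases hib

/-- the string `σ` agrees with the columns prescribed by `p` -/
def compat (X : ℕ → Bool) (p : List ℕ) (σ : List Bool) : Prop :=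
  ∀ (n : ℕ) (b : Bool) (a : ℕ), σ[n]? = some b → p[n.unpair.1]? = some a →
    X (Nat.pair a n.unpair.2) = b

/-- the string `σ` is determined by the columns prescribed by `p` -/
def full (X : ℕ → Bool) (p : List ℕ) (σ : List Bool) : Prop :=
  ∀ (n : ℕ) (b : Bool), σ[n]? = some b →
    ∃ a : ℕ, p[n.unpair.1]? = some a ∧ X (Nat.pair a n.unpair.2) = b

lemma compat_extend {Y X : ℕ → Bool} (hX : Generic Y X) {p : List ℕ} {σ : List Bool}
    (hp : p.Nodup) (hc : compat X p σ) :
    ∃ a, (p ++ [a]).Nodup ∧ compat X (p ++ [a]) σ := by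
  obtain ⟨π, h1, h2⟩ := exists_perm_extending X p hp
  let w : List Bool := (List.range σ.length).map (fun n => σ.getD (Nat.pair p.length n) false)
  obtain ⟨i, hi, hw⟩ := (h2 Y hX).pattern w p.length
  refine ⟨π i, ?_, ?_⟩
  · rw [List.nodup_append]
    refine ⟨hp, by simp, ?_⟩
    intro a ha b hb
    simp only [List.mem_singleton] at hb
    subst hb
    rintro rfl
    obtain ⟨j, hj, hj2⟩ := List.mem_iff_getElem.1 ha
    have h3 := h1 j _ (by simp [hj]; exact hj2)
    have h4 := π.injective h3
    omega
  · intro n b a hn ha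
    have hnlt : n < σ.length := by
      by_contra hcon
      rw [List.getElem?_eq_none (by omega)] at hn
      cases hn
    rcases lt_trichotomy n.unpair.1 p.length with h | h | h
    · rw [List.getElem?_append_left h] at ha
      exact hc n b a hn ha
    · rw [h] at ha
      have ha' : a = π i := by simpa using ha.symm
      subst ha'
      have h5 : n.unpair.2 < w.length := by
        simp only [w, List.length_map, List.length_range]
        exact lt_of_le_of_lt (Nat.unpair_right_le n) hnlt
      have h6 := hw _ h5
      rw [colPerm_pair] at h6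
      rw [h6]
      simp only [w, List.getElem_map, List.getElem_range]
      rw [← h, Nat.pair_unpair, List.getD, hn]
      rfl
    · rw [List.getElem?_eq_none (by simp; omega)] at ha
      cases ha

lemma compat_realise {Y X : ℕ → Bool} (hX : Generic Y X) {p : List ℕ} {σ : List Bool}
    (hp : p.Nodup) (hc : compat X p σ) :
    ∃ q, p <+: q ∧ q.Nodup ∧ full X q σ := by
  have key : ∀ j, ∃ q, p <+: q ∧ q.Nodup ∧ compat X q σ ∧ j ≤ q.length := by
    intro j
    induction j with
    | zero => exact ⟨p, List.prefix_refl _, hp, hc, Nat.zero_le _⟩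
    | succ j ih =>
      obtain ⟨q, h1, h2, h3, h4⟩ := ih
      obtain ⟨a, h5, h6⟩ := compat_extend hX h2 h3
      exact ⟨q ++ [a], h1.trans (List.prefix_append _ _), h5, h6, by simp; omega⟩
  obtain ⟨q, h1, h2, h3, h4⟩ := key σ.length
  refine ⟨q, h1, h2, fun n b hn => ?_⟩
  have hnlt : n < σ.length := by
    by_contra hcon
    rw [List.getElem?_eq_none (by omega)] at hn
    cases hn
  have h5 : n.unpair.1 < q.length :=
    lt_of_le_of_lt (Nat.unpair_left_le n) (by omega)
  exact ⟨q[n.unpair.1], by simp [h5], h3 n b _ hn (by simp [h5])⟩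

/-- If `q` is contained in `π` then a string determined by `q` is an initial segment of the
permuted oracle. -/
lemma full_prefix {X : ℕ → Bool} {q : List ℕ} {σ : List Bool} (h : full X q σ)
    (π : ℕ → ℕ) (hπ : ∀ i a, q[i]? = some a → π i = a) : σ = pre (colPerm π X) σ.length := by
  rw [eq_pre_iff]
  intro i hi
  obtain ⟨a, h1, h2⟩ := h i σ[i] (by simp [hi])
  unfold colPerm
  rw [hπ _ _ h1, h2]

lemma pre_compat {X : ℕ → Bool} {q : List ℕ} (π : ℕ → ℕ)
    (hπ : ∀ i a, q[i]? = some a → π i = a) (t : ℕ) : compat X q (pre (colPerm π X) t) := by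
  intro n b a hn ha
  rw [getElem?_pre] at hn
  split_ifs at hn with hlt
  rw [← Option.some.inj hn]
  unfold colPerm
  rw [hπ _ _ ha]

/-- meeting countably many dense sets of finite injective sequences -/
lemma exists_perm_meeting (Q : ℕ → List ℕ → Prop)
    (hQ : ∀ n (p : List ℕ), p.Nodup → ∃ q, p <+: q ∧ q.Nodup ∧ Q n q) :
    ∃ π : Equiv.Perm ℕ, ∀ n, ∃ q : List ℕ, Q n q ∧ ∀ i a, q[i]? = some a → π i = a := by
  classical
  choose F hF1 hF2 hF3 using hQ
  let st : ℕ → {p : List ℕ // p.Nodup} → {p : List ℕ // p.Nodup} := fun n p =>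
    if h : n ∈ F n p.1 p.2 then ⟨F n p.1 p.2, hF2 n p.1 p.2⟩
    else ⟨F n p.1 p.2 ++ [n], by
      rw [List.nodup_append]
      refine ⟨hF2 n p.1 p.2, by simp, ?_⟩
      intro a ha b hb
      simp only [List.mem_singleton] at hb
      subst hb
      rintro rfl
      exact h ha⟩
  have hst1 : ∀ n p, F n p.1 p.2 <+: (st n p).1 := by
    intro n p
    simp only [st]
    split_ifs with h
    · exact List.prefix_refl _
    · exact List.prefix_append _ _
  have hst2 : ∀ n p, n ∈ (st n p).1 := by
    intro n p
    simp only [st]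
    split_ifs with h
    · exact h
    · simp
  let g : ℕ → {p : List ℕ // p.Nodup} := fun n => Nat.rec ⟨[], List.nodup_nil⟩ st n
  have gs : ∀ n, g (n + 1) = st n (g n) := fun _ => rfl
  have g1 : ∀ n, (g n).1 <+: (g (n + 1)).1 := fun n => by
    rw [gs]; exact (hF1 n _ _).trans (hst1 n _)
  have g2 : ∀ n k, (g n).1 <+: (g (n + k)).1 := by
    intro n k
    induction k with
    | zero => exact List.prefix_refl _
    | succ k ih => exact ih.trans (g1 _)
  have g2' : ∀ n m, n ≤ m → (g n).1 <+: (g m).1 := by
    intro n m h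
    obtain ⟨k, rfl⟩ := Nat.exists_eq_add_of_le h
    exact g2 n k
  have g3 : ∀ n, n ∈ (g (n + 1)).1 := fun n => by rw [gs]; exact hst2 n _
  have g3' : ∀ n, ∀ a < n, a ∈ (g n).1 := fun n a ha => (g2' (a + 1) n (by omega)).subset (g3 a)
  have g4 : ∀ n, n ≤ (g n).1.length := by
    intro n
    have h1 : Finset.range n ⊆ (g n).1.toFinset := by
      intro a ha
      rw [List.mem_toFinset]
      exact g3' n a (Finset.mem_range.1 ha)
    have h2 := Finset.card_le_card h1
    rw [Finset.card_range, List.toFinset_card_of_nodup (g n).2] at h2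
    exact h2
  let f : ℕ → ℕ := fun i => (g (i + 1)).1.getD i 0
  have hf : ∀ n i a, (g n).1[i]? = some a → f i = a := by
    intro n i a h
    have h1 : i < (g (i + 1)).1.length := g4 (i + 1)
    have h2 : (g (i + 1)).1[i]? = some (g (i + 1)).1[i] := by simp [h1]
    have h3 : f i = (g (i + 1)).1[i] := by simp [f, h1]
    rw [h3]
    rcases le_total n (i + 1) with hle | hle
    · have := prefix_iff_getElem?.1 (g2' _ _ hle) i a h
      rw [h2] at this
      exact Option.some.inj this
    · have := prefix_iff_getElem?.1 (g2' _ _ hle) i _ h2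
      rw [h] at this
      exact (Option.some.inj this).symm
  have finj : Function.Injective f := by
    intro i j hij
    set N := max (i + 1) (j + 1) with hN
    have hi : i < (g N).1.length := lt_of_lt_of_le (by omega) (g4 N)
    have hj : j < (g N).1.length := lt_of_lt_of_le (by omega) (g4 N)
    have h1 := hf N i (g N).1[i] (by simp [hi])
    have h2 := hf N j (g N).1[j] (by simp [hj])
    rw [h1, h2] at hij
    exact (List.Nodup.getElem_inj_iff (g N).2).1 hij
  have fsurj : Function.Surjective f := by
    intro a
    obtain ⟨i, hi, hi2⟩ := List.mem_iff_getElem.1 (g3 a)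
    exact ⟨i, hf (a + 1) i a (by simp [hi]; exact hi2)⟩
  refine ⟨Equiv.ofBijective f ⟨finj, fsurj⟩, fun n => ?_⟩
  refine ⟨F n (g n).1 (g n).2, hF3 _ _ _, fun i a h => ?_⟩
  have h1 : F n (g n).1 (g n).2 <+: (g (n + 1)).1 := by rw [gs]; exact hst1 n _
  exact hf (n + 1) i a (prefix_iff_getElem?.1 h1 i a h)

/-- erase the `i`-th column -/
def eraseCol (i : ℕ) (X : ℕ → Bool) : ℕ → Bool := fun n => if n.unpair.1 = i then false else X n

/-- The category argument. -/
theorem category {X Y c : ℕ → Bool} (F : ℕ → ℕ → Bool) (hF : ∀ j, Generic (F j) X)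
    (hred : ∀ π : Equiv.Perm ℕ, (∀ j, Generic (F j) (colPerm π X)) → Red c (join (colPerm π X) Y)) :
    ∃ p : List ℕ, ∀ i ∉ p, Red c (join (eraseCol i X) Y) := by
  have hS : Sig Set.univ (fun W (q : Code × (ℕ × Bool)) => jump W (qq q.1 q.2) = true) := sig_qq
  obtain ⟨L, hL1, hL2, hL3⟩ := sig_loc hS
  by_contra hcon
  push Not at hcon
  let Q1 : ℕ → List ℕ → Prop := fun s q => ∃ σ : List Bool, full X q σ ∧
    (jump (F s.unpair.1) (qq (ofNat Code s.unpair.2) σ) = true ∨
      ∀ ρ, σ <+: ρ → ¬ jump (F s.unpair.1) (qq (ofNat Code s.unpair.2) ρ) = true)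
  let Q2 : ℕ → List ℕ → Prop := fun e q =>
    (∃ n b, c n ≠ b ∧ ∃ σ : List Bool, full X q σ ∧ L Y ((ofNat Code e, (n, b)), σ)) ∨
    (∃ n, ∀ σ, compat X q σ → ¬ L Y ((ofNat Code e, (n, c n)), σ))
  have hQ1 : ∀ s (p : List ℕ), p.Nodup → ∃ q, p <+: q ∧ q.Nodup ∧ Q1 s q := by
    intro s p hp
    obtain ⟨π, h1, h2⟩ := exists_perm_extending X p hp
    have hg := h2 _ (hF s.unpair.1)
    have hsig : Sig {F s.unpair.1} (fun W (σ : List Bool) =>
        jump W (qq (ofNat Code s.unpair.2) σ) = true) :=
      jump_sig.comp (f := fun σ : List Bool => qq (ofNat Code s.unpair.2) σ)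
        (primrec_qq.comp (Primrec.const _) Primrec.id)
    have h3 : ∃ t, (jump (F s.unpair.1) (qq (ofNat Code s.unpair.2) (pre (colPerm π X) t)) = true ∨
      ∀ ρ, pre (colPerm π X) t <+: ρ →
        ¬ jump (F s.unpair.1) (qq (ofNat Code s.unpair.2) ρ) = true) := by
      rcases hg _ hsig with ⟨t, ht⟩ | ⟨t, ht⟩
      · exact ⟨t, Or.inl ht⟩
      · exact ⟨t, Or.inr ht⟩
    obtain ⟨t, ht⟩ := h3
    -- realise the string by extending `p`
    obtain ⟨q, h4, h5, h6⟩ := compat_realise (hF 0) hp (pre_compat (X := X) (q := p) π h1 t)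
    exact ⟨q, h4, h5, _, h6, ht⟩
  have hQ2 : ∀ e (p : List ℕ), p.Nodup → ∃ q, p <+: q ∧ q.Nodup ∧ Q2 e q := by
    intro e p hp
    by_contra hno
    push Not at hno
    obtain ⟨i, hi, hnr⟩ := hcon p
    apply hnr
    -- `c` is computable from the columns in `p`
    have hchar : ∀ n b, c n = b ↔ ∃ σ, compat X p σ ∧ L Y ((ofNat Code e, (n, b)), σ) := by
      intro n b
      constructor
      · rintro rfl
        by_contra hc
        push Not at hc
        exact hno p (List.prefix_refl _) hp (Or.inr ⟨n, hc⟩)
      · rintro ⟨σ, h1, h2⟩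
        by_contra hne
        obtain ⟨q, h4, h5, h6⟩ := compat_realise (hF 0) hp h1
        exact hno q h4 h5 (Or.inl ⟨n, b, hne, σ, h6, h2⟩)
    have hLs : Sig {join (eraseCol i X) Y} (fun _ (q : (ℕ × Bool) × List Bool) =>
        L Y ((ofNat Code e, q.1), q.2)) := by
      have h1 : Sig {Y} (fun W (q : (ℕ × Bool) × List Bool) => L W ((ofNat Code e, q.1), q.2)) :=
        (hL1.comp (f := fun q : (ℕ × Bool) × List Bool => ((ofNat Code e, q.1), q.2))
          (Primrec.pair (Primrec.pair (Primrec.const _) Primrec.fst) Primrec.snd)).mono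
          (Set.subset_univ _)
      exact (red_join_right _ Y).sig h1
    have hcs : Sig {join (eraseCol i X) Y} (fun _ (σ : List Bool) => compat X p σ) := by
      have h1 : Sig {join (eraseCol i X) Y} (fun W (q : List Bool × ℕ) =>
          W (2 * Nat.pair (p.getD q.2.unpair.1 0) q.2.unpair.2) = q.1.getD q.2 false) := by
        refine Sig.oracle ?_ ((Primrec.list_getD false).comp Primrec.fst Primrec.snd)
        refine Primrec.nat_mul.comp (Primrec.const 2) (Primrec₂.natPair.comp ?_ ?_)
        · exact (Primrec.list_getD 0).comp (Primrec.const p)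
            (Primrec.fst.comp (Primrec.unpair.comp Primrec.snd))
        · exact Primrec.snd.comp (Primrec.unpair.comp Primrec.snd)
      have h2 : PrimrecPred (fun q : List Bool × ℕ => p.length ≤ q.2.unpair.1) :=
        Primrec.nat_le.comp (Primrec.const _) (Primrec.fst.comp (Primrec.unpair.comp Primrec.snd))
      refine (((Sig.of_prim h2).or h1).ball (f := fun σ : List Bool => σ.length)
        Primrec.list_length).congr ?_
      intro W hW σ
      have hW' : W = join (eraseCol i X) Y := hW
      subst hW'
      simp only [join_even]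
      constructor
      · intro h n hn
        by_cases hlt : n.unpair.1 < p.length
        · right
          have h3 : p.getD n.unpair.1 0 = p[n.unpair.1] := by simp [hlt]
          have h4 : p[n.unpair.1] ≠ i := by
            intro h5
            exact hi (h5 ▸ List.getElem_mem hlt)
          have h6 := h n σ[n] p[n.unpair.1] (by simp [hn]) (by simp [hlt])
          rw [h3]
          unfold eraseCol
          rw [Nat.unpair_pair]
          simp only
          rw [if_neg h4, h6]
          simp [hn]
        · left
          omega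
      · intro h n b a hn ha
        have hnlt : n < σ.length := by
          by_contra hcon
          rw [List.getElem?_eq_none (by omega)] at hn
          cases hn
        have halt : n.unpair.1 < p.length := by
          by_contra hcon
          rw [List.getElem?_eq_none (by omega)] at ha
          cases ha
        rcases h n hnlt with h5 | h5
        · omega
        · have h3 : p.getD n.unpair.1 0 = a := by simp [List.getD, ha]
          have h4 : a ≠ i := by
            intro h5
            exact hi (h5 ▸ List.mem_of_getElem? ha)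
          rw [h3] at h5
          unfold eraseCol at h5
          rw [Nat.unpair_pair] at h5
          simp only at h5
          rw [if_neg h4] at h5
          rw [h5, List.getD, hn]
          rfl
    have hfin : Sig {join (eraseCol i X) Y} (fun _ (q : (ℕ × Bool) × List Bool) =>
        compat X p q.2 ∧ L Y ((ofNat Code e, q.1), q.2)) :=
      (hcs.comp (f := fun q : (ℕ × Bool) × List Bool => q.2) Primrec.snd).and hLs
    refine hfin.ex.congr ?_
    rintro W _ ⟨n, b⟩
    exact hchar n b
  obtain ⟨π, hπ⟩ := exists_perm_meeting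
    (fun n q => if n % 2 = 0 then Q1 (n / 2) q else Q2 (n / 2) q) (by
      intro n p hp
      by_cases h : n % 2 = 0
      · simp only [h, if_true]; exact hQ1 _ p hp
      · simp only [h, if_false]; exact hQ2 _ p hp)
  have hπ1 : ∀ s, ∃ q : List ℕ, Q1 s q ∧ ∀ i a, q[i]? = some a → π i = a := by
    intro s
    have := hπ (2 * s)
    have h1 : 2 * s % 2 = 0 := by omega
    have h2 : 2 * s / 2 = s := by omega
    simpa only [h1, h2, if_true] using this
  have hπ2 : ∀ s, ∃ q : List ℕ, Q2 s q ∧ ∀ i a, q[i]? = some a → π i = a := by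
    intro s
    have := hπ (2 * s + 1)
    have h1 : ¬ (2 * s + 1) % 2 = 0 := by omega
    have h2 : (2 * s + 1) / 2 = s := by omega
    simpa only [h1, h2, if_false] using this
  have hgen : ∀ j, Generic (F j) (colPerm π X) := by
    intro j S hS'
    obtain ⟨d, hd⟩ := sig_smn hS'
    have hd' := hd _ rfl
    obtain ⟨q, ⟨σ, h1, h2⟩, h3⟩ := hπ1 (Nat.pair j (encode d))
    rw [Nat.unpair_pair] at h2
    simp only [ofNat_encode] at h2
    have h4 := full_prefix h1 π h3
    rcases h2 with h2 | h2
    · left
      refine ⟨σ.length, ?_⟩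
      rw [← h4]
      exact (hd' _).2 h2
    · right
      refine ⟨σ.length, ?_⟩
      rw [← h4]
      intro ρ hρ hcon'
      exact h2 ρ hρ ((hd' _).1 hcon')
  have hr := hred π hgen
  unfold Red at hr
  obtain ⟨d, hd⟩ := sig_smn hr
  have hd' := hd _ rfl
  obtain ⟨q, h1, h3⟩ := hπ2 (encode d)
  simp only [Q2, ofNat_encode] at h1
  rcases h1 with ⟨n, b, hne, σ, h4, h5⟩ | ⟨n, h4⟩
  · have h6 := full_prefix h4 π h3
    rw [h6] at h5
    have h7 : jump (join (colPerm π X) Y) (qq d (n, b)) = true :=
      (hL3 (colPerm π X) Y (d, (n, b))).2 ⟨_, h5⟩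
    exact hne ((hd' (n, b)).2 h7)
  · have h7 : jump (join (colPerm π X) Y) (qq d (n, c n)) = true := (hd' (n, c n)).1 rfl
    obtain ⟨t, ht⟩ := (hL3 (colPerm π X) Y (d, (n, c n))).1 h7
    exact h4 _ (pre_compat (X := X) (q := q) π h3 t) ht

/-- The `i`-th column of a generic is not semi-decidable in the rest and the ground. -/
theorem col_not_sig {X Y : ℕ → Bool} (hX : Generic Y X) (i : ℕ) :
    ¬ Sig {join (eraseCol i X) Y} (fun _ (n : ℕ) => X (Nat.pair i n) = true) := by
  intro hsig
  obtain ⟨c, hc⟩ := sig_smn hsig
  have hc' := hc _ rfl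
  have hS : Sig Set.univ (fun W (n : ℕ) => jump W (qq c n) = true) :=
    jump_sig.comp (f := fun n : ℕ => qq c n) (primrec_qq.comp (Primrec.const c) Primrec.id)
  obtain ⟨L, hL1, hL2, hL3⟩ := sig_loc hS
  let er : List Bool → List Bool := fun ρ =>
    (List.range ρ.length).map (fun x => if x.unpair.1 = i then false else ρ.getD x false)
  have her : ∀ (W : ℕ → Bool) t, er (pre W t) = pre (eraseCol i W) t := by
    intro W t
    simp only [er, length_pre]
    unfold pre eraseCol
    apply List.map_congr_left
    intro x hx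
    rw [List.mem_range] at hx
    simp [hx]
  have per : Primrec er := by
    refine Primrec.list_map (Primrec.list_range.comp Primrec.list_length) ?_
    refine Primrec.ite ?_ (Primrec.const false) ?_
    · exact Primrec.eq.comp (Primrec.fst.comp (Primrec.unpair.comp Primrec.snd))
        (Primrec.const i)
    · exact (Primrec.list_getD false).comp Primrec.fst Primrec.snd
  have h1 : Sig {Y} (fun W (q : List Bool × ℕ) =>
      q.1[Nat.pair i q.2]? = some false ∧ L W (q.2, er q.1)) := by
    refine (Sig.of_prim ?_).and ?_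
    · exact Primrec.eq.comp (Primrec.list_getElem?.comp Primrec.fst
        (Primrec₂.natPair.comp (Primrec.const i) Primrec.snd)) (Primrec.const _)
    · exact (hL1.comp (f := fun q : List Bool × ℕ => (q.2, er q.1))
        (Primrec.pair Primrec.snd (per.comp Primrec.fst))).mono (Set.subset_univ _)
  rcases hX _ h1.ex with ⟨t, n, h2, h3⟩ | ⟨t₀, ht₀⟩
  · simp only at h2 h3
    rw [her] at h3
    have h4 := (hL3 (eraseCol i X) Y n).2 ⟨t, h3⟩
    have h5 := (hc' n).2 h4
    rw [getElem?_pre] at h2
    split_ifs at h2 with hlt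
    rw [h5] at h2
    cases h2
  · -- a late position of the column with value true
    have h6 : Sig {Y} (fun _ (q : List Bool × ℕ) =>
        t₀ ≤ Nat.pair i q.2 ∧ q.1[Nat.pair i q.2]? = some true) := by
      refine Sig.of_prim (PrimrecPred.and ?_ ?_)
      · exact Primrec.nat_le.comp (Primrec.const _)
          (Primrec₂.natPair.comp (Primrec.const i) Primrec.snd)
      · exact Primrec.eq.comp (Primrec.list_getElem?.comp Primrec.fst
          (Primrec₂.natPair.comp (Primrec.const i) Primrec.snd)) (Primrec.const _)
    have h7 : ∃ n, t₀ ≤ Nat.pair i n ∧ X (Nat.pair i n) = true := by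
      rcases hX _ h6.ex with ⟨t, n, h8, h9⟩ | ⟨t₁, ht₁⟩
      · simp only at h8 h9
        rw [getElem?_pre] at h9
        split_ifs at h9 with hlt
        exact ⟨n, h8, Option.some.inj h9⟩
      · exfalso
        set n := max t₀ t₁ with hn
        have hp := pair_le_right i n
        let G : ℕ → Bool := fun x => if x < t₁ then X x else true
        apply ht₁ (pre G (Nat.pair i n + 1))
        · rw [pre_prefix_iff]
          intro x hx
          rw [getElem?_pre_of_lt _ (by omega)]
          have : G x = X x := if_pos hx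
          rw [this]
        · refine ⟨n, show t₀ ≤ Nat.pair i n by omega, ?_⟩
          simp only
          rw [getElem?_pre_of_lt _ (by omega)]
          have : G (Nat.pair i n) = true := if_neg (by omega)
          rw [this]
    obtain ⟨n, h8, h9⟩ := h7
    obtain ⟨t, ht⟩ := (hL3 (eraseCol i X) Y n).1 ((hc' n).1 h9)
    set N := max t (Nat.pair i n + 1) with hN
    let G : ℕ → Bool := fun x => if x = Nat.pair i n then false else X x
    apply ht₀ (pre G N)
    · rw [pre_prefix_iff]
      intro x hx
      rw [getElem?_pre_of_lt _ (by omega)]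
      have : G x = X x := if_neg (by omega)
      rw [this]
    · refine ⟨n, ?_, ?_⟩
      · simp only
        rw [getElem?_pre_of_lt _ (by omega)]
        have : G (Nat.pair i n) = false := if_pos rfl
        rw [this]
      · simp only
        rw [her]
        have h10 : eraseCol i G = eraseCol i X := by
          funext x
          unfold eraseCol
          by_cases hx : x.unpair.1 = i
          · simp [hx]
          · rw [if_neg hx, if_neg hx]
            have : x ≠ Nat.pair i n := by
              rintro rfl
              rw [Nat.unpair_pair] at hx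
              exact hx rfl
            exact if_neg this
        rw [h10]
        exact hL2 _ _ _ _ (pre_prefix_pre _ (le_max_left _ _)) ht

end JumpDeg
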