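import Mathlib
import Pool.Agent.JumpDeg.Perm

/-!
The completely decomposable groups coding an oracle.
-/

namespace JumpDeg

open Encodable Denumerable

/-- pairwise coprime moduli -/
def mo (n : ℕ) : ℕ := Nat.fermatNumber n

lemma mo_pos (n : ℕ) : 0 < mo n := by
  have := Nat.three_le_fermatNumber n
  unfold mo
  omega

lemma mo_ne_one (n : ℕ) : mo n ≠ 1 := Nat.fermatNumber_ne_one n

/-- common denominators -/
def dd (X : ℕ → Bool) (i : ℕ) : ℕ → ℕ
  | 0 => 1
  | N + 1 => dd X i N * (if X (Nat.pair i N) = true then mo N else 1)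

lemma dd_pos (X : ℕ → Bool) (i N : ℕ) : 0 < dd X i N := by
  induction N with
  | zero => simp [dd]
  | succ N ih =>
    simp only [dd]
    refine Nat.mul_pos ih ?_
    split_ifs
    · exact mo_pos N
    · exact Nat.one_pos

lemma dd_dvd_succ (X : ℕ → Bool) (i N : ℕ) : dd X i N ∣ dd X i (N + 1) := by
  simp only [dd]
  exact Dvd.intro _ rfl

lemma dd_dvd (X : ℕ → Bool) (i : ℕ) {N M : ℕ} (h : N ≤ M) : dd X i N ∣ dd X i M := by
  induction M, h using Nat.le_induction with
  | base => exact dvd_rfl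
  | succ M _ ih => exact ih.trans (dd_dvd_succ X i M)

lemma dd_coprime (X : ℕ → Bool) (i N n : ℕ) (h : X (Nat.pair i n) = false) :
    Nat.Coprime (dd X i N) (mo n) := by
  induction N with
  | zero => simp [dd]
  | succ N ih =>
    simp only [dd]
    refine Nat.Coprime.mul_left ih ?_
    split_ifs with hX
    · apply Nat.coprime_fermatNumber_fermatNumber
      rintro rfl
      rw [h] at hX
      cases hX
    · exact Nat.coprime_one_left _

/-- a fraction with a given level -/
lemma frac_level (X : ℕ → Bool) (i : ℕ) {N M : ℕ} (h : N ≤ M) (z : ℤ) :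
    ∃ w : ℤ, (z : ℚ) / dd X i N = (w : ℚ) / dd X i M := by
  obtain ⟨k, hk⟩ := dd_dvd X i h
  refine ⟨z * k, ?_⟩
  have h1 : (dd X i N : ℚ) ≠ 0 := by exact_mod_cast (dd_pos X i N).ne'
  have h2 : (dd X i M : ℚ) ≠ 0 := by exact_mod_cast (dd_pos X i M).ne'
  rw [div_eq_div_iff h1 h2, hk]
  push_cast
  ring

/-- The rank one group coding the `i`-th column of `X`. -/
def HH (X : ℕ → Bool) (i : ℕ) : AddSubgroup ℚ where
  carrier := {q | ∃ (N : ℕ) (z : ℤ), q = (z : ℚ) / dd X i N}
  zero_mem' := ⟨0, 0, by simp⟩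
  add_mem' := by
    rintro a b ⟨N, z, rfl⟩ ⟨M, w, rfl⟩
    obtain ⟨z', hz'⟩ := frac_level X i (le_max_left N M) z
    obtain ⟨w', hw'⟩ := frac_level X i (le_max_right N M) w
    refine ⟨max N M, z' + w', ?_⟩
    rw [hz', hw']
    push_cast
    ring
  neg_mem' := by
    rintro a ⟨N, z, rfl⟩
    exact ⟨N, -z, by push_cast; ring⟩

lemma mem_HH {X : ℕ → Bool} {i : ℕ} {q : ℚ} :
    q ∈ HH X i ↔ ∃ (N : ℕ) (z : ℤ), q = (z : ℚ) / dd X i N := Iff.rfl

lemma one_mem_HH (X : ℕ → Bool) (i : ℕ) : (1 : ℚ) ∈ HH X i := ⟨0, 1, by simp [dd]⟩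

/-- divisibility of `1` in the coding group -/
lemma inv_mem_HH {X : ℕ → Bool} {i n : ℕ} :
    (1 : ℚ) / mo n ∈ HH X i ↔ X (Nat.pair i n) = true := by
  constructor
  · rintro ⟨N, z, h⟩
    by_contra hX
    rw [Bool.not_eq_true] at hX
    have hc := dd_coprime X i N n hX
    have h1 : (dd X i N : ℚ) ≠ 0 := by exact_mod_cast (dd_pos X i N).ne'
    have h2 : (mo n : ℚ) ≠ 0 := by exact_mod_cast (mo_pos n).ne'
    rw [div_eq_div_iff h2 h1, one_mul] at h
    have h3 : (dd X i N : ℤ) = z * (mo n : ℤ) := by exact_mod_cast h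
    have h4 : (mo n : ℤ) ∣ (dd X i N : ℤ) := ⟨z, by rw [h3]; ring⟩
    have h5 : mo n ∣ dd X i N := by exact_mod_cast h4
    have h6 : mo n = 1 := Nat.Coprime.eq_one_of_dvd hc.symm h5
    exact mo_ne_one n h6
  · intro h
    refine ⟨n + 1, dd X i n, ?_⟩
    simp only [dd, h, if_true]
    have h1 : (dd X i n : ℚ) ≠ 0 := by exact_mod_cast (dd_pos X i n).ne'
    have h2 : (mo n : ℚ) ≠ 0 := by exact_mod_cast (mo_pos n).ne'
    push_cast
    field_simp

/-- The coding group. -/
abbrev GG (X : ℕ → Bool) : Type := DirectSum ℕ (fun i => HH X i)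

lemma dd_colPerm (π : ℕ → ℕ) (X : ℕ → Bool) (i N : ℕ) :
    dd (colPerm π X) i N = dd X (π i) N := by
  induction N with
  | zero => simp [dd]
  | succ N ih => simp only [dd, ih, colPerm_pair]

lemma HH_colPerm (π : ℕ → ℕ) (X : ℕ → Bool) :
    (fun i => HH (colPerm π X) i) = fun i => HH X (π i) := by
  funext i
  ext q
  rw [mem_HH, mem_HH]
  simp only [dd_colPerm]

lemma GG_colPerm (π : Equiv.Perm ℕ) (X : ℕ → Bool) :
    Nonempty (GG (colPerm π X) ≃+ GG X) := by
  have h1 : Nonempty ((DirectSum ℕ fun i => HH X (π i)) ≃+ GG X) :=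
    ⟨(DirectSum.equivCongrLeft (β := fun i => HH X i) π.symm).symm⟩
  have h2 := HH_colPerm π X
  have h3 : HH (colPerm π X) = fun i => HH X (π i) := h2
  unfold GG
  rw [h3]
  exact h1

/-! ### terms and their values -/

/-- Terms: a level and two lists of natural numbers (positive and negative coefficients). -/
abbrev Tm : Type := ℕ × List ℕ × List ℕ

/-- components of the value of a term -/
def vc (X : ℕ → Bool) (a : Tm) (i : ℕ) : ℚ :=
  (((a.2.1.getD i 0 : ℤ) - (a.2.2.getD i 0 : ℤ) : ℤ) : ℚ) / dd X i a.1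

lemma vc_mem (X : ℕ → Bool) (a : Tm) (i : ℕ) : vc X a i ∈ HH X i := ⟨a.1, _, rfl⟩

/-- the value of a term -/
def val (X : ℕ → Bool) (a : Tm) : GG X :=
  DFinsupp.mk (Finset.range (a.2.1.length + a.2.2.length)) (fun i => ⟨vc X a i, vc_mem X a i⟩)

lemma val_apply (X : ℕ → Bool) (a : Tm) (i : ℕ) : ((val X a i : HH X i) : ℚ) = vc X a i := by
  unfold val
  rw [DFinsupp.mk_apply]
  split_ifs with h
  · rfl
  · rw [Finset.mem_range, not_lt] at h
    unfold vc
    have h1 : a.2.1.getD i 0 = 0 := by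
      rw [List.getD, List.getElem?_eq_none (by omega)]
      rfl
    have h2 : a.2.2.getD i 0 = 0 := by
      rw [List.getD, List.getElem?_eq_none (by omega)]
      rfl
    rw [h1, h2]
    simp

lemma GG_ext {X : ℕ → Bool} {g h : GG X} (e : ∀ i, ((g i : HH X i) : ℚ) = (h i : HH X i)) :
    g = h := by
  apply DFinsupp.ext
  intro i
  exact Subtype.ext (e i)

lemma val_surj (X : ℕ → Bool) : Function.Surjective (val X) := by
  classical
  intro g
  have h1 : ∀ i, ∃ (N : ℕ) (z : ℤ), ((g i : HH X i) : ℚ) = (z : ℚ) / dd X i N := fun i => (g i).2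
  choose N z hz using h1
  set M := (DFinsupp.support g).sup id + 1 with hM
  have hMs : ∀ i, M ≤ i → g i = 0 := by
    intro i hi
    by_contra hne
    have h2 : i ∈ DFinsupp.support g := by
      rw [DFinsupp.mem_support_iff]
      exact hne
    have h3 := Finset.le_sup (f := id) h2
    simp only [id] at h3
    omega
  set N' := (Finset.range M).sup N with hN'
  have h4 : ∀ i < M, ∃ w : ℤ, ((g i : HH X i) : ℚ) = (w : ℚ) / dd X i N' := by
    intro i hi
    obtain ⟨w, hw⟩ := frac_level X i
      (Finset.le_sup (f := N) (Finset.mem_range.2 hi) : N i ≤ N') (z i)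
    exact ⟨w, by rw [hz, hw]⟩
  have h5 : ∀ i, ∃ w : ℤ, i < M → ((g i : HH X i) : ℚ) = (w : ℚ) / dd X i N' := by
    intro i
    by_cases hi : i < M
    · obtain ⟨w, hw⟩ := h4 i hi
      exact ⟨w, fun _ => hw⟩
    · exact ⟨0, fun h => absurd h hi⟩
  choose w hw using h5
  refine ⟨(N', (List.range M).map (fun i => (w i).toNat),
    (List.range M).map (fun i => (-(w i)).toNat)), GG_ext fun i => ?_⟩
  rw [val_apply]
  unfold vc
  simp only
  by_cases hi : i < M
  · rw [hw i hi]
    have h6 : ((List.range M).map (fun i => (w i).toNat)).getD i 0 = (w i).toNat := by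
      rw [List.getD, List.getElem?_map, List.getElem?_range hi]
      rfl
    have h7 : ((List.range M).map (fun i => (-(w i)).toNat)).getD i 0 = (-(w i)).toNat := by
      rw [List.getD, List.getElem?_map, List.getElem?_range hi]
      rfl
    rw [h6, h7]
    congr 2
    exact Int.toNat_sub_toNat_neg (w i)
  · have h6 : ((List.range M).map (fun i => (w i).toNat)).getD i 0 = 0 := by
      rw [List.getD, List.getElem?_eq_none (by simp; omega)]
      rfl
    have h7 : ((List.range M).map (fun i => (-(w i)).toNat)).getD i 0 = 0 := by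
      rw [List.getD, List.getElem?_eq_none (by simp; omega)]
      rfl
    rw [h6, h7, hMs i (by omega)]
    simp

/-- The arithmetic identity expressing `val a + val b = val c`. -/
def Eqn (D : ℕ → ℕ → ℕ) (a b c : Tm) (i : ℕ) : Prop :=
  a.2.1.getD i 0 * (D i b.1 * D i c.1) + b.2.1.getD i 0 * (D i a.1 * D i c.1)
      + c.2.2.getD i 0 * (D i a.1 * D i b.1) =
    a.2.2.getD i 0 * (D i b.1 * D i c.1) + b.2.2.getD i 0 * (D i a.1 * D i c.1)
      + c.2.1.getD i 0 * (D i a.1 * D i b.1)

/-- bound for the relevant indices -/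
def lenB (a b c : Tm) : ℕ :=
  (a.2.1.length + a.2.2.length) + (b.2.1.length + b.2.2.length)
    + (c.2.1.length + c.2.2.length)

lemma val_add_iff (X : ℕ → Bool) (a b c : Tm) :
    val X a + val X b = val X c ↔ ∀ i < lenB a b c, Eqn (dd X) a b c i := by
  have key : ∀ i, vc X a i + vc X b i = vc X c i ↔ Eqn (dd X) a b c i := by
    intro i
    unfold vc Eqn
    have h1 : (dd X i a.1 : ℚ) ≠ 0 := by exact_mod_cast (dd_pos X i _).ne'
    have h2 : (dd X i b.1 : ℚ) ≠ 0 := by exact_mod_cast (dd_pos X i _).ne'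
    have h3 : (dd X i c.1 : ℚ) ≠ 0 := by exact_mod_cast (dd_pos X i _).ne'
    rw [← @Nat.cast_inj ℚ]
    push_cast
    rw [div_add_div _ _ h1 h2, div_eq_div_iff (mul_ne_zero h1 h2) h3]
    constructor
    · intro h
      linarith
    · intro h
      linarith
  constructor
  · intro h i _
    rw [← key i, ← val_apply, ← val_apply, ← val_apply, ← h]
    rfl
  · intro h
    apply GG_ext
    intro i
    have h1 : (((val X a + val X b) i : HH X i) : ℚ) = (val X a i : HH X i) + (val X b i : HH X i) :=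
      rfl
    rw [h1, val_apply, val_apply, val_apply, key i]
    by_cases hi : i < lenB a b c
    · exact h i hi
    · unfold lenB at hi
      unfold Eqn
      have e1 : a.2.1.getD i 0 = 0 := by
        rw [List.getD, List.getElem?_eq_none (by omega)]; rfl
      have e2 : a.2.2.getD i 0 = 0 := by
        rw [List.getD, List.getElem?_eq_none (by omega)]; rfl
      have e3 : b.2.1.getD i 0 = 0 := by
        rw [List.getD, List.getElem?_eq_none (by omega)]; rfl
      have e4 : b.2.2.getD i 0 = 0 := by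
        rw [List.getD, List.getElem?_eq_none (by omega)]; rfl
      have e5 : c.2.1.getD i 0 = 0 := by
        rw [List.getD, List.getElem?_eq_none (by omega)]; rfl
      have e6 : c.2.2.getD i 0 = 0 := by
        rw [List.getD, List.getElem?_eq_none (by omega)]; rfl
      rw [e1, e2, e3, e4, e5, e6]

instance GG_infinite (X : ℕ → Bool) : Infinite (GG X) := by
  refine Infinite.of_injective (fun n : ℕ => val X (0, [n], [])) ?_
  intro n m h
  have h1 := congrArg (fun g : GG X => ((g 0 : HH X 0) : ℚ)) h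
  simp only [val_apply] at h1
  unfold vc at h1
  simp [dd] at h1
  exact h1

end JumpDeg
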