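import Mathlib
import Pool.Agent.JumpDeg.Grp

/-!
A copy of the coding group with universe `ℕ`, uniformly computable from the oracle, and the
decoding of the oracle from arbitrary copies.
-/

namespace JumpDeg

open Encodable Denumerable

/-! ### the denominators from a string -/

lemma primrec_mo : Primrec mo := by
  have hpow : Primrec₂ ((· ^ ·) : ℕ → ℕ → ℕ) := Primrec₂.unpaired'.1 Nat.Primrec.pow
  have h : Primrec (fun n : ℕ => 2 ^ (2 ^ n) + 1) :=
    Primrec.succ.comp (hpow.comp (Primrec.const 2) (hpow.comp (Primrec.const 2) Primrec.id))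
  exact h.of_eq (fun n => rfl)

/-- denominators computed from a string -/
def ddS (σ : List Bool) (i : ℕ) (N : ℕ) : ℕ :=
  Nat.rec 1 (fun n IH => IH * (if σ.getD (Nat.pair i n) false = true then mo n else 1)) N

lemma ddS_eq (X : ℕ → Bool) (u i N : ℕ) (h : ∀ n < N, Nat.pair i n < u) :
    ddS (pre X u) i N = dd X i N := by
  induction N with
  | zero => rfl
  | succ N ih =>
    have h1 := ih (fun n hn => h n (by omega))
    have h2 : (pre X u).getD (Nat.pair i N) false = X (Nat.pair i N) := by
      rw [List.getD, getElem?_pre_of_lt _ (h N (by omega))]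
      rfl
    show ddS (pre X u) i N * (if (pre X u).getD (Nat.pair i N) false = true then mo N else 1) = _
    rw [h1, h2]
    rfl

lemma primrec_ddS : Primrec (fun q : List Bool × ℕ × ℕ => ddS q.1 q.2.1 q.2.2) := by
  have h : Primrec₂ (fun (q : List Bool × ℕ × ℕ) (p : ℕ × ℕ) =>
      p.2 * (if q.1.getD (Nat.pair q.2.1 p.1) false = true then mo p.1 else 1)) := by
    have h1 : PrimrecPred (fun z : (List Bool × ℕ × ℕ) × (ℕ × ℕ) =>
        z.1.1.getD (Nat.pair z.1.2.1 z.2.1) false = true) := by
      refine Primrec.eq.comp ?_ (Primrec.const true)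
      refine (Primrec.list_getD false).comp (Primrec.fst.comp Primrec.fst) ?_
      exact Primrec₂.natPair.comp (Primrec.fst.comp (Primrec.snd.comp Primrec.fst))
        (Primrec.fst.comp Primrec.snd)
    exact (Primrec.nat_mul.comp (Primrec.snd.comp Primrec.snd)
      (Primrec.ite h1 (primrec_mo.comp (Primrec.fst.comp Primrec.snd)) (Primrec.const 1))).to₂
  exact Primrec.nat_rec' (f := fun q : List Bool × ℕ × ℕ => q.2.2)
    (g := fun _ : List Bool × ℕ × ℕ => 1) (Primrec.snd.comp Primrec.snd) (Primrec.const 1) h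

lemma prim_Eqn {α : Type*} [Primcodable α] {S : α → List Bool} {A B C : α → Tm} {I : α → ℕ}
    (hS : Primrec S) (hA : Primrec A) (hB : Primrec B) (hC : Primrec C) (hI : Primrec I) :
    PrimrecPred (fun q => Eqn (ddS (S q)) (A q) (B q) (C q) (I q)) := by
  have pD : ∀ {f : α → Tm}, Primrec f → Primrec (fun q : α => ddS (S q) (I q) (f q).1) :=
    fun hf => primrec_ddS.comp (Primrec.pair hS (Primrec.pair hI (Primrec.fst.comp hf)))
  have pL : ∀ {f : α → Tm}, Primrec f → Primrec (fun q : α => (f q).2.1.getD (I q) 0) :=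
    fun hf => (Primrec.list_getD 0).comp (Primrec.fst.comp (Primrec.snd.comp hf)) hI
  have pR : ∀ {f : α → Tm}, Primrec f → Primrec (fun q : α => (f q).2.2.getD (I q) 0) :=
    fun hf => (Primrec.list_getD 0).comp (Primrec.snd.comp (Primrec.snd.comp hf)) hI
  have m1 := Primrec.nat_mul.comp (pD hB) (pD hC)
  have m2 := Primrec.nat_mul.comp (pD hA) (pD hC)
  have m3 := Primrec.nat_mul.comp (pD hA) (pD hB)
  exact Primrec.eq.comp
    (Primrec.nat_add.comp (Primrec.nat_add.comp (Primrec.nat_mul.comp (pL hA) m1)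
      (Primrec.nat_mul.comp (pL hB) m2)) (Primrec.nat_mul.comp (pR hC) m3))
    (Primrec.nat_add.comp (Primrec.nat_add.comp (Primrec.nat_mul.comp (pR hA) m1)
      (Primrec.nat_mul.comp (pR hB) m2)) (Primrec.nat_mul.comp (pL hC) m3))

/-- bound on the use -/
def useB (q : Tm × Tm × Tm) : ℕ :=
  Nat.pair (lenB q.1 q.2.1 q.2.2) (q.1.1 + q.2.1.1 + q.2.2.1)

lemma lt_useB (q : Tm × Tm × Tm) {i n : ℕ} (hi : i < lenB q.1 q.2.1 q.2.2)
    (hn : n ≤ q.1.1 + q.2.1.1 + q.2.2.1) : Nat.pair i n < useB q := by
  unfold useB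
  refine lt_of_lt_of_le (Nat.pair_lt_pair_left _ hi) ?_
  rcases Nat.lt_or_ge n (q.1.1 + q.2.1.1 + q.2.2.1) with h | h
  · exact (Nat.pair_lt_pair_right _ h).le
  · have : n = q.1.1 + q.2.1.1 + q.2.2.1 := le_antisymm hn h
    rw [this]

/-- the decidable form of the addition relation -/
def PPv (q : (Tm × Tm × Tm) × List Bool) : Prop :=
  ∀ i < lenB q.1.1 q.1.2.1 q.1.2.2, Eqn (ddS q.2) q.1.1 q.1.2.1 q.1.2.2 i

lemma PPv_iff (X : ℕ → Bool) (q : Tm × Tm × Tm) :
    PPv (q, pre X (useB q)) ↔ val X q.1 + val X q.2.1 = val X q.2.2 := by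
  rw [val_add_iff]
  unfold PPv
  apply forall_congr'
  intro i
  apply imp_congr_right
  intro hi
  simp only at hi ⊢
  unfold Eqn
  rw [ddS_eq X _ i q.1.1 (fun n hn => lt_useB q hi (by omega)),
    ddS_eq X _ i q.2.1.1 (fun n hn => lt_useB q hi (by omega)),
    ddS_eq X _ i q.2.2.1 (fun n hn => lt_useB q hi (by omega))]

lemma primrec_lenB : Primrec (fun q : Tm × Tm × Tm => lenB q.1 q.2.1 q.2.2) := by
  have h : Primrec (fun a : Tm => a.2.1.length + a.2.2.length) :=
    Primrec.nat_add.comp (Primrec.list_length.comp (Primrec.fst.comp Primrec.snd))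
      (Primrec.list_length.comp (Primrec.snd.comp Primrec.snd))
  unfold lenB
  exact Primrec.nat_add.comp (Primrec.nat_add.comp (h.comp Primrec.fst)
    (h.comp (Primrec.fst.comp Primrec.snd))) (h.comp (Primrec.snd.comp Primrec.snd))

lemma primrec_useB : Primrec useB := by
  unfold useB
  refine Primrec₂.natPair.comp primrec_lenB ?_
  exact Primrec.nat_add.comp (Primrec.nat_add.comp (Primrec.fst.comp Primrec.fst)
    (Primrec.fst.comp (Primrec.fst.comp Primrec.snd)))
    (Primrec.fst.comp (Primrec.snd.comp Primrec.snd))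

lemma prim_PPv : PrimrecPred PPv := by
  refine prim_forall_lt (p := fun q : ((Tm × Tm × Tm) × List Bool) × ℕ =>
    Eqn (ddS q.1.2) q.1.1.1 q.1.1.2.1 q.1.1.2.2 q.2) ?_
    (f := fun q : (Tm × Tm × Tm) × List Bool => lenB q.1.1 q.1.2.1 q.1.2.2)
    (primrec_lenB.comp Primrec.fst)
  exact prim_Eqn (Primrec.snd.comp Primrec.fst) (Primrec.fst.comp (Primrec.fst.comp Primrec.fst))
    (Primrec.fst.comp (Primrec.snd.comp (Primrec.fst.comp Primrec.fst)))
    (Primrec.snd.comp (Primrec.snd.comp (Primrec.fst.comp Primrec.fst))) Primrec.snd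

section
variable {D : Set (ℕ → Bool)}

lemma sig_val : Sig D (fun X (q : Tm × Tm × Tm) => val X q.1 + val X q.2.1 = val X q.2.2) :=
  (Sig.bounded prim_PPv primrec_useB).congr (fun X _ q => (PPv_iff X q).symm)

lemma sig_val_not :
    Sig D (fun X (q : Tm × Tm × Tm) => ¬ (val X q.1 + val X q.2.1 = val X q.2.2)) :=
  (Sig.bounded prim_PPv.not primrec_useB).congr (fun X _ q => not_congr (PPv_iff X q).symm)

end

/-- decoding of a number as a term -/
def dec (n : ℕ) : Tm := ((decode n : Option Tm)).getD (0, [], [])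

lemma primrec_dec : Primrec dec :=
  Primrec.option_getD.comp Primrec.decode (Primrec.const (0, [], []))

lemma dec_encode (a : Tm) : dec (encode a) = a := by
  unfold dec
  rw [encodek]
  rfl

/-- the value of a number -/
def vv (X : ℕ → Bool) (n : ℕ) : GG X := val X (dec n)

lemma vv_surj (X : ℕ → Bool) : Function.Surjective (vv X) := by
  intro g
  obtain ⟨a, ha⟩ := val_surj X g
  exact ⟨encode a, by unfold vv; rw [dec_encode, ha]⟩

/-- a number of value zero -/
def nz : ℕ := encode ((0, [], []) : Tm)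

lemma vv_nz (X : ℕ → Bool) : vv X nz = 0 := by
  unfold vv nz
  rw [dec_encode]
  apply GG_ext
  intro i
  rw [val_apply]
  simp [vc]

section
variable {D : Set (ℕ → Bool)}

lemma sig_vv : Sig D (fun X (q : ℕ × ℕ × ℕ) => vv X q.1 + vv X q.2.1 = vv X q.2.2) :=
  sig_val.comp (f := fun q : ℕ × ℕ × ℕ => (dec q.1, dec q.2.1, dec q.2.2))
    (Primrec.pair (primrec_dec.comp Primrec.fst) (Primrec.pair
      (primrec_dec.comp (Primrec.fst.comp Primrec.snd))
      (primrec_dec.comp (Primrec.snd.comp Primrec.snd))))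

lemma sig_vv_not : Sig D (fun X (q : ℕ × ℕ × ℕ) => ¬ (vv X q.1 + vv X q.2.1 = vv X q.2.2)) :=
  sig_val_not.comp (f := fun q : ℕ × ℕ × ℕ => (dec q.1, dec q.2.1, dec q.2.2))
    (Primrec.pair (primrec_dec.comp Primrec.fst) (Primrec.pair
      (primrec_dec.comp (Primrec.fst.comp Primrec.snd))
      (primrec_dec.comp (Primrec.snd.comp Primrec.snd))))

lemma sig_eq : Sig D (fun X (q : ℕ × ℕ) => vv X q.1 = vv X q.2) := by
  refine (sig_vv.comp (f := fun q : ℕ × ℕ => (q.1, nz, q.2)) (Primrec.pair Primrec.fst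
    (Primrec.pair (Primrec.const nz) Primrec.snd))).congr ?_
  intro X _ q
  simp only [vv_nz, add_zero]

lemma sig_ne : Sig D (fun X (q : ℕ × ℕ) => ¬ (vv X q.1 = vv X q.2)) := by
  refine (sig_vv_not.comp (f := fun q : ℕ × ℕ => (q.1, nz, q.2)) (Primrec.pair Primrec.fst
    (Primrec.pair (Primrec.const nz) Primrec.snd))).congr ?_
  intro X _ q
  simp only [vv_nz, add_zero]

end

/-- `n` is the first number of its value -/
noncomputable def first (X : ℕ → Bool) (n : ℕ) : Bool :=
  open Classical in decide (∀ m < n, ¬ (vv X m = vv X n))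

lemma first_iff {X : ℕ → Bool} {n : ℕ} : first X n = true ↔ ∀ m < n, ¬ (vv X m = vv X n) := by
  unfold first
  simp

lemma sig_first {D : Set (ℕ → Bool)} : Sig D (fun X (p : ℕ × Bool) => first X p.1 = p.2) := by
  have h1 : Sig D (fun X (p : ℕ × Bool) => ∀ m < p.1, ¬ (vv X m = vv X p.1)) :=
    (sig_ne.comp (f := fun q : (ℕ × Bool) × ℕ => (q.2, q.1.1)) (Primrec.pair Primrec.snd
      (Primrec.fst.comp Primrec.fst))).ball (f := fun p : ℕ × Bool => p.1) Primrec.fst
  have h2 : Sig D (fun X (p : ℕ × Bool) => ∃ m, m < p.1 ∧ vv X m = vv X p.1) := by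
    have h3 : Sig D (fun X (q : (ℕ × Bool) × ℕ) => q.2 < q.1.1 ∧ vv X q.2 = vv X q.1.1) :=
      (Sig.of_prim (Primrec.nat_lt.comp Primrec.snd (Primrec.fst.comp Primrec.fst))).and
        (sig_eq.comp (f := fun q : (ℕ × Bool) × ℕ => (q.2, q.1.1)) (Primrec.pair Primrec.snd
          (Primrec.fst.comp Primrec.fst)))
    exact h3.ex
  have pt : PrimrecPred (fun p : ℕ × Bool => p.2 = true) :=
    Primrec.eq.comp Primrec.snd (Primrec.const true)
  have pf : PrimrecPred (fun p : ℕ × Bool => p.2 = false) :=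
    Primrec.eq.comp Primrec.snd (Primrec.const false)
  refine (((Sig.of_prim pt).and h1).or ((Sig.of_prim pf).and h2)).congr ?_
  rintro X _ ⟨n, b⟩
  cases b with
  | true => simp [first_iff]
  | false =>
    simp only [false_and, false_or, true_and, reduceCtorEq]
    rw [← Bool.not_eq_true, first_iff]
    push Not
    rfl

lemma first_infinite (X : ℕ → Bool) : (Set.ofPred (fun n => first X n = true)).Infinite := by
  classical
  intro hfin
  have h1 : (Set.univ : Set (GG X)) ⊆ vv X '' (Set.ofPred (fun n => first X n = true)) := by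
    intro g _
    have hex : ∃ n, vv X n = g := vv_surj X g
    refine ⟨Nat.find hex, ?_, Nat.find_spec hex⟩
    rw [Set.mem_ofPred_eq, first_iff]
    intro m hm hcon
    exact Nat.find_min hex hm (hcon.trans (Nat.find_spec hex))
  exact Set.infinite_univ ((hfin.image _).subset h1)

/-- enumeration of the first numbers -/
noncomputable def en (X : ℕ → Bool) (a : ℕ) : ℕ := Nat.nth (fun n => first X n = true) a

lemma en_iff {X : ℕ → Bool} {a u : ℕ} :
    en X a = u ↔ first X u = true ∧ Nat.count (fun n => first X n = true) u = a := by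
  unfold en
  constructor
  · rintro rfl
    exact ⟨Nat.nth_mem_of_infinite (first_infinite X) a,
      Nat.count_nth_of_infinite (first_infinite X) a⟩
  · rintro ⟨h1, h2⟩
    rw [← h2]
    exact Nat.nth_count (p := fun n => first X n = true) h1

lemma count_pre (F : ℕ → Bool) (n : ℕ) :
    ((pre F n).filter (fun b => decide (b = true))).length
      = Nat.count (fun k => F k = true) n := by
  unfold Nat.count pre
  rw [← List.countP_eq_length_filter, List.countP_map]
  apply List.countP_congr
  intro x _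
  simp

lemma sig_en {D : Set (ℕ → Bool)} : Sig D (fun X (q : ℕ × ℕ) => en X q.1 = q.2) := by
  have h1 : Sig Set.univ (fun F (q : ℕ × ℕ) => F q.2 = true ∧
      ((pre F q.2).filter (fun b => decide (b = true))).length = q.1) := by
    refine (Sig.oracle Primrec.snd (Primrec.const true)).and ?_
    refine Sig.bounded (P := fun q : (ℕ × ℕ) × List Bool =>
      (q.2.filter (fun b => decide (b = true))).length = q.1.1) ?_ (u := fun q : ℕ × ℕ => q.2)
      Primrec.snd
    refine Primrec.eq.comp (Primrec.list_length.comp ?_) (Primrec.fst.comp Primrec.fst)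
    have h2 : PrimrecPred (fun b : Bool => b = true) := Primrec.eq.comp Primrec.id
      (Primrec.const true)
    exact (Primrec.listFilter h2).comp Primrec.snd
  refine (h1.subst (D := D) (G := first) sig_first (fun _ _ => Set.mem_univ _)).congr ?_
  intro X _ q
  rw [en_iff, count_pre]

lemma EE_bij (X : ℕ → Bool) : Function.Bijective (fun a => vv X (en X a)) := by
  classical
  constructor
  · intro a b h
    simp only at h
    have h1 := (en_iff (X := X) (a := a) (u := en X a)).1 rfl
    have h2 := (en_iff (X := X) (a := b) (u := en X b)).1 rfl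
    have h3 : en X a = en X b := by
      rcases lt_trichotomy (en X a) (en X b) with hlt | heq | hlt
      · exact absurd h (first_iff.1 h2.1 _ hlt)
      · exact heq
      · exact absurd h.symm (first_iff.1 h1.1 _ hlt)
    rw [← h1.2, ← h2.2, h3]
  · intro g
    have hex : ∃ n, vv X n = g := vv_surj X g
    have h1 : first X (Nat.find hex) = true := by
      rw [first_iff]
      intro m hm hcon
      exact Nat.find_min hex hm (hcon.trans (Nat.find_spec hex))
    refine ⟨Nat.count (fun n => first X n = true) (Nat.find hex), ?_⟩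
    simp only
    rw [(en_iff (X := X)).2 ⟨h1, rfl⟩]
    exact Nat.find_spec hex

/-- the isomorphism from `ℕ` onto the coding group -/
noncomputable def EE (X : ℕ → Bool) : ℕ ≃ GG X := Equiv.ofBijective _ (EE_bij X)

/-- the group operation of the copy computed from `X` -/
noncomputable def opX (X : ℕ → Bool) (a b : ℕ) : ℕ := (EE X).symm (EE X a + EE X b)

lemma isCopy_opX (X : ℕ → Bool) : IsCopy (GG X) (opX X) :=
  ⟨EE X, fun a b => by unfold opX; rw [Equiv.apply_symm_apply]⟩

lemma diagram_iff (X : ℕ → Bool) (n : ℕ) : diagram (opX X) n = true ↔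
    vv X (en X n.unpair.1.unpair.1) + vv X (en X n.unpair.1.unpair.2)
      = vv X (en X n.unpair.2) := by
  unfold diagram opX
  rw [decide_eq_true_iff, Equiv.symm_apply_eq]
  rfl

lemma sig_diagram {D : Set (ℕ → Bool)} :
    Sig D (fun X (p : ℕ × Bool) => diagram (opX X) p.1 = p.2) := by
  let Q : Type := (ℕ × Bool) × (ℕ × ℕ × ℕ)
  have pn : Primrec (fun q : Q => q.1.1.unpair) :=
    Primrec.unpair.comp (Primrec.fst.comp Primrec.fst)
  have pn1 : Primrec (fun q : Q => q.1.1.unpair.1.unpair) :=
    Primrec.unpair.comp (Primrec.fst.comp pn)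
  have e1 : Sig D (fun X (q : Q) => en X q.1.1.unpair.1.unpair.1 = q.2.1) :=
    sig_en.comp (f := fun q : Q => (q.1.1.unpair.1.unpair.1, q.2.1))
      (Primrec.pair (Primrec.fst.comp pn1) (Primrec.fst.comp Primrec.snd))
  have e2 : Sig D (fun X (q : Q) => en X q.1.1.unpair.1.unpair.2 = q.2.2.1) :=
    sig_en.comp (f := fun q : Q => (q.1.1.unpair.1.unpair.2, q.2.2.1))
      (Primrec.pair (Primrec.snd.comp pn1) (Primrec.fst.comp (Primrec.snd.comp Primrec.snd)))
  have e3 : Sig D (fun X (q : Q) => en X q.1.1.unpair.2 = q.2.2.2) :=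
    sig_en.comp (f := fun q : Q => (q.1.1.unpair.2, q.2.2.2))
      (Primrec.pair (Primrec.snd.comp pn) (Primrec.snd.comp (Primrec.snd.comp Primrec.snd)))
  have s1 : Sig D (fun X (q : Q) => vv X q.2.1 + vv X q.2.2.1 = vv X q.2.2.2) :=
    sig_vv.comp (f := fun q : Q => q.2) Primrec.snd
  have s2 : Sig D (fun X (q : Q) => ¬ (vv X q.2.1 + vv X q.2.2.1 = vv X q.2.2.2)) :=
    sig_vv_not.comp (f := fun q : Q => q.2) Primrec.snd
  have pt : PrimrecPred (fun q : Q => q.1.2 = true) :=
    Primrec.eq.comp (Primrec.snd.comp Primrec.fst) (Primrec.const true)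
  have pf : PrimrecPred (fun q : Q => q.1.2 = false) :=
    Primrec.eq.comp (Primrec.snd.comp Primrec.fst) (Primrec.const false)
  have h := (((e1.and e2).and e3).and (((Sig.of_prim pt).and s1).or
    ((Sig.of_prim pf).and s2))).ex (α := ℕ × Bool) (β := ℕ × ℕ × ℕ)
  refine h.congr ?_
  rintro X _ ⟨n, b⟩
  simp only
  constructor
  · intro hb
    refine ⟨(_, _, _), ⟨⟨rfl, rfl⟩, rfl⟩, ?_⟩
    cases b with
    | true => exact Or.inl ⟨rfl, (diagram_iff X n).1 hb⟩
    | false =>
      refine Or.inr ⟨rfl, fun hc => ?_⟩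
      have := (diagram_iff X n).2 hc
      rw [hb] at this
      cases this
  · rintro ⟨⟨u, v, w⟩, ⟨⟨h1, h2⟩, h3⟩, h4⟩
    simp only at h1 h2 h3 h4
    subst h1 h2 h3
    rcases h4 with ⟨rfl, h4⟩ | ⟨rfl, h4⟩
    · exact (diagram_iff X n).2 h4
    · rw [← Bool.not_eq_true]
      intro hc
      exact h4 ((diagram_iff X n).1 hc)

/-! ### decoding -/

/-- From any copy of the coding group one can enumerate each column. -/
lemma sig_decode (X : ℕ → Bool) (op : ℕ → ℕ → ℕ) (h : IsCopy (GG X) op) (i : ℕ) :
    Sig {diagram op} (fun _ (n : ℕ) => X (Nat.pair i n) = true) := by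
  classical
  obtain ⟨e, he⟩ := h
  set z₀ : ℕ := e.symm 0 with hz₀
  set x₀ : ℕ := e.symm (DirectSum.of (fun i => HH X i) i ⟨1, one_mem_HH X i⟩) with hx₀
  -- multiples
  let ml : ℕ × ℕ → ℕ := fun q => e.symm (q.2 • e q.1)
  have hml : Sig {diagram op} (fun _ (q : (ℕ × ℕ) × ℕ) => ml q.1 = q.2) := by
    have h1 : PrimrecPred (fun q : ((ℕ × ℕ) × ℕ) × List ℕ =>
        q.2[0]? = some z₀ ∧ q.2[q.1.1.2]? = some q.1.2) :=
      PrimrecPred.and
        (Primrec.eq.comp (Primrec.list_getElem?.comp Primrec.snd (Primrec.const 0))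
          (Primrec.const (some z₀)))
        (Primrec.eq.comp (Primrec.list_getElem?.comp Primrec.snd
          (Primrec.snd.comp (Primrec.fst.comp Primrec.fst)))
          (Primrec.option_some.comp (Primrec.snd.comp Primrec.fst)))
    have h2 : Sig {diagram op} (fun Y (q : ((((ℕ × ℕ) × ℕ) × List ℕ) × ℕ) × (ℕ × ℕ)) =>
        (q.1.1.2[q.1.2]? = some q.2.1 ∧ q.1.1.2[q.1.2 + 1]? = some q.2.2) ∧
          Y (Nat.pair (Nat.pair q.2.1 q.1.1.1.1.1) q.2.2) = true) := by
      refine (Sig.of_prim (PrimrecPred.and ?_ ?_)).and ?_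
      · exact Primrec.eq.comp (Primrec.list_getElem?.comp
          (Primrec.snd.comp (Primrec.fst.comp Primrec.fst)) (Primrec.snd.comp Primrec.fst))
          (Primrec.option_some.comp (Primrec.fst.comp Primrec.snd))
      · exact Primrec.eq.comp (Primrec.list_getElem?.comp
          (Primrec.snd.comp (Primrec.fst.comp Primrec.fst))
          (Primrec.succ.comp (Primrec.snd.comp Primrec.fst)))
          (Primrec.option_some.comp (Primrec.snd.comp Primrec.snd))
      · refine Sig.oracle ?_ (Primrec.const true)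
        refine Primrec₂.natPair.comp (Primrec₂.natPair.comp (Primrec.fst.comp Primrec.snd) ?_)
          (Primrec.snd.comp Primrec.snd)
        exact Primrec.fst.comp (Primrec.fst.comp (Primrec.fst.comp
          (Primrec.fst.comp Primrec.fst)))
    have h3 := h2.ex.ball (f := fun q : ((ℕ × ℕ) × ℕ) × List ℕ => q.1.1.2)
      (Primrec.snd.comp (Primrec.fst.comp Primrec.fst))
    refine ((Sig.of_prim h1).and h3).ex.congr ?_
    rintro Y hY ⟨⟨y, k⟩, z⟩
    have hY' : Y = diagram op := hY
    subst hY'
    have hstep : ∀ j, op (ml (y, j)) y = ml (y, j + 1) := by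
      intro j
      apply e.injective
      rw [he]
      simp only [ml, Equiv.apply_symm_apply]
      rw [succ_nsmul]
    have h0 : ml (y, 0) = z₀ := by simp [ml, hz₀]
    simp only
    constructor
    · intro hz
      refine ⟨(List.range (k + 1)).map (fun j => ml (y, j)), ⟨?_, ?_⟩, ?_⟩
      · rw [List.getElem?_map, List.getElem?_range (by omega)]
        simp [h0]
      · rw [List.getElem?_map, List.getElem?_range (by omega)]
        simp [hz]
      · intro j hj
        refine ⟨(ml (y, j), ml (y, j + 1)), ⟨?_, ?_⟩, ?_⟩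
        · simp only
          rw [List.getElem?_map, List.getElem?_range (by omega)]
          rfl
        · simp only
          rw [List.getElem?_map, List.getElem?_range (by omega)]
          rfl
        · simp only [diagram, Nat.unpair_pair]
          simp [hstep]
    · rintro ⟨L, ⟨h4, h5⟩, h6⟩
      have key : ∀ j ≤ k, L[j]? = some (ml (y, j)) := by
        intro j
        induction j with
        | zero => intro _; rw [h0]; exact h4
        | succ j ih =>
          intro hj
          obtain ⟨⟨u, v⟩, ⟨h7, h8⟩, h9⟩ := h6 j (by omega)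
          simp only [diagram, Nat.unpair_pair, decide_eq_true_eq] at h7 h8 h9
          rw [ih (by omega)] at h7
          rw [h8, ← h9, ← Option.some.inj h7, hstep]
      have := key k le_rfl
      rw [h5] at this
      exact (Option.some.inj this).symm
  have h1 : Sig {diagram op} (fun _ (q : ℕ × ℕ) => ml (q.2, mo q.1) = x₀) :=
    hml.comp (f := fun q : ℕ × ℕ => ((q.2, mo q.1), x₀))
      (Primrec.pair (Primrec.pair Primrec.snd (primrec_mo.comp Primrec.fst)) (Primrec.const x₀))
  refine h1.ex.congr ?_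
  intro Y _ n
  rw [← inv_mem_HH]
  have hmo : (mo n : ℚ) ≠ 0 := by exact_mod_cast (mo_pos n).ne'
  constructor
  · intro hn
    refine ⟨e.symm (DirectSum.of (fun i => HH X i) i ⟨_, hn⟩), ?_⟩
    simp only [ml, hx₀, Equiv.apply_symm_apply]
    congr 1
    rw [← map_nsmul]
    congr 1
    apply Subtype.ext
    simp only [AddSubgroup.coe_nsmul, nsmul_eq_mul]
    field_simp
  · rintro ⟨y, hy⟩
    simp only [ml, hx₀] at hy
    have h2 := e.symm.injective hy
    have h3 : ((((mo n • e y : GG X)) i : HH X i) : ℚ) = 1 := by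
      rw [h2, DirectSum.of_eq_same]
    have h4 : ((((mo n • e y : GG X)) i : HH X i) : ℚ) = mo n * ((e y) i : HH X i) := by
      have h5 : ((mo n • e y : GG X)) i = mo n • ((e y) i) := rfl
      rw [h5]
      simp
    rw [h4] at h3
    have h6 : (1 : ℚ) / mo n = ((e y) i : HH X i) := by
      field_simp
      linarith
    rw [h6]
    exact ((e y) i).2

end JumpDeg
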