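import Mathlib
import Pool.Agent.JumpDeg.Copy

/-!
The main theorem, in terms of relative computability `Red`.
-/

namespace JumpDeg

open Encodable Denumerable

section
variable (r : ℕ → ℕ → Prop) [IsWellFounded ℕ r]

lemma red_copy (Z X : ℕ → Bool) (k : ℕ)
    (hgen : ∀ k', Relation.TransGen r k' k → Generic (iterJump r Z k') X) :
    Red (iterJump r (diagram (opX X)) k) (join X (iterJump r Z k)) := by
  obtain ⟨R, h1, h2, h3⟩ := sig_diagram (D := Set.univ)
  refine red_iterJump_generic r Z (V := fun _ q => R q) (Sig.of_prim h1)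
    (fun _ q σ τ h hR => h2 q σ τ h hR) X _ (fun Y j b => h3 X (Set.mem_univ _) (j, b)) k hgen

/-- The ground oracle. -/
def zeroOracle : ℕ → Bool := fun _ => false

lemma red_zero (B : ℕ → Bool) : Red zeroOracle B := by
  unfold Red
  refine (Sig.of_prim (p := fun p : ℕ × Bool => false = p.2) ?_).congr (fun _ _ _ => Iff.rfl)
  exact Primrec.eq.comp (Primrec.const false) Primrec.snd

lemma IsCopy.of_equiv {G H : Type*} [AddCommGroup G] [AddCommGroup H] {op : ℕ → ℕ → ℕ}
    (h : IsCopy G op) (e : Nonempty (G ≃+ H)) : IsCopy H op := by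
  obtain ⟨f, hf⟩ := h
  obtain ⟨e⟩ := e
  refine ⟨f.trans e.toEquiv, fun a b => ?_⟩
  show e (f (op a b)) = e (f a) + e (f b)
  rw [hf, map_add]

variable [IsTrans ℕ r]

theorem core (m : ℕ) : ∃ X : ℕ → Bool,
    (∃ op, IsCopy (GG X) op ∧
      Red (iterJump r (diagram op) m) (iterJump r zeroOracle m)) ∧
    (∀ k, r k m → ∀ op, IsCopy (GG X) op →
      ¬ ∀ op', IsCopy (GG X) op' →
        Red (iterJump r (diagram op) k) (iterJump r (diagram op') k)) := by
  obtain ⟨X, hX1, hX2⟩ := exists_generic r zeroOracle m
  have htg : ∀ {a b}, Relation.TransGen r a b → r a b := by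
    intro a b h
    induction h with
    | single h => exact h
    | tail _ h ih => exact _root_.trans ih h
  refine ⟨X, ⟨opX X, isCopy_opX X, ?_⟩, ?_⟩
  · have h1 := red_copy r zeroOracle X m (fun k' hk' => hX2 k' (htg hk'))
    exact h1.trans (hX1.join (Red.refl _))
  · intro k hk op hop hleast
    classical
    set Y := iterJump r zeroOracle k with hY
    let F : ℕ → ℕ → Bool := fun j => if r j k then iterJump r zeroOracle j else Y
    have hF : ∀ j, Generic (F j) X := by
      intro j
      by_cases hj : r j k
      · have : F j = iterJump r zeroOracle j := if_pos hj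
        rw [this]
        exact hX2 j (_root_.trans hj hk)
      · have : F j = Y := if_neg hj
        rw [this]
        exact hX2 k hk
    obtain ⟨p, hp⟩ := category (X := X) (Y := Y) (c := iterJump r (diagram op) k) F hF (by
      intro π hπ
      have h1 : IsCopy (GG X) (opX (colPerm π X)) :=
        (isCopy_opX (colPerm π X)).of_equiv (GG_colPerm π X)
      have h2 := hleast _ h1
      have h3 := red_copy r zeroOracle (colPerm π X) k (by
        intro k' hk'
        have h4 := hπ k'
        have : F k' = iterJump r zeroOracle k' := if_pos (htg hk')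
        rw [this] at h4
        exact h4)
      exact h2.trans h3)
    obtain ⟨i, hi⟩ := Infinite.exists_notMem_finset p.toFinset
    rw [List.mem_toFinset] at hi
    have h5 := hp i hi
    have h6 : Sig {join (eraseCol i X) Y} (fun _ (n : ℕ) => X (Nat.pair i n) = true) :=
      ((red_base r (diagram op) k).trans h5).sig (sig_decode X op hop i)
    exact col_not_sig (hX2 k hk) i h6

end

end JumpDeg
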