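import Mathlib
import Pool.Agent.JumpDeg.Core

/-!
Comparison with Mathlib's `Nat.RecursiveIn`, `TuringReducible` and `TuringDegree`, and
completeness of the jump.
-/

namespace JumpDeg

open Encodable Denumerable
open Nat.Partrec (Code)

lemma mem_chi {A : ℕ → Bool} {n v : ℕ} : v ∈ chi A n ↔ v = if A n = true then 1 else 0 := by
  unfold chi
  exact Part.mem_some_iff

/-- graphs of functions recursive in `B` are semi-decidable in `B` -/
theorem sig_of_recursiveIn {B : ℕ → Bool} {f : ℕ →. ℕ} (h : Nat.RecursiveIn {chi B} f) :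
    Sig {B} (fun _ (p : ℕ × ℕ) => p.2 ∈ f p.1) := by
  induction h with
  | zero =>
    refine (Sig.of_prim (p := fun p : ℕ × ℕ => p.2 = 0)
      (Primrec.eq.comp Primrec.snd (Primrec.const 0))).congr ?_
    rintro _ _ ⟨n, v⟩
    simp only
    exact Part.mem_some_iff
  | succ =>
    refine (Sig.of_prim (p := fun p : ℕ × ℕ => p.2 = p.1 + 1)
      (Primrec.eq.comp Primrec.snd (Primrec.succ.comp Primrec.fst))).congr ?_
    rintro _ _ ⟨n, v⟩
    simp only
    exact Part.mem_some_iff
  | left =>
    refine (Sig.of_prim (p := fun p : ℕ × ℕ => p.2 = p.1.unpair.1)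
      (Primrec.eq.comp Primrec.snd
        (Primrec.fst.comp (Primrec.unpair.comp Primrec.fst)))).congr ?_
    rintro _ _ ⟨n, v⟩
    simp only
    exact Part.mem_some_iff
  | right =>
    refine (Sig.of_prim (p := fun p : ℕ × ℕ => p.2 = p.1.unpair.2)
      (Primrec.eq.comp Primrec.snd
        (Primrec.snd.comp (Primrec.unpair.comp Primrec.fst)))).congr ?_
    rintro _ _ ⟨n, v⟩
    simp only
    exact Part.mem_some_iff
  | oracle g hg =>
    have hg' : g = chi B := hg
    subst hg'
    have h1 : Sig {B} (fun X (p : ℕ × ℕ) => X p.1 = true ∧ p.2 = 1) :=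
      (Sig.oracle Primrec.fst (Primrec.const true)).and
        (Sig.of_prim (Primrec.eq.comp Primrec.snd (Primrec.const 1)))
    have h2 : Sig {B} (fun X (p : ℕ × ℕ) => X p.1 = false ∧ p.2 = 0) :=
      (Sig.oracle Primrec.fst (Primrec.const false)).and
        (Sig.of_prim (Primrec.eq.comp Primrec.snd (Primrec.const 0)))
    refine (h1.or h2).congr ?_
    rintro X hX ⟨n, v⟩
    have hX' : X = B := hX
    subst hX'
    simp only
    rw [mem_chi]
    cases hx : X n <;> simp
  | @pair f h _ _ ihf ihh =>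
    have h1 : Sig {B} (fun _ (q : (ℕ × ℕ) × (ℕ × ℕ)) => q.2.1 ∈ f q.1.1 ∧ q.2.2 ∈ h q.1.1) :=
      (ihf.comp (f := fun q : (ℕ × ℕ) × (ℕ × ℕ) => (q.1.1, q.2.1))
        (Primrec.pair (Primrec.fst.comp Primrec.fst) (Primrec.fst.comp Primrec.snd))).and
      (ihh.comp (f := fun q : (ℕ × ℕ) × (ℕ × ℕ) => (q.1.1, q.2.2))
        (Primrec.pair (Primrec.fst.comp Primrec.fst) (Primrec.snd.comp Primrec.snd)))
    have h2 : PrimrecPred (fun q : (ℕ × ℕ) × (ℕ × ℕ) => q.1.2 = Nat.pair q.2.1 q.2.2) :=
      Primrec.eq.comp (Primrec.snd.comp Primrec.fst) (Primrec₂.natPair.comp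
        (Primrec.fst.comp Primrec.snd) (Primrec.snd.comp Primrec.snd))
    refine (h1.and (Sig.of_prim h2)).ex.congr ?_
    rintro _ _ ⟨n, v⟩
    simp [Seq.seq]
    constructor
    · rintro ⟨a, ha, b, hb, rfl⟩
      exact ⟨a, b, ⟨ha, hb⟩, rfl⟩
    · rintro ⟨a, b, ⟨ha, hb⟩, rfl⟩
      exact ⟨a, ha, b, hb, rfl⟩
  | @comp f h _ _ ihf ihh =>
    have h1 : Sig {B} (fun _ (q : (ℕ × ℕ) × ℕ) => q.2 ∈ h q.1.1 ∧ q.1.2 ∈ f q.2) :=
      (ihh.comp (f := fun q : (ℕ × ℕ) × ℕ => (q.1.1, q.2))
        (Primrec.pair (Primrec.fst.comp Primrec.fst) Primrec.snd)).and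
      (ihf.comp (f := fun q : (ℕ × ℕ) × ℕ => (q.2, q.1.2))
        (Primrec.pair Primrec.snd (Primrec.snd.comp Primrec.fst)))
    refine h1.ex.congr ?_
    rintro _ _ ⟨n, v⟩
    exact Part.mem_bind_iff
  | @prec f h _ _ ihf ihh =>
    have h0 : Sig {B} (fun _ (q : ((ℕ × ℕ) × List ℕ) × ℕ) =>
        (q.1.2[0]? = some q.2 ∧ q.1.2[q.1.1.1.unpair.2]? = some q.1.1.2) ∧
          q.2 ∈ f q.1.1.1.unpair.1) := by
      refine (Sig.of_prim (PrimrecPred.and ?_ ?_)).and ?_
      · exact Primrec.eq.comp (Primrec.list_getElem?.comp (Primrec.snd.comp Primrec.fst)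
          (Primrec.const 0)) (Primrec.option_some.comp Primrec.snd)
      · exact Primrec.eq.comp (Primrec.list_getElem?.comp (Primrec.snd.comp Primrec.fst)
          (Primrec.snd.comp (Primrec.unpair.comp
            (Primrec.fst.comp (Primrec.fst.comp Primrec.fst)))))
          (Primrec.option_some.comp (Primrec.snd.comp (Primrec.fst.comp Primrec.fst)))
      · exact ihf.comp (f := fun q : ((ℕ × ℕ) × List ℕ) × ℕ => (q.1.1.1.unpair.1, q.2))
          (Primrec.pair (Primrec.fst.comp (Primrec.unpair.comp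
            (Primrec.fst.comp (Primrec.fst.comp Primrec.fst)))) Primrec.snd)
    have h2 : Sig {B} (fun _ (q : (((ℕ × ℕ) × List ℕ) × ℕ) × (ℕ × ℕ)) =>
        (q.1.1.2[q.1.2]? = some q.2.1 ∧ q.1.1.2[q.1.2 + 1]? = some q.2.2) ∧
          q.2.2 ∈ h (Nat.pair q.1.1.1.1.unpair.1 (Nat.pair q.1.2 q.2.1))) := by
      refine (Sig.of_prim (PrimrecPred.and ?_ ?_)).and ?_
      · exact Primrec.eq.comp (Primrec.list_getElem?.comp
          (Primrec.snd.comp (Primrec.fst.comp Primrec.fst)) (Primrec.snd.comp Primrec.fst))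
          (Primrec.option_some.comp (Primrec.fst.comp Primrec.snd))
      · exact Primrec.eq.comp (Primrec.list_getElem?.comp
          (Primrec.snd.comp (Primrec.fst.comp Primrec.fst))
          (Primrec.succ.comp (Primrec.snd.comp Primrec.fst)))
          (Primrec.option_some.comp (Primrec.snd.comp Primrec.snd))
      · refine ihh.comp (f := fun q : (((ℕ × ℕ) × List ℕ) × ℕ) × (ℕ × ℕ) =>
          (Nat.pair q.1.1.1.1.unpair.1 (Nat.pair q.1.2 q.2.1), q.2.2)) ?_
        refine Primrec.pair (Primrec₂.natPair.comp ?_ ?_) (Primrec.snd.comp Primrec.snd)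
        · exact Primrec.fst.comp (Primrec.unpair.comp (Primrec.fst.comp
            (Primrec.fst.comp (Primrec.fst.comp Primrec.fst))))
        · exact Primrec₂.natPair.comp (Primrec.snd.comp Primrec.fst)
            (Primrec.fst.comp Primrec.snd)
    have h3 := h2.ex.ball (f := fun q : (ℕ × ℕ) × List ℕ => q.1.1.unpair.2)
      (Primrec.snd.comp (Primrec.unpair.comp (Primrec.fst.comp Primrec.fst)))
    refine (h0.ex.and h3).ex.congr ?_
    rintro _ _ ⟨p, v⟩
    simp only
    set a := p.unpair.1 with ha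
    set n := p.unpair.2 with hn
    let G : ℕ → Part ℕ := fun n => (n.rec (f a) fun y IH => do
      let i ← IH
      h (Nat.pair a (Nat.pair y i)) : Part ℕ)
    have Gs : ∀ j w, w ∈ G (j + 1) ↔ ∃ u, u ∈ G j ∧ w ∈ h (Nat.pair a (Nat.pair j u)) := by
      intro j w
      show w ∈ ((G j).bind fun i => h (Nat.pair a (Nat.pair j i))) ↔ _
      simp
    show v ∈ G n ↔ _
    constructor
    · intro hv
      -- build the history
      have key : ∀ m w, w ∈ G m → ∃ L : List ℕ, L.length = m + 1 ∧ (∃ u, L[0]? = some u ∧ u ∈ f a) ∧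
          L[m]? = some w ∧ ∀ j < m, ∃ u v, L[j]? = some u ∧ L[j + 1]? = some v ∧
            v ∈ h (Nat.pair a (Nat.pair j u)) := by
        intro m
        induction m with
        | zero =>
          intro w hw
          exact ⟨[w], rfl, ⟨w, rfl, hw⟩, rfl, fun j hj => by omega⟩
        | succ m ih =>
          intro w hw
          obtain ⟨u, hu1, hu2⟩ := (Gs m w).1 hw
          obtain ⟨L, hL0, ⟨u0, hL1, hL1'⟩, hL2, hL3⟩ := ih u hu1
          refine ⟨L ++ [w], by simp [hL0], ⟨u0, ?_, hL1'⟩, ?_, ?_⟩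
          · rw [List.getElem?_append_left (by omega)]
            exact hL1
          · rw [List.getElem?_append_right (by omega)]
            simp [hL0]
          · intro j hj
            rcases Nat.lt_succ_iff_lt_or_eq.1 hj with hj | rfl
            · obtain ⟨x, y, h4, h5, h6⟩ := hL3 j hj
              exact ⟨x, y, by rw [List.getElem?_append_left (by omega)]; exact h4,
                by rw [List.getElem?_append_left (by omega)]; exact h5, h6⟩
            · refine ⟨u, w, ?_, ?_, hu2⟩
              · rw [List.getElem?_append_left (by omega)]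
                exact hL2
              · rw [List.getElem?_append_right (by omega)]
                simp [hL0]
      obtain ⟨L, _, ⟨u, hL1, hL1'⟩, hL2, hL3⟩ := key n v hv
      refine ⟨L, ⟨u, ⟨hL1, hL2⟩, hL1'⟩, fun j hj => ?_⟩
      obtain ⟨x, y, h4, h5, h6⟩ := hL3 j hj
      exact ⟨(x, y), ⟨h4, h5⟩, h6⟩
    · rintro ⟨L, ⟨u, ⟨hL1, hL2⟩, hu⟩, hL3⟩
      have key : ∀ j ≤ n, ∀ w, L[j]? = some w → w ∈ G j := by
        intro j
        induction j with
        | zero =>
          intro _ w hw
          rw [hL1] at hw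
          rw [← Option.some.inj hw]
          exact hu
        | succ j ih =>
          intro hj w hw
          obtain ⟨⟨x, y⟩, ⟨h4, h5⟩, h6⟩ := hL3 j (by omega)
          simp only at h4 h5 h6
          rw [hw] at h5
          rw [Gs]
          refine ⟨x, ih (by omega) x h4, ?_⟩
          rw [Option.some.inj h5]
          exact h6
      exact key n le_rfl v hL2
  | @rfind f _ ihf =>
    have h1 : Sig {B} (fun _ (p : ℕ × ℕ) => 0 ∈ f (Nat.pair p.1 p.2)) :=
      ihf.comp (f := fun p : ℕ × ℕ => (Nat.pair p.1 p.2, 0))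
        (Primrec.pair (Primrec₂.natPair.comp Primrec.fst Primrec.snd) (Primrec.const 0))
    have h2 : Sig {B} (fun _ (q : ((ℕ × ℕ) × ℕ) × ℕ) =>
        q.2 ≠ 0 ∧ q.2 ∈ f (Nat.pair q.1.1.1 q.1.2)) :=
      (Sig.of_prim (Primrec.eq.comp Primrec.snd (Primrec.const 0)).not).and
        (ihf.comp (f := fun q : ((ℕ × ℕ) × ℕ) × ℕ => (Nat.pair q.1.1.1 q.1.2, q.2))
          (Primrec.pair (Primrec₂.natPair.comp (Primrec.fst.comp (Primrec.fst.comp Primrec.fst))
            (Primrec.snd.comp Primrec.fst)) Primrec.snd))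
    have h3 := h2.ex.ball (f := fun p : ℕ × ℕ => p.2) Primrec.snd
    refine (h1.and h3).congr ?_
    rintro _ _ ⟨a, v⟩
    refine Nat.mem_rfind.trans ?_
    constructor
    · rintro ⟨h4, h5⟩
      obtain ⟨w, hw, hw2⟩ := Part.mem_map_iff _ |>.1 h4
      have hw3 : w = 0 := by simpa using hw2
      subst hw3
      refine ⟨hw, fun j hj => ?_⟩
      obtain ⟨u, hu, hu2⟩ := Part.mem_map_iff _ |>.1 (h5 hj)
      exact ⟨u, by simpa using hu2, hu⟩
    · rintro ⟨h4, h5⟩
      refine ⟨Part.mem_map_iff _ |>.2 ⟨0, h4, rfl⟩, fun {j} hj => ?_⟩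
      obtain ⟨u, hu, hu2⟩ := h5 j hj
      exact Part.mem_map_iff _ |>.2 ⟨u, hu2, by simpa using hu⟩

/-! ### the converse -/

/-- total functions as partial functions -/
lemma rec_tot_comp {O : Set (ℕ →. ℕ)} {f g : ℕ → ℕ} (hf : Nat.RecursiveIn O (fun n => Part.some (f n)))
    (hg : Nat.RecursiveIn O (fun n => Part.some (g n))) :
    Nat.RecursiveIn O (fun n => Part.some (f (g n))) := by
  refine (Nat.RecursiveIn.comp hf hg).of_eq ?_
  intro n
  simp

lemma rec_tot_pair {O : Set (ℕ →. ℕ)} {f g : ℕ → ℕ} (hf : Nat.RecursiveIn O (fun n => Part.some (f n)))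
    (hg : Nat.RecursiveIn O (fun n => Part.some (g n))) :
    Nat.RecursiveIn O (fun n => Part.some (Nat.pair (f n) (g n))) := by
  refine (Nat.RecursiveIn.pair hf hg).of_eq ?_
  intro n
  simp [Seq.seq]

lemma rec_prim {O : Set (ℕ →. ℕ)} {f : ℕ → ℕ} (hf : Primrec f) :
    Nat.RecursiveIn O (fun n => Part.some (f n)) :=
  Nat.Primrec.recursiveIn (Primrec.nat_iff.1 hf)

/-- the initial segments of `B` are recursive in `B` -/
lemma rec_pre (B : ℕ → Bool) :
    Nat.RecursiveIn {chi B} (fun t => Part.some (encode (pre B t))) := by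
  have h1 : Nat.RecursiveIn {chi B} (fun n => Part.some (if B n = true then 1 else 0)) :=
    Nat.RecursiveIn.oracle _ rfl
  -- appending a bit
  have happ : Primrec (fun n : ℕ => encode
      (((decode n.unpair.1 : Option (List Bool)).getD []) ++ [decide (n.unpair.2 = 1)])) := by
    refine Primrec.encode.comp (Primrec.list_append.comp ?_ (Primrec.list_cons.comp ?_
      (Primrec.const [])))
    · exact Primrec.option_getD.comp (Primrec.decode.comp (Primrec.fst.comp Primrec.unpair))
        (Primrec.const [])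
    · exact (Primrec.eq.comp (Primrec.snd.comp Primrec.unpair) (Primrec.const 1)).decide
  have hh : Nat.RecursiveIn {chi B} (fun n => Part.some (encode
      (((decode n.unpair.2.unpair.2 : Option (List Bool)).getD []) ++ [B n.unpair.2.unpair.1]))) := by
    have h2 : Nat.RecursiveIn {chi B} (fun n => Part.some (Nat.pair n.unpair.2.unpair.2
        (if B n.unpair.2.unpair.1 = true then 1 else 0))) :=
      rec_tot_pair (f := fun n => n.unpair.2.unpair.2)
        (g := fun n => if B n.unpair.2.unpair.1 = true then 1 else 0)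
        (rec_prim (Primrec.snd.comp (Primrec.unpair.comp (Primrec.snd.comp Primrec.unpair))))
        (rec_tot_comp (f := fun n => if B n = true then 1 else 0)
          (g := fun n => n.unpair.2.unpair.1) h1
          (rec_prim (Primrec.fst.comp (Primrec.unpair.comp (Primrec.snd.comp Primrec.unpair)))))
    refine (rec_tot_comp (rec_prim happ) h2).of_eq ?_
    intro n
    simp only [Nat.unpair_pair]
    congr 3
    cases hB : B n.unpair.2.unpair.1 <;> simp
  have hrec := Nat.RecursiveIn.prec (O := {chi B})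
    (f := fun _ => Part.some (encode ([] : List Bool)))
    (rec_prim (Primrec.const _)) hh
  have h3 := Nat.RecursiveIn.comp hrec
    (rec_tot_pair (O := {chi B}) (f := fun _ => 0) (g := fun n => n) (rec_prim (Primrec.const 0))
      (rec_prim Primrec.id))
  refine h3.of_eq ?_
  intro t
  simp only [Nat.unpair_pair, Part.bind_eq_bind, Part.bind_some]
  induction t with
  | zero => rfl
  | succ t ih =>
    simp only
    rw [ih]
    simp only [Part.bind_some, encodek, Option.getD_some]
    congr 2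
    unfold pre
    rw [List.range_succ, List.map_append]
    rfl

/-- semi-decidable predicates are domains, and single-valued ones are graphs -/
theorem recursiveIn_of_sig {B : ℕ → Bool} {f : ℕ →. ℕ}
    (h : Sig {B} (fun _ (p : ℕ × ℕ) => p.2 ∈ f p.1)) : Nat.RecursiveIn {chi B} f := by
  classical
  obtain ⟨R, h1, h2, h3⟩ := h
  have h3' := h3 B rfl
  -- search for a pair (t, v)
  have hd : Primrec (fun n : ℕ => if R ((n.unpair.1.unpair.1, n.unpair.1.unpair.2.unpair.2),
      (decode n.unpair.2 : Option (List Bool)).getD []) then 0 else 1) := by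
    refine Primrec.ite ?_ (Primrec.const 0) (Primrec.const 1)
    refine h1.comp (Primrec.pair (Primrec.pair ?_ ?_) ?_)
    · exact Primrec.fst.comp (Primrec.unpair.comp (Primrec.fst.comp Primrec.unpair))
    · exact Primrec.snd.comp (Primrec.unpair.comp (Primrec.snd.comp (Primrec.unpair.comp
        (Primrec.fst.comp Primrec.unpair))))
    · exact Primrec.option_getD.comp (Primrec.decode.comp (Primrec.snd.comp Primrec.unpair))
        (Primrec.const [])
  have hg : Nat.RecursiveIn {chi B} (fun n : ℕ => Part.some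
      (if R ((n.unpair.1, n.unpair.2.unpair.2), pre B n.unpair.2.unpair.1) then 0 else 1)) := by
    have h4 : Nat.RecursiveIn {chi B} (fun n : ℕ => Part.some
        (Nat.pair n (encode (pre B n.unpair.2.unpair.1)))) :=
      rec_tot_pair (f := fun n => n) (g := fun n => encode (pre B n.unpair.2.unpair.1))
        (rec_prim Primrec.id)
        (rec_tot_comp (f := fun t => encode (pre B t)) (g := fun n => n.unpair.2.unpair.1)
          (rec_pre B)
          (rec_prim (Primrec.fst.comp (Primrec.unpair.comp (Primrec.snd.comp Primrec.unpair)))))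
    refine (rec_tot_comp (rec_prim hd) h4).of_eq ?_
    intro n
    simp only [Nat.unpair_pair, encodek, Option.getD_some]
  have hr := Nat.RecursiveIn.rfind hg
  have hfin := Nat.RecursiveIn.comp
    (rec_prim (O := {chi B}) (f := fun n : ℕ => n.unpair.2) (Primrec.snd.comp Primrec.unpair)) hr
  refine hfin.of_eq ?_
  intro a
  apply Part.ext
  intro v
  let T : ℕ → Part Bool := fun x => Part.some (decide
    ((if R ((a, x.unpair.2), pre B x.unpair.1) then 0 else 1) = 0))
  have hT : (fun n => (fun m => decide (m = 0)) <$> (Part.some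
      (if R (((Nat.pair a n).unpair.1, (Nat.pair a n).unpair.2.unpair.2),
        pre B (Nat.pair a n).unpair.2.unpair.1) then 0 else 1) : Part ℕ)) = T := by
    funext x
    simp only [Nat.unpair_pair, Part.map_eq_map, Part.map_some, T]
  rw [hT]
  refine Part.mem_bind_iff.trans ?_
  constructor
  · rintro ⟨x, hx, hx2⟩
    obtain ⟨h5, _⟩ := Nat.mem_rfind.1 hx
    have hx3 : v = x.unpair.2 := Part.mem_some_iff.1 hx2
    have h5' : R ((a, x.unpair.2), pre B x.unpair.1) := by
      by_contra hc
      simp only [T, if_neg hc] at h5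
      have h6 := Part.mem_some_iff.1 h5
      simp at h6
    rw [hx3]
    exact (h3' (a, x.unpair.2)).2 ⟨_, h5'⟩
  · intro hv
    obtain ⟨t, ht⟩ := (h3' (a, v)).1 hv
    have hex : ∃ x : ℕ, R ((a, x.unpair.2), pre B x.unpair.1) :=
      ⟨Nat.pair t v, by rw [Nat.unpair_pair]; exact ht⟩
    refine ⟨Nat.find hex, Nat.mem_rfind.2 ⟨?_, ?_⟩, ?_⟩
    · simp only [T, if_pos (Nat.find_spec hex)]
      exact Part.mem_some_iff.2 (by simp)
    · intro j hj
      simp only [T, if_neg (Nat.find_min hex hj)]
      exact Part.mem_some_iff.2 (by simp)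
    · have h6 : (Nat.find hex).unpair.2 ∈ f a :=
        (h3' (a, (Nat.find hex).unpair.2)).2 ⟨_, Nat.find_spec hex⟩
      exact Part.mem_some_iff.2 (Part.mem_unique hv h6)

theorem recursiveIn_iff_sig {B : ℕ → Bool} {f : ℕ →. ℕ} :
    Nat.RecursiveIn {chi B} f ↔ Sig {B} (fun _ (p : ℕ × ℕ) => p.2 ∈ f p.1) :=
  ⟨sig_of_recursiveIn, recursiveIn_of_sig⟩

theorem turingReducible_iff {A B : ℕ → Bool} : TuringReducible (chi A) (chi B) ↔ Red A B := by
  unfold TuringReducible
  rw [RecursiveIn.iff_nat, recursiveIn_iff_sig]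
  constructor
  · intro h
    have hb : Primrec (fun p : ℕ × Bool => if p.2 = true then 1 else 0) :=
      Primrec.ite (Primrec.eq.comp Primrec.snd (Primrec.const true)) (Primrec.const 1)
        (Primrec.const 0)
    refine (h.comp (f := fun p : ℕ × Bool => (p.1, if p.2 = true then 1 else 0))
      (Primrec.pair Primrec.fst hb)).congr ?_
    rintro _ _ ⟨n, b⟩
    simp only [mem_chi]
    cases b <;> cases A n <;> simp
  · intro h
    have h1 : Sig {B} (fun _ (p : ℕ × ℕ) => A p.1 = true ∧ p.2 = 1) :=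
      (Sig.comp (S := fun _ (p : ℕ × Bool) => A p.1 = p.2) h (f := fun p : ℕ × ℕ => (p.1, true))
        (Primrec.pair Primrec.fst (Primrec.const true))).and
        (Sig.of_prim (Primrec.eq.comp Primrec.snd (Primrec.const 1)))
    have h2 : Sig {B} (fun _ (p : ℕ × ℕ) => A p.1 = false ∧ p.2 = 0) :=
      (Sig.comp (S := fun _ (p : ℕ × Bool) => A p.1 = p.2) h (f := fun p : ℕ × ℕ => (p.1, false))
        (Primrec.pair Primrec.fst (Primrec.const false))).and
        (Sig.of_prim (Primrec.eq.comp Primrec.snd (Primrec.const 0)))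
    refine (h1.or h2).congr ?_
    rintro _ _ ⟨n, v⟩
    simp only [mem_chi]
    cases A n <;> simp

/-- Completeness of the jump: domains of functions recursive in `X` are many-one reducible to
`jump X`, and `jump X` is such a domain. -/
theorem jump_complete (X : ℕ → Bool) :
    (∀ g : ℕ →. ℕ, Nat.RecursiveIn {chi X} g →
      ∃ f : ℕ → ℕ, Computable f ∧ ∀ n, (g n).Dom ↔ jump X (f n) = true) ∧
    (∃ g : ℕ →. ℕ, Nat.RecursiveIn {chi X} g ∧ ∀ n, (g n).Dom ↔ jump X n = true) := by
  constructor
  · intro g hg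
    have h1 := (sig_of_recursiveIn hg).ex
    obtain ⟨c, hc⟩ := sig_smn h1
    refine ⟨fun n => qq c n, (primrec_qq.comp (Primrec.const c) Primrec.id).to_comp, fun n => ?_⟩
    rw [← hc X rfl, Part.dom_iff_mem]
  · refine ⟨fun n => Part.assert (jump X n = true) (fun _ => Part.some 0),
      recursiveIn_of_sig ?_, fun n => ?_⟩
    · have h1 : Sig {X} (fun _ (p : ℕ × ℕ) => jump X p.1 = true ∧ p.2 = 0) :=
        ((sig_single (jump_sig (D := {X}))).comp (f := fun p : ℕ × ℕ => p.1) Primrec.fst).and
          (Sig.of_prim (Primrec.eq.comp Primrec.snd (Primrec.const 0)))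
      refine h1.congr ?_
      rintro _ _ ⟨n, v⟩
      simp [Part.mem_assert_iff]
    · simp [Part.assert]

end JumpDeg
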