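import Mathlib
import Pool.Agent.JumpDeg.RecIn

/-!
Spector's theorem: the Turing degree of the iterated jump along a computable well-ordering
depends only on the order type.
-/

namespace JumpDeg

open Encodable Denumerable
open Nat.Partrec (Code)

section atoms
variable {α : Type*} [Primcodable α] {D : Set (ℕ → Bool)}

lemma Sig.oracle_eq {f g : α → ℕ} (hf : Primrec f) (hg : Primrec g) :
    Sig D (fun X a => X (f a) = X (g a)) := by
  refine (((Sig.oracle hf (Primrec.const true)).and (Sig.oracle hg (Primrec.const true))).or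
    ((Sig.oracle hf (Primrec.const false)).and (Sig.oracle hg (Primrec.const false)))).congr ?_
  intro X _ a
  cases X (f a) <;> cases X (g a) <;> simp

lemma Sig.oracle_ne {f g : α → ℕ} (hf : Primrec f) (hg : Primrec g) :
    Sig D (fun X a => X (f a) ≠ X (g a)) := by
  refine (((Sig.oracle hf (Primrec.const true)).and (Sig.oracle hg (Primrec.const false))).or
    ((Sig.oracle hf (Primrec.const false)).and (Sig.oracle hg (Primrec.const true)))).congr ?_
  intro X _ a
  cases X (f a) <;> cases X (g a) <;> simp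

lemma sig_rel {r : ℕ → ℕ → Prop} (hr : ComputablePred fun p : ℕ × ℕ => r p.1 p.2)
    {f g : α → ℕ} (hf : Primrec f) (hg : Primrec g) :
    Sig D (fun _ a => r (f a) (g a)) :=
  (Sig.of_re (p := fun p : ℕ × ℕ => r p.1 p.2) hr.to_re).comp (f := fun a => (f a, g a))
    (Primrec.pair hf hg)

lemma sig_rel_not {r : ℕ → ℕ → Prop} (hr : ComputablePred fun p : ℕ × ℕ => r p.1 p.2)
    {f g : α → ℕ} (hf : Primrec f) (hg : Primrec g) :
    Sig D (fun _ a => ¬ r (f a) (g a)) :=
  (Sig.of_re (p := fun p : ℕ × ℕ => ¬ r p.1 p.2) hr.not.to_re).comp (f := fun a => (f a, g a))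
    (Primrec.pair hf hg)

end atoms

/-- `(n, b)` belongs to the graph computed by the `c`-th procedure from `B` -/
def Gr (B : ℕ → Bool) (c : Code) (n : ℕ) (b : Bool) : Prop := jump B (qq c (n, b)) = true

section
variable (r : ℕ → ℕ → Prop)

/-- The jump, below `k'`, of the hierarchy computed by `c` from `B`. -/
def T1 (B : ℕ → Bool) (q : Code × ℕ × ℕ) : Prop :=
  ∃ ρ : List Bool, (Code.eval (ofNat Code q.2.2) (encode ρ)).Dom ∧
    ∀ j < ρ.length, (j % 2 = 0 ∧ Gr B q.1 j (ρ.getD j false)) ∨
      (¬ j % 2 = 0 ∧ ((r (j / 2).unpair.1 q.2.1 ∧ Gr B q.1 j (ρ.getD j false)) ∨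
        (¬ r (j / 2).unpair.1 q.2.1 ∧ ρ.getD j false = false)))

/-- The jump of the set computed by `c` from `B`. -/
def T2 (B : ℕ → Bool) (q : Code × ℕ) : Prop :=
  ∃ ρ : List Bool, (Code.eval (ofNat Code q.2) (encode ρ)).Dom ∧
    ∀ j < ρ.length, Gr B q.1 j (ρ.getD j false)

/-- `c` does not compute (from the set whose jump is the `k₂`-th column of `W`) the hierarchy up
to `k`. -/
def Bad (d : Code) (W : ℕ → Bool) (q : Code × ℕ × ℕ) : Prop :=
  ∃ n : ℕ, W (od q.2.2 (qq q.1 (n, true))) = W (od q.2.2 (qq q.1 (n, false))) ∨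
    ((n % 2 = 0 ∧ W (od q.2.2 (qq q.1 (n, true))) ≠ W n) ∨
    (¬ n % 2 = 0 ∧ ((¬ r (n / 2).unpair.1 q.2.1 ∧ W (od q.2.2 (qq q.1 (n, true))) = true) ∨
      (r (n / 2).unpair.1 q.2.1 ∧ W (od q.2.2 (qq q.1 (n, true))) ≠
        W (od q.2.2 (qq d (q.1, (n / 2).unpair.1, (n / 2).unpair.2)))))))

variable {r}

lemma sig_T1 (hr : ComputablePred fun p : ℕ × ℕ => r p.1 p.2) {D : Set (ℕ → Bool)} :
    Sig D (T1 r) := by
  have h0 : Sig D (fun _ (q : (Code × ℕ × ℕ) × List Bool) =>
      (Code.eval (ofNat Code q.1.2.2) (encode q.2)).Dom) :=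
    (sig_dom (D := D)).comp (f := fun q : (Code × ℕ × ℕ) × List Bool => (q.1.2.2, q.2))
      (Primrec.pair (Primrec.snd.comp (Primrec.snd.comp Primrec.fst)) Primrec.snd)
  have pj : Primrec (fun q : ((Code × ℕ × ℕ) × List Bool) × ℕ => q.2) := Primrec.snd
  have pc : Primrec (fun q : ((Code × ℕ × ℕ) × List Bool) × ℕ => q.1.1.1) :=
    Primrec.fst.comp (Primrec.fst.comp Primrec.fst)
  have pk : Primrec (fun q : ((Code × ℕ × ℕ) × List Bool) × ℕ => q.1.1.2.1) :=
    Primrec.fst.comp (Primrec.snd.comp (Primrec.fst.comp Primrec.fst))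
  have pb : Primrec (fun q : ((Code × ℕ × ℕ) × List Bool) × ℕ => q.1.2.getD q.2 false) :=
    (Primrec.list_getD false).comp (Primrec.snd.comp Primrec.fst) Primrec.snd
  have ph : Primrec (fun q : ((Code × ℕ × ℕ) × List Bool) × ℕ => (q.2 / 2).unpair.1) :=
    Primrec.fst.comp (Primrec.unpair.comp (Primrec.nat_div.comp Primrec.snd (Primrec.const 2)))
  have pm : PrimrecPred (fun q : ((Code × ℕ × ℕ) × List Bool) × ℕ => q.2 % 2 = 0) :=
    Primrec.eq.comp (Primrec.nat_mod.comp pj (Primrec.const 2)) (Primrec.const 0)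
  have hG : Sig D (fun B (q : ((Code × ℕ × ℕ) × List Bool) × ℕ) =>
      Gr B q.1.1.1 q.2 (q.1.2.getD q.2 false)) := by
    unfold Gr
    exact (jump_sig (D := D)).comp
      (f := fun q : ((Code × ℕ × ℕ) × List Bool) × ℕ => qq q.1.1.1 (q.2, q.1.2.getD q.2 false))
      (primrec_qq.comp pc (Primrec.pair pj pb))
  have h1 := ((Sig.of_prim (D := D) pm).and hG).or ((Sig.of_prim pm.not).and
    (((sig_rel (D := D) hr ph pk).and hG).or ((sig_rel_not (D := D) hr ph pk).and
      (Sig.of_prim (Primrec.eq.comp pb (Primrec.const false))))))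
  exact (h0.and (h1.ball (f := fun q : (Code × ℕ × ℕ) × List Bool => q.2.length)
    (Primrec.list_length.comp Primrec.snd))).ex

lemma sig_T2 {D : Set (ℕ → Bool)} : Sig D T2 := by
  have h0 : Sig D (fun _ (q : (Code × ℕ) × List Bool) =>
      (Code.eval (ofNat Code q.1.2) (encode q.2)).Dom) :=
    (sig_dom (D := D)).comp (f := fun q : (Code × ℕ) × List Bool => (q.1.2, q.2))
      (Primrec.pair (Primrec.snd.comp Primrec.fst) Primrec.snd)
  have hG : Sig D (fun B (q : ((Code × ℕ) × List Bool) × ℕ) =>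
      Gr B q.1.1.1 q.2 (q.1.2.getD q.2 false)) := by
    unfold Gr
    exact (jump_sig (D := D)).comp
      (f := fun q : ((Code × ℕ) × List Bool) × ℕ => qq q.1.1.1 (q.2, q.1.2.getD q.2 false))
      (primrec_qq.comp (Primrec.fst.comp (Primrec.fst.comp Primrec.fst)) (Primrec.pair Primrec.snd
        ((Primrec.list_getD false).comp (Primrec.snd.comp Primrec.fst) Primrec.snd)))
  exact (h0.and (hG.ball (f := fun q : (Code × ℕ) × List Bool => q.2.length)
    (Primrec.list_length.comp Primrec.snd))).ex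

lemma sig_Bad (hr : ComputablePred fun p : ℕ × ℕ => r p.1 p.2) (d : Code)
    {D : Set (ℕ → Bool)} : Sig D (Bad r d) := by
  have pn : Primrec (fun q : (Code × ℕ × ℕ) × ℕ => q.2) := Primrec.snd
  have pc : Primrec (fun q : (Code × ℕ × ℕ) × ℕ => q.1.1) := Primrec.fst.comp Primrec.fst
  have pk : Primrec (fun q : (Code × ℕ × ℕ) × ℕ => q.1.2.1) :=
    Primrec.fst.comp (Primrec.snd.comp Primrec.fst)
  have pk2 : Primrec (fun q : (Code × ℕ × ℕ) × ℕ => q.1.2.2) :=
    Primrec.snd.comp (Primrec.snd.comp Primrec.fst)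
  have ph : Primrec (fun q : (Code × ℕ × ℕ) × ℕ => (q.2 / 2).unpair) :=
    Primrec.unpair.comp (Primrec.nat_div.comp Primrec.snd (Primrec.const 2))
  have pm : PrimrecPred (fun q : (Code × ℕ × ℕ) × ℕ => q.2 % 2 = 0) :=
    Primrec.eq.comp (Primrec.nat_mod.comp pn (Primrec.const 2)) (Primrec.const 0)
  have pT : Primrec (fun q : (Code × ℕ × ℕ) × ℕ => od q.1.2.2 (qq q.1.1 (q.2, true))) :=
    primrec_od.comp pk2 (primrec_qq.comp pc (Primrec.pair pn (Primrec.const true)))
  have pF : Primrec (fun q : (Code × ℕ × ℕ) × ℕ => od q.1.2.2 (qq q.1.1 (q.2, false))) :=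
    primrec_od.comp pk2 (primrec_qq.comp pc (Primrec.pair pn (Primrec.const false)))
  have pJ : Primrec (fun q : (Code × ℕ × ℕ) × ℕ =>
      od q.1.2.2 (qq d (q.1.1, (q.2 / 2).unpair.1, (q.2 / 2).unpair.2))) :=
    primrec_od.comp pk2 (primrec_qq.comp (Primrec.const d) (Primrec.pair pc
      (Primrec.pair (Primrec.fst.comp ph) (Primrec.snd.comp ph))))
  have h1 := (Sig.oracle_eq (D := D) pT pF).or (((Sig.of_prim (D := D) pm).and
    (Sig.oracle_ne (D := D) pT pn)).or ((Sig.of_prim (D := D) pm.not).and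
      (((sig_rel_not (D := D) hr (Primrec.fst.comp ph) pk).and
        (Sig.oracle (D := D) pT (Primrec.const true))).or
      ((sig_rel (D := D) hr (Primrec.fst.comp ph) pk).and (Sig.oracle_ne (D := D) pT pJ)))))
  exact h1.ex

/-- The verification lemma. -/
lemma verify [IsWellOrder ℕ r] {s : ℕ → ℕ → Prop} [IsWellFounded ℕ s] (X : ℕ → Bool)
    {d : Code} (hd : ∀ B (q : Code × ℕ × ℕ), T1 r B q ↔ jump B (qq d q) = true)
    {c : Code} {k k₂ k₃ : ℕ} (hk : s k₂ k₃) (hbad : ¬ Bad r d (iterJump s X k₃) (c, k, k₂)) :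
    ∀ n b, iterJump r X k n = b ↔ Gr (iterJump s X k₂) c n b := by
  set B := iterJump s X k₂ with hB
  have hW : ∀ y, iterJump s X k₃ (od k₂ y) = jump B y := fun y => iterJump_od s X k₃ k₂ y hk
  have hb : ∀ n : ℕ, ¬ (jump B (qq c (n, true)) = jump B (qq c (n, false)) ∨
    ((n % 2 = 0 ∧ jump B (qq c (n, true)) ≠ iterJump s X k₃ n) ∨
    (¬ n % 2 = 0 ∧ ((¬ r (n / 2).unpair.1 k ∧ jump B (qq c (n, true)) = true) ∨
      (r (n / 2).unpair.1 k ∧ jump B (qq c (n, true)) ≠
        jump B (qq d (c, (n / 2).unpair.1, (n / 2).unpair.2))))))) := by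
    intro n hn
    apply hbad
    refine ⟨n, ?_⟩
    simp only [hW]
    exact hn
  let A : ℕ → Bool := fun n => jump B (qq c (n, true))
  have hA : ∀ n b, A n = b ↔ Gr B c n b := by
    intro n b
    have h1 := hb n
    push Not at h1
    have h2 := h1.1
    cases b with
    | true => exact Iff.rfl
    | false =>
      show jump B (qq c (n, true)) = false ↔ jump B (qq c (n, false)) = true
      revert h2
      cases jump B (qq c (n, true)) <;> cases jump B (qq c (n, false)) <;> simp
  have hev : ∀ j, A (ev j) = X j := by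
    intro j
    have h1 := hb (ev j)
    have h2 : ev j % 2 = 0 := by unfold ev; omega
    have h3 := (not_or.1 (not_or.1 h1).2).1
    rw [not_and, not_not] at h3
    have h4 := h3 h2
    rw [iterJump_ev] at h4
    exact h4
  have hod1 : ∀ k' x, ¬ r k' k → A (od k' x) = false := by
    intro k' x hk'
    have h1 := hb (od k' x)
    have h2 : ¬ od k' x % 2 = 0 := by unfold od; omega
    have h3 : od k' x / 2 = Nat.pair k' x := by unfold od; omega
    have h4 := (not_or.1 (not_or.1 h1).2).2
    rw [not_and] at h4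
    have h5 := (not_or.1 (h4 h2)).1
    rw [h3, Nat.unpair_pair, not_and] at h5
    have h6 := h5 hk'
    show jump B (qq c (od k' x, true)) = false
    simpa using h6
  have hod2 : ∀ k' x, r k' k → A (od k' x) = jump B (qq d (c, k', x)) := by
    intro k' x hk'
    have h1 := hb (od k' x)
    have h2 : ¬ od k' x % 2 = 0 := by unfold od; omega
    have h3 : od k' x / 2 = Nat.pair k' x := by unfold od; omega
    have h4 := (not_or.1 (not_or.1 h1).2).2
    rw [not_and] at h4
    have h5 := (not_or.1 (h4 h2)).2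
    rw [h3, Nat.unpair_pair, not_and, not_not] at h5
    exact h5 hk'
  have hcol : ∀ k', r k' k → ∀ x, jump B (qq d (c, k', x)) = jump (iterJump r X k') x := by
    intro k'
    induction k' using IsWellFounded.induction r with
    | ind k' ih =>
    intro hk' x
    have hpt : ∀ (j : ℕ) (b : Bool), iterJump r X k' j = b ↔ ((j % 2 = 0 ∧ Gr B c j b) ∨
        (¬ j % 2 = 0 ∧ ((r (j / 2).unpair.1 k' ∧ Gr B c j b) ∨
          (¬ r (j / 2).unpair.1 k' ∧ b = false)))) := by
      intro j b
      rcases ev_or_od j with ⟨i, rfl⟩ | ⟨k'', y, rfl⟩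
      · have h2 : ev i % 2 = 0 := by unfold ev; omega
        rw [iterJump_ev, ← hA, hev]
        simp [h2]
      · have h2 : ¬ od k'' y % 2 = 0 := by unfold od; omega
        have h3 : od k'' y / 2 = Nat.pair k'' y := by unfold od; omega
        rw [h3, Nat.unpair_pair]
        simp only [h2, false_and, false_or, not_false_eq_true, true_and]
        by_cases hr2 : r k'' k'
        · rw [iterJump_od r X k' k'' y hr2, ← hA, hod2 k'' y (_root_.trans hr2 hk'),
            ih k'' hr2 (_root_.trans hr2 hk')]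
          simp [hr2]
        · rw [iterJump_od_not r X k' k'' y hr2]
          simp only [hr2, false_and, false_or, not_false_eq_true, true_and]
          exact eq_comm
    rw [Bool.eq_iff_iff, ← hd, jump_eq_true]
    unfold T1
    simp only
    constructor
    · rintro ⟨ρ, h1, h2⟩
      refine ⟨ρ.length, ?_⟩
      have : ρ = pre (iterJump r X k') ρ.length := by
        rw [eq_pre_iff]
        intro i hi
        rw [(hpt i _).2 (h2 i hi)]
        simp [hi]
      rw [← this]
      exact h1
    · rintro ⟨t, ht⟩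
      refine ⟨pre (iterJump r X k') t, ht, ?_⟩
      intro j hj
      rw [length_pre] at hj
      rw [List.getD, getElem?_pre_of_lt _ hj]
      exact (hpt j _).1 rfl
  have hfin : A = iterJump r X k := by
    funext n
    rcases ev_or_od n with ⟨j, rfl⟩ | ⟨k', x, rfl⟩
    · rw [hev, iterJump_ev]
    · by_cases hk' : r k' k
      · rw [hod2 k' x hk', hcol k' hk' x, iterJump_od r X k k' x hk']
      · rw [hod1 k' x hk', iterJump_od_not r X k k' x hk']
  intro n b
  rw [← hfin]
  exact hA n b

end

lemma Red.jump {A B : ℕ → Bool} (h : Red A B) : Red (JumpDeg.jump A) (JumpDeg.jump B) := by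
  have h1 : Sig {B} (fun _ (e : ℕ) => JumpDeg.jump A e = true) := h.sig jump_sig
  obtain ⟨c, hc⟩ := sig_smn h1
  have hc' := hc B rfl
  have h2 : Sig {JumpDeg.jump B} (fun W (p : ℕ × Bool) => W (qq c p.1) = p.2) :=
    Sig.oracle (primrec_qq.comp (Primrec.const c) Primrec.fst) Primrec.snd
  refine h2.congr ?_
  rintro W hW ⟨e, b⟩
  have hW' : W = JumpDeg.jump B := hW
  subst hW'
  simp only
  have h3 : JumpDeg.jump A e = JumpDeg.jump B (qq c e) := by
    rw [Bool.eq_iff_iff]
    exact hc' e
  rw [h3]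

/-- Spector's theorem (monotone form). -/
theorem spector (r s : ℕ → ℕ → Prop) [IsWellOrder ℕ r] [IsWellOrder ℕ s]
    (hr : ComputablePred fun p : ℕ × ℕ => r p.1 p.2)
    (hs : ComputablePred fun p : ℕ × ℕ => s p.1 p.2) (X : ℕ → Bool) (m₁ : ℕ) :
    ∀ m₂, Ordinal.typein r m₁ ≤ Ordinal.typein s m₂ →
      Red (iterJump r X m₁) (iterJump s X m₂) := by
  obtain ⟨d, hd0⟩ := sig_smn (sig_T1 hr (D := Set.univ))
  have hd : ∀ B (q : Code × ℕ × ℕ), T1 r B q ↔ jump B (qq d q) = true :=
    fun B => hd0 B (Set.mem_univ _)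
  obtain ⟨d', hd0'⟩ := sig_smn (sig_T2 (D := Set.univ))
  have hd' : ∀ B (q : Code × ℕ), T2 B q ↔ jump B (qq d' q) = true :=
    fun B => hd0' B (Set.mem_univ _)
  obtain ⟨e', he0⟩ := sig_smn (sig_Bad hr d (D := Set.univ))
  have he' : ∀ B (q : Code × ℕ × ℕ), Bad r d B q ↔ jump B (qq e' q) = true :=
    fun B => he0 B (Set.mem_univ _)
  induction m₁ using IsWellFounded.induction r with
  | ind m₁ ih =>
  intro m₂ hle
  have hlow : ∀ k, r k m₁ → ∃ k₂, Ordinal.typein s k₂ = Ordinal.typein r k ∧ s k₂ m₂ := by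
    intro k hk
    have h1 : Ordinal.typein r k < Ordinal.typein s m₂ :=
      lt_of_lt_of_le ((Ordinal.typein_lt_typein r).2 hk) hle
    obtain ⟨k₂, hk₂⟩ := Ordinal.typein_surj s (h1.trans (Ordinal.typein_lt_type s m₂))
    exact ⟨k₂, hk₂, (Ordinal.typein_lt_typein s).1 (by rw [hk₂]; exact h1)⟩
  set W := iterJump s X m₂ with hW
  -- the predecessor, if any
  obtain ⟨p, hp1, hp2⟩ : ∃ p, (∀ k, r k m₁ → k ≠ p →
      Order.succ (Ordinal.typein r k) < Ordinal.typein r m₁) ∧
      (r p m₁ → Red (jump (iterJump r X p)) W) := by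
    by_cases h : ∃ p, Order.succ (Ordinal.typein r p) = Ordinal.typein r m₁
    · obtain ⟨p, hp⟩ := h
      have hpm : r p m₁ := (Ordinal.typein_lt_typein r).1 (by rw [← hp]; exact Order.lt_succ _)
      refine ⟨p, ?_, ?_⟩
      · intro k hk hkp
        rcases (Order.succ_le_of_lt ((Ordinal.typein_lt_typein r).2 hk)).lt_or_eq with h1 | h1
        · exact h1
        · exfalso
          apply hkp
          rw [← hp] at h1
          exact (Ordinal.typein_inj r).1 (Order.succ_injective h1)
      · intro _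
        obtain ⟨k₂, h1, h2⟩ := hlow p hpm
        have h3 := ih p hpm k₂ (by rw [h1])
        exact h3.jump.trans (red_jump_lower s X h2)
    · refine ⟨m₁, ?_, fun h1 => absurd h1 (irrefl m₁)⟩
      intro k hk _
      rcases (Order.succ_le_of_lt ((Ordinal.typein_lt_typein r).2 hk)).lt_or_eq with h1 | h1
      · exact h1
      · exact absurd ⟨k, h1⟩ h
  -- the search
  let Srch : (ℕ → Bool) → ℕ × ℕ × Bool → Prop := fun W q =>
    ∃ z : Code × ℕ × ℕ, ((s z.2.1 z.2.2 ∧ s z.2.2 m₂) ∧
      W (od z.2.2 (qq e' (z.1, q.1, z.2.1))) = false) ∧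
      W (od z.2.1 (qq d' (z.1, q.2.1))) = q.2.2
  have hSrch : Sig {W} Srch := by
    have pz : Primrec (fun a : (ℕ × ℕ × Bool) × (Code × ℕ × ℕ) => a.2) := Primrec.snd
    have pz1 : Primrec (fun a : (ℕ × ℕ × Bool) × (Code × ℕ × ℕ) => a.2.1) := Primrec.fst.comp pz
    have pz2 : Primrec (fun a : (ℕ × ℕ × Bool) × (Code × ℕ × ℕ) => a.2.2.1) :=
      Primrec.fst.comp (Primrec.snd.comp pz)
    have pz3 : Primrec (fun a : (ℕ × ℕ × Bool) × (Code × ℕ × ℕ) => a.2.2.2) :=
      Primrec.snd.comp (Primrec.snd.comp pz)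
    have h1 : Sig {W} (fun W (a : (ℕ × ℕ × Bool) × (Code × ℕ × ℕ)) =>
        W (od a.2.2.2 (qq e' (a.2.1, a.1.1, a.2.2.1))) = false) :=
      Sig.oracle (primrec_od.comp pz3 (primrec_qq.comp (Primrec.const e') (Primrec.pair pz1
        (Primrec.pair (Primrec.fst.comp Primrec.fst) pz2)))) (Primrec.const false)
    have h2 : Sig {W} (fun W (a : (ℕ × ℕ × Bool) × (Code × ℕ × ℕ)) =>
        W (od a.2.2.1 (qq d' (a.2.1, a.1.2.1))) = a.1.2.2) :=
      Sig.oracle (primrec_od.comp pz2 (primrec_qq.comp (Primrec.const d') (Primrec.pair pz1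
        (Primrec.fst.comp (Primrec.snd.comp Primrec.fst)))))
        (Primrec.snd.comp (Primrec.snd.comp Primrec.fst))
    exact ((((sig_rel hs pz2 pz3).and (sig_rel hs pz3 (Primrec.const m₂))).and h1).and h2).ex
  have hSrch_iff : ∀ k, r k m₁ → Order.succ (Ordinal.typein r k) < Ordinal.typein r m₁ →
      ∀ x b, jump (iterJump r X k) x = b ↔ Srch W (k, x, b) := by
    intro k hk hsucc x b
    have hT2 : ∀ (B : ℕ → Bool) (c : Code), (∀ n b, iterJump r X k n = b ↔ Gr B c n b) →
        jump B (qq d' (c, x)) = jump (iterJump r X k) x := by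
      intro B c hc
      rw [Bool.eq_iff_iff, ← hd', jump_eq_true]
      unfold T2
      constructor
      · rintro ⟨ρ, h1, h2⟩
        refine ⟨ρ.length, ?_⟩
        have : ρ = pre (iterJump r X k) ρ.length := by
          rw [eq_pre_iff]
          intro i hi
          rw [(hc i _).2 (h2 i hi)]
          simp [hi]
        rw [← this]
        exact h1
      · rintro ⟨t, ht⟩
        refine ⟨pre (iterJump r X k) t, ht, ?_⟩
        intro j hj
        rw [length_pre] at hj
        rw [List.getD, getElem?_pre_of_lt _ hj]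
        exact (hc j _).1 rfl
    constructor
    · intro hx
      obtain ⟨k₂, h1, h2⟩ := hlow k hk
      have h3 : Order.succ (Ordinal.typein r k) < Ordinal.typein s m₂ := lt_of_lt_of_le hsucc hle
      obtain ⟨k₃, hk₃⟩ := Ordinal.typein_surj s (h3.trans (Ordinal.typein_lt_type s m₂))
      have h4 : s k₃ m₂ := (Ordinal.typein_lt_typein s).1 (by rw [hk₃]; exact h3)
      have h5 : s k₂ k₃ := (Ordinal.typein_lt_typein s).1 (by
        rw [hk₃, h1]; exact Order.lt_succ _)
      have h6 := ih k hk k₂ (by rw [h1])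
      obtain ⟨c, hc⟩ := sig_smn h6
      have hc' : ∀ n b, iterJump r X k n = b ↔ Gr (iterJump s X k₂) c n b :=
        fun n b => hc _ rfl (n, b)
      refine ⟨(c, k₂, k₃), ⟨⟨h5, h4⟩, ?_⟩, ?_⟩
      · simp only
        rw [hW, iterJump_od s X m₂ k₃ _ h4, ← Bool.not_eq_true, ← he']
        -- `c` is not bad
        rintro ⟨n, hn⟩
        simp only [iterJump_od s X k₃ k₂ _ h5] at hn
        set B := iterJump s X k₂ with hB
        have ht : ∀ n, jump B (qq c (n, true)) = iterJump r X k n := by
          intro n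
          rw [Bool.eq_iff_iff]
          exact (hc' n true).symm
        have hf : ∀ n, jump B (qq c (n, false)) = !(iterJump r X k n) := by
          intro n
          rw [Bool.eq_iff_iff]
          have := (hc' n false).symm
          unfold Gr at this
          rw [this]
          cases iterJump r X k n <;> simp
        rcases hn with hn | ⟨h7, hn⟩ | ⟨h7, ⟨h8, hn⟩ | ⟨h8, hn⟩⟩
        · rw [ht, hf] at hn
          cases hx : iterJump r X k n <;> simp [hx] at hn
        · rw [ht] at hn
          rcases ev_or_od n with ⟨j, rfl⟩ | ⟨k', y, rfl⟩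
          · rw [iterJump_ev, iterJump_ev] at hn
            exact hn rfl
          · exact (by unfold od; omega : ¬ od k' y % 2 = 0) h7
        · rw [ht] at hn
          rcases ev_or_od n with ⟨j, rfl⟩ | ⟨k', y, rfl⟩
          · exact h7 (by unfold ev; omega)
          · have h9 : od k' y / 2 = Nat.pair k' y := by unfold od; omega
            rw [h9, Nat.unpair_pair] at h8
            rw [iterJump_od_not r X k k' y h8] at hn
            cases hn
        · rw [ht] at hn
          rcases ev_or_od n with ⟨j, rfl⟩ | ⟨k', y, rfl⟩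
          · exact h7 (by unfold ev; omega)
          · have h9 : od k' y / 2 = Nat.pair k' y := by unfold od; omega
            rw [h9, Nat.unpair_pair] at h8 hn
            rw [iterJump_od r X k k' y h8] at hn
            apply hn
            rw [Bool.eq_iff_iff, ← hd, jump_eq_true]
            unfold T1
            simp only
            have hpt : ∀ (j : ℕ) (b : Bool), iterJump r X k' j = b ↔
                ((j % 2 = 0 ∧ Gr B c j b) ∨
                (¬ j % 2 = 0 ∧ ((r (j / 2).unpair.1 k' ∧ Gr B c j b) ∨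
                  (¬ r (j / 2).unpair.1 k' ∧ b = false)))) := by
              intro j b
              rcases ev_or_od j with ⟨i, rfl⟩ | ⟨k'', z, rfl⟩
              · have h2 : ev i % 2 = 0 := by unfold ev; omega
                rw [← hc', iterJump_ev, iterJump_ev]
                simp [h2]
              · have h2 : ¬ od k'' z % 2 = 0 := by unfold od; omega
                have h3 : od k'' z / 2 = Nat.pair k'' z := by unfold od; omega
                rw [h3, Nat.unpair_pair]
                simp only [h2, false_and, false_or, not_false_eq_true, true_and]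
                by_cases hr2 : r k'' k'
                · rw [iterJump_od r X k' k'' z hr2, ← hc',
                    iterJump_od r X k k'' z (_root_.trans hr2 h8)]
                  simp [hr2]
                · rw [iterJump_od_not r X k' k'' z hr2]
                  simp only [hr2, false_and, false_or, not_false_eq_true, true_and]
                  exact eq_comm
            constructor
            · rintro ⟨t, ht⟩
              refine ⟨pre (iterJump r X k') t, ht, ?_⟩
              intro j hj
              rw [length_pre] at hj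
              rw [List.getD, getElem?_pre_of_lt _ hj]
              exact (hpt j _).1 rfl
            · rintro ⟨ρ, h1, h2⟩
              refine ⟨ρ.length, ?_⟩
              have : ρ = pre (iterJump r X k') ρ.length := by
                rw [eq_pre_iff]
                intro i hi
                rw [(hpt i _).2 (h2 i hi)]
                simp [hi]
              rw [← this]
              exact h1
      · simp only
        rw [hW, iterJump_od s X m₂ k₂ _ h2, hT2 _ c hc', hx]
    · rintro ⟨⟨c, k₂, k₃⟩, ⟨⟨h1, h2⟩, h3⟩, h4⟩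
      simp only at h1 h2 h3 h4
      rw [hW, iterJump_od s X m₂ k₃ _ h2, ← Bool.not_eq_true, ← he'] at h3
      have h5 := verify X hd h1 h3
      rw [hW, iterJump_od s X m₂ k₂ _ (_root_.trans h1 h2), hT2 _ c h5] at h4
      exact h4
  -- assembling
  obtain ⟨P, hP1, hP2⟩ : ∃ P : (ℕ → Bool) → ℕ × Bool → Prop, Sig {W} P ∧
      (r p m₁ → ∀ x b, jump (iterJump r X p) x = b ↔ P W (x, b)) := by
    by_cases h : r p m₁
    · exact ⟨fun _ q => jump (iterJump r X p) q.1 = q.2, hp2 h, fun _ _ _ => Iff.rfl⟩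
    · exact ⟨fun _ _ => True, Sig.of_prim ⟨inferInstance, Primrec.const _⟩,
        fun h1 => absurd h1 h⟩
  have pn : Primrec (fun q : ℕ × Bool => q.1) := Primrec.fst
  have ph : Primrec (fun q : ℕ × Bool => (q.1 / 2).unpair) :=
    Primrec.unpair.comp (Primrec.nat_div.comp Primrec.fst (Primrec.const 2))
  have pm : PrimrecPred (fun q : ℕ × Bool => q.1 % 2 = 0) :=
    Primrec.eq.comp (Primrec.nat_mod.comp pn (Primrec.const 2)) (Primrec.const 0)
  have pe : PrimrecPred (fun q : ℕ × Bool => (q.1 / 2).unpair.1 = p) :=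
    Primrec.eq.comp (Primrec.fst.comp ph) (Primrec.const p)
  have hfin : Sig {W} (fun W (q : ℕ × Bool) =>
      (q.1 % 2 = 0 ∧ W q.1 = q.2) ∨ (¬ q.1 % 2 = 0 ∧
        ((¬ r (q.1 / 2).unpair.1 m₁ ∧ q.2 = false) ∨ (r (q.1 / 2).unpair.1 m₁ ∧
          (((q.1 / 2).unpair.1 = p ∧ P W ((q.1 / 2).unpair.2, q.2)) ∨
            (¬ (q.1 / 2).unpair.1 = p ∧
              Srch W ((q.1 / 2).unpair.1, (q.1 / 2).unpair.2, q.2))))))) := by
    refine ((Sig.of_prim pm).and (Sig.oracle pn Primrec.snd)).or ((Sig.of_prim pm.not).and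
      (((sig_rel_not hr (Primrec.fst.comp ph) (Primrec.const m₁)).and
        (Sig.of_prim (Primrec.eq.comp Primrec.snd (Primrec.const false)))).or
      ((sig_rel hr (Primrec.fst.comp ph) (Primrec.const m₁)).and
        (((Sig.of_prim pe).and ?_).or ((Sig.of_prim pe.not).and ?_)))))
    · exact hP1.comp (f := fun q : ℕ × Bool => ((q.1 / 2).unpair.2, q.2))
        (Primrec.pair (Primrec.snd.comp ph) Primrec.snd)
    · exact hSrch.comp (f := fun q : ℕ × Bool =>
        ((q.1 / 2).unpair.1, (q.1 / 2).unpair.2, q.2))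
        (Primrec.pair (Primrec.fst.comp ph) (Primrec.pair (Primrec.snd.comp ph) Primrec.snd))
  refine hfin.congr ?_
  rintro W' hW' ⟨n, b⟩
  have hW'' : W' = W := hW'
  subst hW''
  simp only
  rcases ev_or_od n with ⟨j, rfl⟩ | ⟨k, x, rfl⟩
  · have h2 : ev j % 2 = 0 := by unfold ev; omega
    simp only [h2, not_true_eq_false, false_and, or_false, true_and]
    rw [iterJump_ev, hW, iterJump_ev]
  · have h2 : ¬ od k x % 2 = 0 := by unfold od; omega
    have h3 : od k x / 2 = Nat.pair k x := by unfold od; omega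
    rw [h3, Nat.unpair_pair]
    simp only [h2, false_and, false_or, not_false_eq_true, true_and]
    by_cases hk : r k m₁
    · rw [iterJump_od r X m₁ k x hk]
      simp only [hk, not_true_eq_false, false_and, false_or, true_and]
      by_cases hkp : k = p
      · subst hkp
        simp only [true_and, not_true_eq_false, false_and, or_false]
        exact hP2 hk x b
      · simp only [hkp, false_and, false_or, not_false_eq_true, true_and]
        exact hSrch_iff k hk (hp1 k hk hkp) x b
    · rw [iterJump_od_not r X m₁ k x hk]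
      simp only [hk, not_false_eq_true, true_and, false_and, or_false]
      exact eq_comm

lemma degree_le_iff {A B : ℕ → Bool} : degree A ≤ degree B ↔ Red A B := by
  rw [← turingReducible_iff]
  rfl

/-- Spector's theorem. -/
theorem degree_iterJump_congr (r s : ℕ → ℕ → Prop) [IsWellOrder ℕ r] [IsWellOrder ℕ s]
    (hr : ComputablePred fun p : ℕ × ℕ => r p.1 p.2)
    (hs : ComputablePred fun p : ℕ × ℕ => s p.1 p.2) (X : ℕ → Bool) (m₁ m₂ : ℕ)
    (h : Ordinal.typein r m₁ = Ordinal.typein s m₂) :
    degree (iterJump r X m₁) = degree (iterJump s X m₂) :=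
  le_antisymm (degree_le_iff.2 (spector r s hr hs X m₁ m₂ h.le))
    (degree_le_iff.2 (spector s r hs hr X m₂ m₁ h.ge))

end JumpDeg
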